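import Pool.Agent.Helper10.CK.Defs
import Pool.Agent.Helper10.CI.RZ

/-!
# CK-AAP: the bound of `AA` by two parameters

As `aa_at` in `Helper10/CI/RZ.lean` (copy `RZ_core`): the last rows are replaced by
`D_(X_m^(d_i)) x / x_m^(d_i)` (`tan_change`; if the `v_j` are dependent everything is zero or
`tan_change` applies anyway), the rows are scaled: `x = x_m x'`, `v_j = c_j v_j' + μ_j x`.
-/

set_option autoImplicit false

namespace Pool.Agent.Helper10.CK

open scoped BigOperators
open MvPolynomial Pool.Agent.Helper10.CI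
open Pool.Agent.Helper8.LG (Bdd form mon Ix)
open Pool.Agent.Helper49.LN (cP mo hf pl)
open Pool.Agent.Helper6.QS (dv ev lf dt Par RatP)

section

variable {Ω : Type*} [Field Ω] [CharZero Ω] {N r n q : ℕ} {d : Fin r → ℕ}
  {D : Ix (Fin (N + 1)) d → Derivation ℤ Ω Ω} {a : Ix (Fin (N + 1)) d → Ω} {B : Subfield Ω}
  {x y w : Fin (N + 1) → Ω} {β : Fin (N + 1)}

theorem AAP_scale (e : Kx n r ≃ Fin (N + 1)) (x x' : Fin (N + 1) → Ω) (c : Ω) (hx : x = c • x')
    (v v' : Fin n → Fin (N + 1) → Ω) (w μ : Fin n → Ω)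
    (hv : ∀ j, v j = w j • v' j + μ j • x) (τ τ' : Fin r → Fin (N + 1) → Ω)
    (b μ' : Fin r → Ω) (hτ : ∀ i, τ i = b i • τ' i + μ' i • x) :
    dtm e x v τ = c * (∏ j, w j) * (∏ i, b i) * dtm e x' v' τ' := by
  have h1 : dtm e x v τ = dtm e x (fun j => w j • v' j) (fun i => b i • τ' i) := by
    rw [← Det_f_apply, ← Det_f_apply]
    apply Det_change _ {Sum.inl ()}ᶜ
    · rintro (u | j | i) hk
      · rfl
      · exact absurd (by simp) hk
      · exact absurd (by simp) hk
    · have hxm : x ∈ Submodule.span Ω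
          ((rows x (fun j => w j • v' j) (fun i => b i • τ' i)) '' {Sum.inl ()}ᶜᶜ) :=
        Submodule.subset_span ⟨Sum.inl (), by simp, rfl⟩
      rintro (u | j | i) hk
      · exact absurd rfl hk
      · have : rows x v τ (Sum.inr (Sum.inl j)) -
            rows x (fun j => w j • v' j) (fun i => b i • τ' i) (Sum.inr (Sum.inl j)) =
            μ j • x := by
          change v j - w j • v' j = _
          rw [hv j]; abel
        rw [this]
        exact Submodule.smul_mem _ _ hxm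
      · have : rows x v τ (Sum.inr (Sum.inr i)) -
            rows x (fun j => w j • v' j) (fun i => b i • τ' i) (Sum.inr (Sum.inr i)) =
            μ' i • x := by
          change τ i - b i • τ' i = _
          rw [hτ i]; abel
        rw [this]
        exact Submodule.smul_mem _ _ hxm
  have h2 : rows x (fun j => w j • v' j) (fun i => b i • τ' i) =
      fun k => (Sum.elim (fun _ => c) (Sum.elim w b) : Kx n r → Ω) k •
        rows x' v' τ' k := by
    funext k
    rcases k with u | j | i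
    · exact hx
    · rfl
    · rfl
  rw [h1, ← Det_f_apply, h2, AlternatingMap.map_smul_univ, Det_f_apply, Fintype.prod_sum_type,
    Fintype.prod_sum_type]
  simp only [Sum.elim_inl, Sum.elim_inr, Finset.univ_unique, Finset.prod_singleton, smul_eq_mul]
  ring

/-- the last rows, normalised at the coordinate `m` -/
noncomputable def AAP_tau (D : Ix (Fin (N + 1)) d → Derivation ℤ Ω Ω)
    (x : Fin (N + 1) → Ω) (m : Fin (N + 1)) (i : Fin r) : Fin (N + 1) → Ω :=
  dvC D x (sg i ((x m)⁻¹ ^ d i • X m ^ d i))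

theorem AAP_coeff (O : ValuationSubring Ω) (m : Fin (N + 1)) (k : ℕ)
    (n : Fin (N + 1) →₀ ℕ) : coeff n (X m ^ k : MvPolynomial (Fin (N + 1)) Ω) ∈ O := by
  classical
  rw [coeff_X_pow]
  split_ifs
  · exact O.one_mem
  · exact O.zero_mem

theorem AAP_core (e : Kx n r ≃ Fin (N + 1)) (x y : Fin (N + 1) → Ω)
    (v : Fin n → Fin (N + 1) → Ω) (m b : Fin (N + 1)) (hm : x m ≠ 0)
    (c : Fin n → Ω) (hc : ∀ j, c j ≠ 0) (hw : ∀ j, WtP D B x y m b (c j) (v j)) :
    BdP D B x y m b (dtm e x v (AAP_tau D x m) * x m ^ (∑ i, d i) /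
      (x m ^ (1 + r) * ∏ j, c j)) := by
  classical
  choose s M hsB hs using hw
  refine ⟨Finset.univ.biUnion s, (∑ j, M j + 1) * (N + 1), ?_, fun O Δ hΔ hsO _ hmax hP hPm => ?_⟩
  · intro b hb
    obtain ⟨j, -, hb⟩ := Finset.mem_biUnion.1 hb
    exact hsB j b hb
  · have h1 := fun j => hs j O Δ hΔ
      (fun b hb => hsO b (Finset.mem_biUnion.2 ⟨j, Finset.mem_univ j, hb⟩)) hm hmax hP hPm
    choose μ v' hv hv' using h1
    have h2 := fun i : Fin r => dvC_scale (D := D) x m hm (sg i (X m ^ d i))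
    choose cc hcc using h2
    set x' : Fin (N + 1) → Ω := fun l => x l / x m with hx'
    have hxx : x = x m • x' := by
      funext l
      rw [Pi.smul_apply, smul_eq_mul]
      exact (mul_div_cancel₀ _ hm).symm
    have hτ : ∀ i, AAP_tau D x m i = ((x m)⁻¹ ^ d i * x m) • dvC D x' (sg i (X m ^ d i)) +
        ((x m)⁻¹ ^ d i * cc i) • x := by
      intro i
      have h3 : sg i ((x m)⁻¹ ^ d i • X m ^ d i) =
          (x m)⁻¹ ^ d i • sg i (X m ^ d i : MvPolynomial (Fin (N + 1)) Ω) := by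
        unfold sg
        rw [Pi.single_smul]
      rw [AAP_tau, h3, map_smul, hcc, smul_add, smul_smul, smul_smul]
    have h4 := AAP_scale e x x' (x m) hxx v v' c μ hv (AAP_tau D x m)
      (fun i => dvC D x' (sg i (X m ^ d i))) (fun i => (x m)⁻¹ ^ d i * x m)
      (fun i => (x m)⁻¹ ^ d i * cc i) hτ
    have h5 : ∏ i, ((x m)⁻¹ ^ d i * x m) = (x m)⁻¹ ^ (∑ i, d i) * x m ^ r := by
      rw [Finset.prod_mul_distrib, Finset.prod_pow_eq_pow_sum, Finset.prod_const,
        Finset.card_univ, Fintype.card_fin]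
    have hcp : ∏ j, c j ≠ 0 := Finset.prod_ne_zero_iff.2 fun j _ => hc j
    have h6 : dtm e x v (AAP_tau D x m) * x m ^ (∑ i, d i) / (x m ^ (1 + r) * ∏ j, c j) =
        dtm e x' v' (fun i => dvC D x' (sg i (X m ^ d i))) := by
      rw [h4, h5, inv_pow, div_eq_iff (mul_ne_zero (pow_ne_zero _ hm) hcp)]
      have h7 : x m * (∏ j, c j) * ((x m ^ (∑ i, d i))⁻¹ * x m ^ r) *
          dtm e x' v' (fun i => dvC D x' (sg i (X m ^ d i))) * x m ^ (∑ i, d i) =
          x m * (∏ j, c j) * x m ^ r *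
          dtm e x' v' (fun i => dvC D x' (sg i (X m ^ d i))) *
            ((x m ^ (∑ i, d i))⁻¹ * x m ^ (∑ i, d i)) := by ring
      rw [h7, inv_mul_cancel₀ (pow_ne_zero _ hm)]
      ring
    rw [h6]
    refine dtm_mem e x' v' _ O Δ hΔ.1 (∑ j, M j + 1) hmax ?_ ?_
    · intro j l
      have h8 : M j ≤ ∑ j, M j := Finset.single_le_sum (fun _ _ => Nat.zero_le _)
        (Finset.mem_univ j)
      have h9 : ∑ j, M j + 1 = (∑ j, M j + 1 - M j) + M j := by omega
      rw [h9, pow_add, mul_assoc]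
      exact O.mul_mem _ _ (pow_mem hΔ.1 _) (hv' j l)
    · intro i l
      rw [pow_add, mul_assoc]
      refine O.mul_mem _ _ (pow_mem hΔ.1 _) ?_
      refine dvC_bdd x' O Δ hΔ hmax (sg i (X m ^ d i)) 0 (fun k q => ?_) l
      rw [pow_zero, one_mul]
      unfold sg
      by_cases hk : k = i
      · subst hk
        rw [Pi.single_eq_same]
        exact AAP_coeff O m _ q
      · rw [Pi.single_eq_of_ne hk, coeff_zero]
        exact O.zero_mem

/-- the difference of the forms vanishes at `x` -/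
theorem AAP_ev (x : Fin (N + 1) → Ω) (hx : x 0 = 1) (m : Fin (N + 1)) (hm : x m ≠ 0)
    (i k : Fin r) :
    ev (d k) x ((sg i ((x m)⁻¹ ^ d i • X m ^ d i) - sg i (X 0 ^ d i) :
      Fin r → MvPolynomial (Fin (N + 1)) Ω) k) = 0 := by
  have h1 : ∀ l : Fin (N + 1), ev (d k) x (X l ^ d k : MvPolynomial (Fin (N + 1)) Ω) =
      x l ^ d k := by
    intro l
    rw [Pool.Agent.Helper6.QS.ev_hom]
    · rw [map_pow, eval_X]
    · simpa using (isHomogeneous_X Ω l).pow (d k)
  rw [Pi.sub_apply]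
  unfold sg
  by_cases hk : k = i
  · subst hk
    rw [Pi.single_eq_same, Pi.single_eq_same, map_sub, map_smul, h1, h1, hx, one_pow,
      smul_eq_mul, ← mul_pow, inv_mul_cancel₀ hm, one_pow, sub_self]
  · rw [Pi.single_eq_of_ne hk, Pi.single_eq_of_ne hk, sub_self, map_zero]

theorem AAP_sub (x : Fin (N + 1) → Ω) (m : Fin (N + 1)) (i : Fin r) :
    AAP_tau D x m i - tau D x i = dvC D x (sg i ((x m)⁻¹ ^ d i • X m ^ d i) -
      sg i (X 0 ^ d i)) := by
  rw [AAP_tau, tau, map_sub]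

theorem aap_at (hB : Frame D a B) (hn : n + r = N) (x y : Fin (N + 1) → Ω) (hx : x 0 = 1)
    (hF : ∀ i, form (fun J => a ⟨i, J⟩) x = 0) (e : Kx n r ≃ Fin (N + 1))
    (v : Fin n → Fin (N + 1) → Ω) (hT : ∀ j, v j ∈ TT a x) (m b : Fin (N + 1)) (hm : x m ≠ 0)
    (hP : pl x y m b ≠ 0) (c : Fin n → Ω) (hc : ∀ j, c j ≠ 0)
    (hw : ∀ j, WtP D B x y m b (c j) (v j)) :
    BdP D B x y m b (AA e D x v * x m ^ (∑ i, d i) / (x m ^ (1 + r) * ∏ j, c j)) := by
  have h1 : dtm e x v (AAP_tau D x m) = AA e D x v := by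
    refine tan_change hB.dual hn x hx hF e v hT (AAP_tau D x m) fun i k => ?_
    rw [AAP_sub, nu_dvC hB.dual x hF, AAP_ev x hx m hm, neg_zero]
  rw [← h1]
  exact AAP_core e x y v m b hm c hc hw

end

end Pool.Agent.Helper10.CK
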