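import Pool.Agent.Helper10.CK.Defs

/-!
# CK-AARB: the restrictions of the derivatives are arbitrary

`w1` is not on the line: there is a linear form `h = lf ζ` with `dt ζ x = dt ζ y = 0`, `dt ζ w1 = 1`
(linear algebra: a functional on `Fin (N+1) → Ω` which is a dot product). `g_i = h A_i`:
`∑_j w1_j ∂_j (h A_i) = (dt ζ w1) A_i + h (..)` and `Chain_ph h = 0`.
-/

set_option autoImplicit false

namespace Pool.Agent.Helper10.CK

open scoped BigOperators
open MvPolynomial Pool.Agent.Helper10.CI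
open Pool.Agent.Helper8.LG (Bdd form mon Ix)
open Pool.Agent.Helper49.LN (cP mo hf pl)
open Pool.Agent.Helper6.QS (dv ev lf dt Par RatP)

section

variable {Ω : Type*} [Field Ω] [CharZero Ω] {N r n q : ℕ} {d : Fin r → ℕ}
  {D : Ix (Fin (N + 1)) d → Derivation ℤ Ω Ω} {a : Ix (Fin (N + 1)) d → Ω} {B : Subfield Ω}
  {x y w : Fin (N + 1) → Ω} {β : Fin (N + 1)}

omit [CharZero Ω] in
theorem AArb_dual (w1 : Fin (N + 1) → Ω) (hli : LinearIndependent Ω ![x, y, w1]) :
    ∃ ζ : Fin (N + 1) → Ω, dt ζ x = 0 ∧ dt ζ y = 0 ∧ dt ζ w1 = 1 := by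
  have h1 : w1 ∉ Submodule.span Ω ({x, y} : Set (Fin (N + 1) → Ω)) := by
    have h2 := hli.notMem_span_image (s := {0, 1}) (x := 2) (by decide)
    have h3 : (![x, y, w1] : Fin 3 → (Fin (N + 1) → Ω)) '' {0, 1} = {x, y} := by
      rw [Set.image_pair]
      rfl
    rw [h3] at h2
    exact h2
  obtain ⟨f, hf1, hf2⟩ := Submodule.exists_le_ker_of_notMem h1
  have hfd : ∀ v : Fin (N + 1) → Ω,
      dt (fun l => (f w1)⁻¹ * f (Pi.single l 1)) v = (f w1)⁻¹ * f v := by
    intro v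
    have h2 : v = ∑ l, v l • (Pi.single l (1 : Ω) : Fin (N + 1) → Ω) := by
      ext j
      rw [Finset.sum_apply]
      simp [Pi.single_apply]
    conv_rhs => rw [h2, map_sum, Finset.mul_sum]
    rw [dt]
    refine Finset.sum_congr rfl fun l _ => ?_
    rw [map_smul, smul_eq_mul]
    ring
  refine ⟨fun l => (f w1)⁻¹ * f (Pi.single l 1), ?_, ?_, ?_⟩
  · rw [hfd, LinearMap.mem_ker.1 (hf2 (Submodule.subset_span (Set.mem_insert x _))), mul_zero]
  · rw [hfd, LinearMap.mem_ker.1 (hf2 (Submodule.subset_span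
      (Set.mem_insert_of_mem x (Set.mem_singleton y)))), mul_zero]
  · rw [hfd, inv_mul_cancel₀ hf1]

omit [CharZero Ω] in
theorem AArb_ph (ζ : Fin (N + 1) → Ω) (h1 : dt ζ x = 0) (h2 : dt ζ y = 0) :
    Chain_ph x y β (lf ζ) = 0 := by
  have h3 : Chain_ph x y β (lf ζ) = dt ζ x • X 0 + dt ζ y • X β := by
    rw [lf, map_sum, dt, dt, Finset.sum_smul, Finset.sum_smul, ← Finset.sum_add_distrib]
    refine Finset.sum_congr rfl fun l _ => ?_
    rw [map_smul, Chain_ph, aeval_X, smul_add, smul_smul, smul_smul]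
  rw [h3, h1, h2, zero_smul, zero_smul, add_zero]

omit [CharZero Ω] in
theorem AArb_pd (ζ : Fin (N + 1) → Ω) (j : Fin (N + 1)) :
    pderiv j (lf ζ : MvPolynomial (Fin (N + 1)) Ω) = C (ζ j) := by
  rw [lf, map_sum, Finset.sum_eq_single j]
  · rw [Derivation.map_smul, pderiv_X_self, smul_eq_C_mul, mul_one]
  · intro l _ hl
    rw [Derivation.map_smul, pderiv_X_of_ne hl, smul_zero]
  · intro h
    exact absurd (Finset.mem_univ j) h

theorem a_arb (hd : ∀ i, 1 ≤ d i) (w1 : Fin (N + 1) → Ω)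
    (hli : LinearIndependent Ω ![x, y, w1]) (A : Fin r → MvPolynomial (Fin (N + 1)) Ω)
    (hA : ∀ i, (A i).IsHomogeneous (d i - 1)) :
    ∃ g ∈ JJ d x y β, ∀ i,
      Chain_ph x y β (∑ j, w1 j • pderiv j (g i)) = Chain_ph x y β (A i) := by
  obtain ⟨ζ, h1, h2, h3⟩ := AArb_dual w1 hli
  have h4 : Chain_ph x y β (lf ζ) = 0 := AArb_ph ζ h1 h2
  refine ⟨fun i => lf ζ * A i, ?_, ?_⟩
  · intro i
    refine ⟨?_, ?_⟩
    · have h5 := (Pool.Agent.Helper6.QS.lf_hom ζ).mul (hA i)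
      have h6 : 1 + (d i - 1) = d i := by have := hd i; omega
      rw [h6] at h5
      exact h5
    · rw [map_mul, h4, zero_mul]
  · intro i
    rw [map_sum]
    have h5 : ∀ j, Chain_ph x y β (w1 j • pderiv j (lf ζ * A i)) =
        (ζ j * w1 j) • Chain_ph x y β (A i) := by
      intro j
      rw [map_smul, Derivation.leibniz, smul_eq_mul, smul_eq_mul, map_add, map_mul, map_mul, h4,
        zero_mul, zero_add, AArb_pd, mul_comm (Chain_ph x y β (A i)), ← algebraMap_eq,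
        AlgHom.commutes, algebraMap_eq, ← smul_eq_C_mul, smul_smul, mul_comm]
    rw [Finset.sum_congr rfl fun j _ => h5 j, ← Finset.sum_smul]
    have h6 : ∑ j, ζ j * w1 j = 1 := h3
    rw [h6, one_smul]

end

end Pool.Agent.Helper10.CK
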