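import Pool.Agent.Helper10.CK.PBd
import Pool.Agent.Helper64.CJ.Defs

/-!
# CK-EXPP: the exponent functions

`ExpG` (Helper64/CJ) implies `ExpP` with the same exponent (`bdp_of`) and smaller exponents (`bdp_inv`).
-/

set_option autoImplicit false

namespace Pool.Agent.Helper10.CK

open scoped BigOperators
open MvPolynomial Pool.Agent.Helper10.CI
open Pool.Agent.Helper8.LG (Bdd form mon Ix)
open Pool.Agent.Helper49.LN (cP mo hf pl)
open Pool.Agent.Helper6.QS (dv ev lf dt Par RatP)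

section

variable {Ω : Type*} [Field Ω] [CharZero Ω] {N r n q : ℕ} {d : Fin r → ℕ}
  {D : Ix (Fin (N + 1)) d → Derivation ℤ Ω Ω} {a : Ix (Fin (N + 1)) d → Ω} {B : Subfield Ω}
  {x y w : Fin (N + 1) → Ω} {β : Fin (N + 1)}

omit [CharZero Ω] in
/-- a function with `G pl^t / x_m` bounded -/
def ExpP (D : Ix (Fin (N + 1)) d → Derivation ℤ Ω Ω) (B : Subfield Ω) (x y : Fin (N + 1) → Ω)
    (t : ℕ) : Prop :=
  ∃ G : Ω, G ≠ 0 ∧ ∀ m b, x m ≠ 0 → pl x y m b ≠ 0 →
    BdP D B x y m b (G * pl x y m b ^ t / x m)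

theorem expP_of {t : ℕ} (h : Pool.Agent.Helper64.CJ.ExpG D B x y t) : ExpP D B x y t := by
  obtain ⟨G, hG, hG'⟩ := h
  exact ⟨G, hG, fun m b hm _ => bdp_of (hG' m hm m b)⟩

theorem expP_mono (h0 : pl x y 0 β = 1) {t t' : ℕ} (ht : t' ≤ t) (h : ExpP D B x y t) :
    ExpP D B x y t' := by
  obtain ⟨G, hG, hG'⟩ := h
  refine ⟨G, hG, fun m b hm hP => ?_⟩
  have h1 := bdp_mul (hG' m b hm hP)
    (bdp_pow (bdp_inv (D := D) (B := B) (m := m) (b := b) h0) (t - t'))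
  have h2 : G * pl x y m b ^ t / x m * (pl x y m b)⁻¹ ^ (t - t') =
      G * pl x y m b ^ t' / x m := by
    obtain ⟨k, rfl⟩ := Nat.exists_eq_add_of_le ht
    rw [Nat.add_sub_cancel_left, pow_add, inv_pow]
    field_simp
  rwa [h2] at h1

end

end Pool.Agent.Helper10.CK
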