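import Pool.Agent.Helper10.CK.NoL
import Pool.Agent.Helper10.CK.ExpP

/-!
# CK-ALPHA: the case of a power

Step (7) of note 3342. `x_pow`: `Chain_ph (Fp a i) = c_i X_β^(d_i)`, `c_i = F_i(y)`, not all zero (`no_line`). At
`(m, b)`: `pl x y m j = x_m y_j - y_m x_j`, so `F_i (pl m ·) = c_i x_m^(d_i)` (value of `Chain_ph (Fp a i)` at
`X_0 = - y_m`, `X_β = x_m`), so `c_i x_m^(d_i) / pl(m,b)^(d_i) = F_i (pl m · / pl m b)` is bounded. With `G` from
`hG`: `G^(d_i) c_i pl^(d_i (n-3))` is bounded, `d_i (n - 3) ≥ 1`: `bdp_inv`, `bdp_line`.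
-/

set_option autoImplicit false

namespace Pool.Agent.Helper10.CK

open scoped BigOperators
open MvPolynomial Pool.Agent.Helper10.CI
open Pool.Agent.Helper8.LG (Bdd form mon Ix)
open Pool.Agent.Helper49.LN (cP mo hf pl)
open Pool.Agent.Helper6.QS (dv ev lf dt Par RatP)

section

variable {Ω : Type*} [Field Ω] [CharZero Ω] {N r n q : ℕ} {d : Fin r → ℕ}
  {D : Ix (Fin (N + 1)) d → Derivation ℤ Ω Ω} {a : Ix (Fin (N + 1)) d → Ω} {B : Subfield Ω}
  {x y w : Fin (N + 1) → Ω} {β : Fin (N + 1)}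

omit [CharZero Ω] in
/-- values of the restriction to the line -/
theorem Alpha_eval (z : Fin (N + 1) → Ω) (f : MvPolynomial (Fin (N + 1)) Ω) :
    eval z (Chain_ph x y β f) = eval (fun l => x l * z 0 + y l * z β) f := by
  have h : (aeval z).comp (Chain_ph x y β) =
      (aeval (fun l => x l * z 0 + y l * z β) : MvPolynomial (Fin (N + 1)) Ω →ₐ[Ω] Ω) := by
    refine MvPolynomial.algHom_ext fun l => ?_
    rw [AlgHom.comp_apply, Chain_ph, aeval_X, map_add, map_smul, map_smul, aeval_X, aeval_X,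
      aeval_X, smul_eq_mul, smul_eq_mul]
  have h1 := congrArg (fun g : MvPolynomial (Fin (N + 1)) Ω →ₐ[Ω] Ω => g f) h
  exact h1

omit [CharZero Ω] in
theorem Alpha_div {k : ℕ} (f : Sym (Fin (N + 1)) k → Ω) (z : Fin (N + 1) → Ω) (c : Ω) :
    form f (fun l => z l / c) = form f z / c ^ k := by
  unfold form mon
  rw [Finset.sum_div]
  refine Finset.sum_congr rfl fun J _ => ?_
  rw [Multiset.prod_map_div, Multiset.map_const', Multiset.prod_replicate, Sym.card_coe,
    mul_div_assoc]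

theorem Alpha_bd {m b : Fin (N + 1)} {k : ℕ} (f : Sym (Fin (N + 1)) k → Ω) (hf : ∀ J, f J ∈ B)
    (z : Fin (N + 1) → Ω) (hz : ∀ l, BdP D B x y m b (z l)) : BdP D B x y m b (form f z) := by
  unfold form mon
  refine bdp_sum _ _ fun J _ => bdp_mul (bdp_const _ (hf J)) ?_
  rw [Finset.prod_multiset_map_count]
  exact bdp_prod _ _ fun l _ => bdp_pow (hz l) _

theorem alpha_case (hB : Frame D a B) (hn5 : 5 ≤ n) (hd : ∀ i, 1 ≤ d i)
    (hnum : ∑ i, (d i + 1) + 1 = 2 * N) (h : LineW D a B x y w β)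
    (hx1 : ∀ i, Chain_ph x y β (pdF a x i) = 0) (hG : ExpP D B x y (n - 2)) :
    ∀ j l, pl x y j l ∈ B := by
  obtain ⟨i, hi⟩ := no_line (D := D) (β := β) hB.dual hnum h.x0 h.y0 h.yb
  have hP := x_pow (β := β) h.x0 h.y0 h.yb i (hx1 i)
  have hc : form (fun J => a ⟨i, J⟩) y ≠ 0 := by
    intro h1
    rw [hP, h1, zero_smul] at hi
    exact hi rfl
  have hβ0 : β ≠ 0 := by
    rintro rfl
    have h1 := h.yb
    rw [h.y0] at h1
    exact zero_ne_one h1
  have h0 : pl x y 0 β = 1 := by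
    unfold pl
    rw [h.x0, h.y0, h.yb]
    ring
  have hval : ∀ m, form (fun J => a ⟨i, J⟩) (fun j => pl x y m j) =
      form (fun J => a ⟨i, J⟩) y * x m ^ d i := by
    intro m
    have h1 := congrArg (eval (fun l => if l = 0 then - y m else x m)) hP
    rw [Alpha_eval, Fp_eval, smul_eval, map_pow, eval_X, if_neg hβ0, if_pos rfl] at h1
    rw [← h1]
    refine congrArg (form (fun J => a ⟨i, J⟩)) (funext fun l => ?_)
    unfold pl
    ring
  obtain ⟨G, hG0, hG1⟩ := hG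
  refine bdp_line hB h.x0 h0 (G ^ d i * form (fun J => a ⟨i, J⟩) y)
    (mul_ne_zero (pow_ne_zero _ hG0) hc) fun m b hm hb => ?_
  have hA : BdP D B x y m b (form (fun J => a ⟨i, J⟩) (fun l => pl x y m l / pl x y m b)) :=
    Alpha_bd _ (fun J => hB.mem ⟨i, J⟩) _ fun l => bdp_pl m l
  rw [Alpha_div _ (fun l => pl x y m l), hval] at hA
  obtain ⟨k, hk⟩ : ∃ k, (n - 2) * d i = d i + k + 1 := by
    have h1 := hd i
    have h3 : n - 2 = (n - 3) + 1 := by omega
    have h4 : 0 < (n - 3) * d i := Nat.mul_pos (by omega) h1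
    refine ⟨(n - 3) * d i - 1, ?_⟩
    rw [h3, add_mul, one_mul]
    omega
  have h5 := bdp_mul (bdp_mul hA (bdp_pow (hG1 m b hm hb) (d i)))
    (bdp_pow (bdp_inv (D := D) (B := B) (m := m) (b := b) h0) k)
  have h6 : form (fun J => a ⟨i, J⟩) y * x m ^ d i / pl x y m b ^ d i *
      (G * pl x y m b ^ (n - 2) / x m) ^ d i * (pl x y m b)⁻¹ ^ k =
      G ^ d i * form (fun J => a ⟨i, J⟩) y * pl x y m b := by
    rw [div_pow, mul_pow, ← pow_mul, hk, pow_add, pow_add, pow_one, inv_pow]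
    field_simp
  rwa [h6] at h5

end

end Pool.Agent.Helper10.CK
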