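import Pool.Agent.Helper10.CK.Hess
import Pool.Agent.Helper10.CK.AArb

/-!
# CK-BRANK: the line moves in at least `n - 1` directions

`mv g = (D_g x, D_g y)` modulo the line. The `∑ d_i` tuples `sg i (X_0^p X_β^(d_i - 1 - p))`, `p < d_i`, are linearly
independent, and each is `(Chain_ph (A_i))_i` for a homogeneous tuple `A` of degrees `d_i - 1` (`X_0 ↦ X_0`,
`X_β - x_β X_0 ↦ X_β` under `Chain_ph`), so by `a_arb` and `hess` it lies in
`{(Chain_ph (pdF a u i))_i} + ε (D_g x, D_g y)`, `g ∈ JJ`. The first space has dimension `≤ N` (`w1 ≠ 0` is in the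
kernel), the second `≤ finrank (mv JJ)` (`ε` factors through `mv`): `∑ d_i ≤ N + finrank`, `∑ d_i = 2 n + r - 1`.
-/

set_option autoImplicit false

namespace Pool.Agent.Helper10.CK

open scoped BigOperators
open MvPolynomial Pool.Agent.Helper10.CI
open Pool.Agent.Helper8.LG (Bdd form mon Ix)
open Pool.Agent.Helper49.LN (cP mo hf pl)
open Pool.Agent.Helper6.QS (dv ev lf dt Par RatP)

section

variable {Ω : Type*} [Field Ω] [CharZero Ω] {N r n q : ℕ} {d : Fin r → ℕ}
  {D : Ix (Fin (N + 1)) d → Derivation ℤ Ω Ω} {a : Ix (Fin (N + 1)) d → Ω} {B : Subfield Ω}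
  {x y w : Fin (N + 1) → Ω} {β : Fin (N + 1)}

/-- the motion of the line -/
noncomputable def mv (D : Ix (Fin (N + 1)) d → Derivation ℤ Ω Ω) (x y : Fin (N + 1) → Ω) :
    (Fin r → MvPolynomial (Fin (N + 1)) Ω) →ₗ[Ω]
      ((Fin (N + 1) → Ω) ⧸ Submodule.span Ω {x, y}) ×
        ((Fin (N + 1) → Ω) ⧸ Submodule.span Ω {x, y}) where
  toFun g := (Submodule.Quotient.mk fun l => Dg D g (x l),
    Submodule.Quotient.mk fun l => Dg D g (y l))
  map_add' g g' := by
    simp only [map_add, Derivation.add_apply]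
    rfl
  map_smul' c g := by
    simp only [map_smul, Derivation.smul_apply]
    rfl

omit [CharZero Ω] in
theorem BRank_li (d : Fin r → ℕ) (β : Fin (N + 1)) (hβ0 : β ≠ 0) :
    LinearIndependent Ω (fun s : Σ i : Fin r, Fin (d i) =>
      (sg s.1 (X 0 ^ (s.2 : ℕ) * X β ^ (d s.1 - 1 - (s.2 : ℕ))) :
        Fin r → MvPolynomial (Fin (N + 1)) Ω)) := by
  classical
  rw [Fintype.linearIndependent_iff]
  rintro g hg ⟨i0, p0⟩
  have h1 := congrArg (fun P : Fin r → MvPolynomial (Fin (N + 1)) Ω =>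
    coeff (Finsupp.single 0 (p0 : ℕ) + Finsupp.single β (d i0 - 1 - (p0 : ℕ))) (P i0)) hg
  simp only [Finset.sum_apply, Pi.smul_apply, coeff_sum, coeff_smul, smul_eq_mul, Pi.zero_apply,
    coeff_zero] at h1
  rw [Finset.sum_eq_single ⟨i0, p0⟩] at h1
  · have h2 : coeff (Finsupp.single 0 (p0 : ℕ) + Finsupp.single β (d i0 - 1 - (p0 : ℕ)))
        ((sg i0 (X 0 ^ (p0 : ℕ) * X β ^ (d i0 - 1 - (p0 : ℕ))) :
          Fin r → MvPolynomial (Fin (N + 1)) Ω) i0) = 1 := by
      rw [sg, Pi.single_eq_same, X_pow_eq_monomial, X_pow_eq_monomial, monomial_mul, one_mul,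
        coeff_monomial, if_pos rfl]
    rw [h2, mul_one] at h1
    exact h1
  · rintro ⟨i, p⟩ - hne
    by_cases hi : i = i0
    · subst hi
      have hp : (p : ℕ) ≠ p0 := by
        intro h
        apply hne
        rw [Fin.ext h]
      rw [sg, Pi.single_eq_same, X_pow_eq_monomial, X_pow_eq_monomial, monomial_mul, one_mul,
        coeff_monomial, if_neg, mul_zero]
      intro h
      have h3 := DFunLike.congr_fun h 0
      rw [Finsupp.add_apply, Finsupp.add_apply, Finsupp.single_eq_same, Finsupp.single_eq_same,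
        Finsupp.single_eq_of_ne (Ne.symm hβ0), Finsupp.single_eq_of_ne (Ne.symm hβ0)] at h3
      exact hp (by omega)
    · rw [sg, Pi.single_eq_of_ne (Ne.symm hi), coeff_zero, mul_zero]
  · intro h
    exact absurd (Finset.mem_univ _) h

/-- the restrictions of the derivatives in constant directions -/
noncomputable def BRank_del (a : Ix (Fin (N + 1)) d → Ω) (x y : Fin (N + 1) → Ω)
    (β : Fin (N + 1)) : (Fin (N + 1) → Ω) →ₗ[Ω] (Fin r → MvPolynomial (Fin (N + 1)) Ω) where
  toFun u i := Chain_ph x y β (pdF a u i)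
  map_add' u v := by
    funext i
    simp only [pdF, Pi.add_apply, add_smul, Finset.sum_add_distrib, map_add]
  map_smul' c u := by
    funext i
    simp only [pdF, Pi.smul_apply, smul_eq_mul, mul_smul, ← Finset.smul_sum, map_smul,
      RingHom.id_apply]

theorem b_rank (hD : ∀ s t : Ix (Fin (N + 1)) d, D t (a s) = if s = t then 1 else 0)
    (hn : n + r = N) (hd : ∀ i, 1 ≤ d i) (hnum : ∑ i, (d i + 1) + 1 = 2 * N)
    (hx : x 0 = 1) (hy : y 0 = 0) (hβ : y β = 1) (w1 : Fin (N + 1) → Ω)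
    (hw1 : ∀ i, Chain_ph x y β (pdF a w1 i) = 0) (hli : LinearIndependent Ω ![x, y, w1]) :
    n - 1 ≤ Module.finrank Ω ((JJ d x y β).map (mv D x y)) := by
  classical
  obtain ⟨ε, hε0, hε⟩ := hess hD hx hy hβ w1 hw1
  have hβ0 : β ≠ 0 := by
    rintro rfl
    rw [hy] at hβ
    exact zero_ne_one hβ
  obtain ⟨ε', hε'⟩ : ∃ ε' : ((Fin (N + 1) → Ω) ⧸ Submodule.span Ω {x, y}) ×
      ((Fin (N + 1) → Ω) ⧸ Submodule.span Ω {x, y}) →ₗ[Ω]
        (Fin r → MvPolynomial (Fin (N + 1)) Ω),
      ∀ g, ε' (mv D x y g) = ε (fun l => Dg D g (x l), fun l => Dg D g (y l)) := by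
    refine ⟨((Submodule.span Ω {x, y}).liftQ (ε.comp (LinearMap.inl Ω _ _))
      (fun u hu => ?_)).coprod ((Submodule.span Ω {x, y}).liftQ (ε.comp (LinearMap.inr Ω _ _))
        (fun u hu => ?_)), fun g => ?_⟩
    · rw [LinearMap.mem_ker, LinearMap.comp_apply, LinearMap.inl_apply]
      exact hε0 u 0 hu (Submodule.zero_mem _)
    · rw [LinearMap.mem_ker, LinearMap.comp_apply, LinearMap.inr_apply]
      exact hε0 0 u (Submodule.zero_mem _) hu
    · show ε.comp (LinearMap.inl Ω _ _) (fun l => Dg D g (x l)) +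
        ε.comp (LinearMap.inr Ω _ _) (fun l => Dg D g (y l)) = _
      rw [LinearMap.comp_apply, LinearMap.comp_apply, LinearMap.inl_apply, LinearMap.inr_apply,
        ← map_add, Prod.mk_add_mk, add_zero, zero_add]
  obtain ⟨S, hS⟩ : ∃ S : Submodule Ω (Fin r → MvPolynomial (Fin (N + 1)) Ω),
      S = LinearMap.range (BRank_del a x y β) ⊔ ((JJ d x y β).map (mv D x y)).map ε' := ⟨_, rfl⟩
  have hfin : FiniteDimensional Ω S := by
    rw [hS]
    infer_instance
  have hmem : ∀ s : Σ i : Fin r, Fin (d i),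
      (sg s.1 (X 0 ^ (s.2 : ℕ) * X β ^ (d s.1 - 1 - (s.2 : ℕ))) :
        Fin r → MvPolynomial (Fin (N + 1)) Ω) ∈ S := by
    rintro ⟨i0, p⟩
    obtain ⟨g, hg, hgA⟩ := a_arb (x := x) (y := y) (β := β) hd w1 hli
      (sg i0 (X 0 ^ (p : ℕ) * rl x β ^ (d i0 - 1 - (p : ℕ)))) (fun i => by
        by_cases hi : i = i0
        · subst hi
          rw [sg, Pi.single_eq_same]
          have h1 : (X 0 : MvPolynomial (Fin (N + 1)) Ω).IsHomogeneous 1 := isHomogeneous_X Ω 0
          have h2 : (rl x β).IsHomogeneous 1 := by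
            refine (isHomogeneous_X Ω β).sub ?_
            rw [smul_eq_C_mul]
            simpa using (isHomogeneous_C (Fin (N + 1)) (x β)).mul (isHomogeneous_X Ω 0)
          have h3 := (h1.pow (p : ℕ)).mul (h2.pow (d i - 1 - (p : ℕ)))
          have h4 : 1 * (p : ℕ) + 1 * (d i - 1 - (p : ℕ)) = d i - 1 := by
            have := p.2
            omega
          rwa [h4] at h3
        · rw [sg, Pi.single_eq_of_ne hi]
          exact isHomogeneous_zero _ _ _)
    have h5 : (sg i0 (X 0 ^ (p : ℕ) * X β ^ (d i0 - 1 - (p : ℕ))) :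
        Fin r → MvPolynomial (Fin (N + 1)) Ω) =
        fun i => Chain_ph x y β (∑ j, w1 j • pderiv j (g i)) := by
      funext i
      rw [hgA i]
      by_cases hi : i = i0
      · subst hi
        have h6 : Chain_ph x y β (X 0) = X 0 := by
          rw [Chain_ph, aeval_X, hx, hy, one_smul, zero_smul, add_zero]
        have h7 : Chain_ph x y β (rl x β) = X β := by
          rw [rl, map_sub, map_smul, h6, Chain_ph, aeval_X, hβ, one_smul, add_sub_cancel_left]
        rw [sg, Pi.single_eq_same, sg, Pi.single_eq_same, map_mul, map_pow, map_pow, h6, h7]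
      · rw [sg, Pi.single_eq_of_ne hi, sg, Pi.single_eq_of_ne hi, map_zero]
    have h8 := hε g fun i => (hg i).1
    rw [← h5, ← hε' g] at h8
    have h9 : (sg i0 (X 0 ^ (p : ℕ) * X β ^ (d i0 - 1 - (p : ℕ))) :
        Fin r → MvPolynomial (Fin (N + 1)) Ω) =
        -(BRank_del a x y β (fun l => Dg D g (w1 l)) + ε' (mv D x y g)) := by
      rw [eq_neg_iff_add_eq_zero, ← add_assoc]
      exact h8
    show (sg i0 (X 0 ^ (p : ℕ) * X β ^ (d i0 - 1 - (p : ℕ))) :
        Fin r → MvPolynomial (Fin (N + 1)) Ω) ∈ S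
    rw [h9, hS]
    refine Submodule.neg_mem _ (Submodule.add_mem _ (Submodule.mem_sup_left ⟨_, rfl⟩)
      (Submodule.mem_sup_right ⟨_, ⟨g, hg, rfl⟩, rfl⟩))
  have hcard : ∑ i, d i ≤ Module.finrank Ω S := by
    have h1 : LinearIndependent Ω (fun s : Σ i : Fin r, Fin (d i) => (⟨_, hmem s⟩ : S)) := by
      refine LinearIndependent.of_comp S.subtype ?_
      exact BRank_li d β hβ0
    have h2 := h1.fintype_card_le_finrank
    rw [Fintype.card_sigma] at h2
    simpa using h2
  have h1 : Module.finrank Ω S ≤ Module.finrank Ω (LinearMap.range (BRank_del a x y β)) +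
      Module.finrank Ω (((JJ d x y β).map (mv D x y)).map ε') := by
    rw [hS]
    exact Submodule.finrank_add_le_finrank_add_finrank _ _
  have h2 : Module.finrank Ω (((JJ d x y β).map (mv D x y)).map ε') ≤
      Module.finrank Ω ((JJ d x y β).map (mv D x y)) := Submodule.finrank_map_le _ _
  have h3 : Module.finrank Ω (LinearMap.range (BRank_del a x y β)) ≤ N := by
    have h4 := LinearMap.finrank_range_add_finrank_ker (BRank_del a x y β)
    rw [Module.finrank_fin_fun] at h4
    have h5 : 1 ≤ Module.finrank Ω (LinearMap.ker (BRank_del a x y β)) := by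
      rw [Submodule.one_le_finrank_iff]
      intro h6
      have h7 : w1 ∈ LinearMap.ker (BRank_del a x y β) := by
        rw [LinearMap.mem_ker]
        funext i
        exact hw1 i
      rw [h6, Submodule.mem_bot] at h7
      exact hli.ne_zero 2 h7
    omega
  have h4 : ∑ i, (d i + 1) = ∑ i, d i + r := by
    rw [Finset.sum_add_distrib]
    simp
  omega

end

end Pool.Agent.Helper10.CK
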