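import Pool.Agent.Helper10.CK.DgB

/-!
# CK-FOUR: the four-vector: two motions of the line around `x` make it rational

Some 4 x 4 minor `G = det (x, y, D_1 y, D_2 y)` on columns `s : Fin 4 → Fin (N+1)` is not zero. `D_i x = 0`. At
`(m, b)`: `y' = (pl m j / pl m b)_j` (`pl x y m j = x_m y_j - y_m x_j`), so
`y = (pl m b / x_m) y' + (y_m / x_m) x`, `D_i y = (pl m b / x_m) D_i y' + D_i (pl m b / x_m) y' +
D_i (y_m / x_m) x`, so `G = pl m b * (pl m b / x_m)^2 * det (x / x_m, y', D_1 y', D_2 y')`, and by `dg_bd`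
with `c = x_m / pl^(n-3)` the last determinant is `(x_m / pl^(n-3))^2` times something bounded:
`G * pl^(2 n - 9)` is bounded; `2 n - 9 ≥ 1`, so `G * pl` is bounded (`bdp_inv`, `pl x y 0 β = 1`): `bdp_line`.
-/

set_option autoImplicit false

namespace Pool.Agent.Helper10.CK

open scoped BigOperators
open MvPolynomial Pool.Agent.Helper10.CI
open Pool.Agent.Helper8.LG (Bdd form mon Ix)
open Pool.Agent.Helper49.LN (cP mo hf pl)
open Pool.Agent.Helper6.QS (dv ev lf dt Par RatP)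

section

variable {Ω : Type*} [Field Ω] [CharZero Ω] {N r n q : ℕ} {d : Fin r → ℕ}
  {D : Ix (Fin (N + 1)) d → Derivation ℤ Ω Ω} {a : Ix (Fin (N + 1)) d → Ω} {B : Subfield Ω}
  {x y w : Fin (N + 1) → Ω} {β : Fin (N + 1)}

omit [CharZero Ω] in
private theorem Four_y {m b : Fin (N + 1)} (hm : x m ≠ 0) (hP : pl x y m b ≠ 0)
    (l : Fin (N + 1)) :
    y l = (y m / x m) * x l + (pl x y m b / x m) * (pl x y m l / pl x y m b) := by
  have h1 : (pl x y m b / x m) * (pl x y m l / pl x y m b) = pl x y m l / x m := by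
    field_simp
  rw [h1]
  unfold pl
  field_simp
  ring

omit [CharZero Ω] in
private theorem Four_dy (E : Derivation ℤ Ω Ω) (hx : ∀ l, E (x l) = 0) {m b : Fin (N + 1)}
    (hm : x m ≠ 0) (hP : pl x y m b ≠ 0) (l : Fin (N + 1)) :
    E (y l) = E (y m / x m) * x l + E (pl x y m b / x m) * (pl x y m l / pl x y m b) +
      pl x y m b / x m * E (pl x y m l / pl x y m b) := by
  have h1 := congrArg E (Four_y (x := x) (y := y) hm hP l)
  rw [map_add, Derivation.leibniz, Derivation.leibniz, hx l] at h1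
  simp only [smul_eq_mul, mul_zero] at h1
  rw [h1]
  ring

omit [CharZero Ω] in
private theorem Four_det (E₁ E₂ : Derivation ℤ Ω Ω) (hx₁ : ∀ l, E₁ (x l) = 0)
    (hx₂ : ∀ l, E₂ (x l) = 0) {m b : Fin (N + 1)} (hm : x m ≠ 0) (hP : pl x y m b ≠ 0) (c : Ω)
    (hc : c ≠ 0) (s : Fin 4 → Fin (N + 1)) :
    Matrix.det (Matrix.of fun i t : Fin 4 =>
      (![x, y, fun l => E₁ (y l), fun l => E₂ (y l)] : Fin 4 → Fin (N + 1) → Ω) t (s i)) =
    x m * (pl x y m b / x m) * (pl x y m b / x m * c) ^ 2 *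
    Matrix.det (Matrix.of fun i t : Fin 4 =>
      (![fun l => x l / x m, fun l => pl x y m l / pl x y m b,
        fun l => E₁ (pl x y m l / pl x y m b) / c,
        fun l => E₂ (pl x y m l / pl x y m b) / c] : Fin 4 → Fin (N + 1) → Ω) t (s i)) := by
  obtain ⟨U, hU⟩ : ∃ U : Matrix (Fin 4) (Fin 4) Ω, U =
      !![x m, y m, E₁ (y m / x m) * x m, E₂ (y m / x m) * x m;
         0, pl x y m b / x m, E₁ (pl x y m b / x m), E₂ (pl x y m b / x m);
         0, 0, pl x y m b / x m * c, 0;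
         0, 0, 0, pl x y m b / x m * c] := ⟨_, rfl⟩
  have hdU : U.det = x m * (pl x y m b / x m) * (pl x y m b / x m * c) ^ 2 := by
    rw [Matrix.det_of_upperTriangular]
    · rw [Fin.prod_univ_four, hU]
      simp
      ring
    · intro i j hij
      rw [hU]
      fin_cases i <;> fin_cases j <;> simp_all
  rw [mul_comm, ← hdU, ← Matrix.det_mul]
  congr 1
  ext i t
  rw [Matrix.mul_apply, Fin.sum_univ_four, hU]
  fin_cases t
  · simp
    field_simp
  · simp
    have h1 := Four_y (x := x) (y := y) hm hP (s i)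
    conv_lhs => rw [h1]
    ring
  · simp
    rw [Four_dy E₁ hx₁ hm hP (s i)]
    field_simp
  · simp
    rw [Four_dy E₂ hx₂ hm hP (s i)]
    field_simp

theorem four (hB : Frame D a B) (hn5 : 5 ≤ n) (h : LineW D a B x y w β)
    (g₁ g₂ : Fin r → MvPolynomial (Fin (N + 1)) Ω) (hx₁ : dvC D x g₁ = 0) (hx₂ : dvC D x g₂ = 0)
    (hb₁ : ∀ m b, x m ≠ 0 → pl x y m b ≠ 0 → ∀ i (J : Sym (Fin (N + 1)) (d i)),
      BdP D B x y m b (coeff (Multiset.toFinsupp (J : Multiset (Fin (N + 1)))) (g₁ i) * pl x y m b ^ (n - 3) / x m))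
    (hb₂ : ∀ m b, x m ≠ 0 → pl x y m b ≠ 0 → ∀ i (J : Sym (Fin (N + 1)) (d i)),
      BdP D B x y m b (coeff (Multiset.toFinsupp (J : Multiset (Fin (N + 1)))) (g₂ i) * pl x y m b ^ (n - 3) / x m))
    (hli : LinearIndependent Ω ![x, y, fun l => Dg D g₁ (y l), fun l => Dg D g₂ (y l)]) :
    ∀ j l, pl x y j l ∈ B := by
  classical
  have hx₁' : ∀ l, Dg D g₁ (x l) = 0 := fun l => by rw [← dvC_Dg, hx₁]; rfl
  have hx₂' : ∀ l, Dg D g₂ (x l) = 0 := fun l => by rw [← dvC_Dg, hx₂]; rfl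
  obtain ⟨s, -, hdet⟩ := Pool.Agent.Helper8.LG.exists_minor _ hli
  have h0 : pl x y 0 β = 1 := by
    unfold pl
    rw [h.x0, h.y0, h.yb]
    ring
  refine bdp_line hB h.x0 h0 _ hdet fun m b hm hb => ?_
  obtain ⟨k, hk⟩ : ∃ k, n = 5 + k := ⟨n - 5, by omega⟩
  have hk' : n - 3 = 2 + k := by omega
  have hc : x m / pl x y m b ^ (n - 3) ≠ 0 := div_ne_zero hm (pow_ne_zero _ hb)
  have hg : ∀ (g : Fin r → MvPolynomial (Fin (N + 1)) Ω),
      (∀ m b, x m ≠ 0 → pl x y m b ≠ 0 → ∀ i (J : Sym (Fin (N + 1)) (d i)),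
        BdP D B x y m b (coeff (Multiset.toFinsupp (J : Multiset (Fin (N + 1)))) (g i) *
          pl x y m b ^ (n - 3) / x m)) →
      ∀ l, BdP D B x y m b (Dg D g (pl x y m l / pl x y m b) /
        (x m / pl x y m b ^ (n - 3))) := by
    intro g hb' l
    refine dg_bd _ hc g (fun i J => ?_) m l
    rw [div_div_eq_mul_div]
    exact hb' m b hm hb i J
  rw [Four_det (Dg D g₁) (Dg D g₂) hx₁' hx₂' hm hb _ hc s]
  obtain ⟨T, hT⟩ : ∃ T, T = Matrix.det (Matrix.of fun i t : Fin 4 =>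
      (![fun l => x l / x m, fun l => pl x y m l / pl x y m b,
        fun l => Dg D g₁ (pl x y m l / pl x y m b) / (x m / pl x y m b ^ (n - 3)),
        fun l => Dg D g₂ (pl x y m l / pl x y m b) / (x m / pl x y m b ^ (n - 3))] :
        Fin 4 → Fin (N + 1) → Ω) t (s i)) := ⟨_, rfl⟩
  rw [← hT]
  have hTb : BdP D B x y m b T := by
    rw [hT, Matrix.det_apply']
    refine bdp_sum _ _ fun σ _ => bdp_mul (bdp_const _ (intCast_mem B _)) (bdp_prod _ _ fun i _ => ?_)
    rw [Matrix.of_apply]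
    fin_cases i
    · exact bdp_x _
    · exact bdp_pl _ _
    · exact hg g₁ hb₁ _
    · exact hg g₂ hb₂ _
  have hfin : x m * (pl x y m b / x m) * (pl x y m b / x m * (x m / pl x y m b ^ (n - 3))) ^ 2 * T *
      pl x y m b = (pl x y m b)⁻¹ ^ (2 * k) * T := by
    rw [hk', pow_add, inv_pow, mul_comm 2 k, pow_mul]
    field_simp
  rw [hfin]
  exact bdp_mul (bdp_pow (bdp_inv h0) _) hTb

end

end Pool.Agent.Helper10.CK
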