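import Pool.Agent.Helper10.CK.Defs

/-!
# CK-PICK: linear algebra: two elements of a spanning set

`pick_zero`: `lam = 0` on `S`, so `M (span S)` has dimension `≥ 2`. `pick_ne`: `g ↦ lam g0 • g - lam g • g0` maps
`span S` onto the kernel of `lam` in `span S` (up to the factor `lam g0`), the image of this kernel under `lam.prod M`
has dimension `≥ 2`, and is isomorphic to its image under `M`.
-/

set_option autoImplicit false

namespace Pool.Agent.Helper10.CK

open scoped BigOperators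
open MvPolynomial Pool.Agent.Helper10.CI
open Pool.Agent.Helper8.LG (Bdd form mon Ix)
open Pool.Agent.Helper49.LN (cP mo hf pl)
open Pool.Agent.Helper6.QS (dv ev lf dt Par RatP)

section

variable {Ω : Type*} [Field Ω] [CharZero Ω] {N r n q : ℕ} {d : Fin r → ℕ}
  {D : Ix (Fin (N + 1)) d → Derivation ℤ Ω Ω} {a : Ix (Fin (N + 1)) d → Ω} {B : Subfield Ω}
  {x y w : Fin (N + 1) → Ω} {β : Fin (N + 1)}

omit [CharZero Ω] in
/-- two linearly independent elements of a set with a span of dimension at least two -/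
theorem Pick_pair {V' : Type*} [AddCommGroup V'] [Module Ω V'] (T : Set V')
    (h : 2 ≤ Module.finrank Ω (Submodule.span Ω T)) :
    ∃ u ∈ T, ∃ v ∈ T, LinearIndependent Ω ![u, v] := by
  obtain ⟨b, hbT, hbs, hbl⟩ := exists_linearIndependent Ω T
  have hb : b.Nontrivial := by
    by_contra hb
    rw [Set.not_nontrivial_iff] at hb
    rw [← hbs] at h
    rcases hb.eq_empty_or_singleton with h1 | ⟨u, h1⟩
    · rw [h1, Submodule.span_empty, finrank_bot] at h
      omega
    · rw [h1] at h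
      have h2 : Module.finrank Ω (Submodule.span Ω ({u} : Set V')) ≤ 1 := by
        refine finrank_le_one
          (⟨u, Submodule.mem_span_singleton_self u⟩ : Submodule.span Ω ({u} : Set V')) ?_
        rintro ⟨w, hw⟩
        obtain ⟨c, hc⟩ := Submodule.mem_span_singleton.1 hw
        exact ⟨c, Subtype.ext hc⟩
      omega
  obtain ⟨u, hu, v, hv, huv⟩ := hb
  refine ⟨u, hbT hu, v, hbT hv, ?_⟩
  have hinj : Function.Injective (![⟨u, hu⟩, ⟨v, hv⟩] : Fin 2 → b) := by
    intro i j hij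
    fin_cases i <;> fin_cases j
    · rfl
    · exact absurd (congrArg Subtype.val hij) huv
    · exact absurd (congrArg Subtype.val hij) huv.symm
    · rfl
  have h2 := hbl.comp _ hinj
  have e : (Subtype.val ∘ (![⟨u, hu⟩, ⟨v, hv⟩] : Fin 2 → b)) = ![u, v] := by
    funext i
    fin_cases i <;> rfl
  rwa [e] at h2

omit [CharZero Ω] in
theorem pick_zero {G V' : Type*} [AddCommGroup G] [Module Ω G] [AddCommGroup V'] [Module Ω V']
    (S : Set G) (lam : G →ₗ[Ω] Ω) (M : G →ₗ[Ω] V')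
    (hr : 2 ≤ Module.finrank Ω ((Submodule.span Ω S).map (lam.prod M)))
    (h0 : ∀ g ∈ S, lam g = 0) : ∃ g₁ ∈ S, ∃ g₂ ∈ S, LinearIndependent Ω ![M g₁, M g₂] := by
  have hlam : ∀ g ∈ Submodule.span Ω S, lam g = 0 := by
    intro g hg
    have h1 : Submodule.span Ω S ≤ LinearMap.ker lam := Submodule.span_le.2 fun g hg => h0 g hg
    exact h1 hg
  have h1 : (Submodule.span Ω S).map (lam.prod M) =
      ((Submodule.span Ω S).map M).map (LinearMap.inr Ω Ω V') := by
    ext z
    constructor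
    · rintro ⟨g, hg, rfl⟩
      refine ⟨M g, ⟨g, hg, rfl⟩, ?_⟩
      change ((0 : Ω), M g) = (lam g, M g)
      rw [hlam g hg]
    · rintro ⟨_, ⟨g, hg, rfl⟩, rfl⟩
      refine ⟨g, hg, ?_⟩
      change (lam g, M g) = ((0 : Ω), M g)
      rw [hlam g hg]
  have h2 : Module.finrank Ω ((Submodule.span Ω S).map (lam.prod M)) =
      Module.finrank Ω ((Submodule.span Ω S).map M) := by
    rw [h1]
    exact (LinearEquiv.finrank_eq
      (Submodule.equivMapOfInjective (LinearMap.inr Ω Ω V') LinearMap.inr_injective _)).symm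
  rw [h2, Submodule.map_span] at hr
  obtain ⟨u, ⟨g₁, hg₁, rfl⟩, v, ⟨g₂, hg₂, rfl⟩, h3⟩ := Pick_pair (Ω := Ω) (M '' S) hr
  exact ⟨g₁, hg₁, g₂, hg₂, h3⟩

omit [CharZero Ω] in
theorem pick_ne {G V' : Type*} [AddCommGroup G] [Module Ω G] [AddCommGroup V'] [Module Ω V']
    (S : Set G) (lam : G →ₗ[Ω] Ω) (M : G →ₗ[Ω] V')
    (hr : 3 ≤ Module.finrank Ω ((Submodule.span Ω S).map (lam.prod M)))
    (g0 : G) (hg0 : g0 ∈ S) (h0 : lam g0 ≠ 0) :
    ∃ g₁ ∈ S, ∃ g₂ ∈ S, LinearIndependent Ω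
      ![M (lam g0 • g₁ - lam g₁ • g0), M (lam g0 • g₂ - lam g₂ • g0)] := by
  set W := (Submodule.span Ω S).map (lam.prod M) with hW
  have hWf : Module.Finite Ω W := Module.finite_of_finrank_pos (by omega)
  let P : (Ω × V') →ₗ[Ω] V' :=
    lam g0 • LinearMap.snd Ω Ω V' - (LinearMap.fst Ω Ω V').smulRight (M g0)
  have hP : ∀ z : Ω × V', P z = lam g0 • z.2 - z.1 • M g0 := fun z => rfl
  let Q : G →ₗ[Ω] V' := P.comp (lam.prod M)
  have hQ : ∀ g, Q g = M (lam g0 • g - lam g • g0) := by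
    intro g
    change P ((lam.prod M) g) = _
    rw [hP, map_sub, map_smul, map_smul]
    rfl
  have hmap : W.map P = Submodule.span Ω (Q '' S) := by
    rw [hW, ← Submodule.map_comp, Submodule.map_span]
  have hker : Module.finrank Ω (LinearMap.ker (P.domRestrict W)) ≤ 1 := by
    have hm : (lam.prod M) g0 ∈ W := ⟨g0, Submodule.subset_span hg0, rfl⟩
    have hk : (⟨(lam.prod M) g0, hm⟩ : W) ∈ LinearMap.ker (P.domRestrict W) := by
      rw [LinearMap.mem_ker]
      change P ((lam.prod M) g0) = 0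
      rw [hP]
      exact sub_self _
    refine finrank_le_one (⟨⟨(lam.prod M) g0, hm⟩, hk⟩ : LinearMap.ker (P.domRestrict W)) ?_
    rintro ⟨⟨z, hz⟩, hz'⟩
    have h1 : P z = 0 := hz'
    rw [hP, sub_eq_zero] at h1
    refine ⟨z.1 / lam g0, Subtype.ext (Subtype.ext ?_)⟩
    change (z.1 / lam g0) • ((lam g0, M g0) : Ω × V') = z
    refine Prod.ext ?_ ?_
    · change (z.1 / lam g0) * lam g0 = z.1
      exact div_mul_cancel₀ _ h0
    · change (z.1 / lam g0) • M g0 = z.2
      rw [div_eq_inv_mul, mul_smul, ← h1, smul_smul, inv_mul_cancel₀ h0, one_smul]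
  have hrk := LinearMap.finrank_range_add_finrank_ker (P.domRestrict W)
  rw [LinearMap.range_domRestrict, hmap] at hrk
  obtain ⟨u, ⟨g₁, hg₁, rfl⟩, v, ⟨g₂, hg₂, rfl⟩, h3⟩ := Pick_pair (Ω := Ω) (Q '' S) (by omega)
  rw [hQ, hQ] at h3
  exact ⟨g₁, hg₁, g₂, hg₂, h3⟩

end

end Pool.Agent.Helper10.CK
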