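import Pool.Agent.Helper10.CK.RG
import Pool.Agent.Helper10.CK.Pick
import Pool.Agent.Helper50.HS.Hess
import Pool.Agent.Helper10.CK.Four
import Pool.Agent.Helper10.CK.ExpP

/-!
# CK-BETA: the line moves

Steps (8b)-(10) of note 3342. `S` = the set of the `nc x y β i K l`, `|K| + 1 = d i`; `span S = JJ` (`nice`,
`nc_mem`). `R` (`rg`, `q = n - 1`), `Beta_M g = D_g y` modulo `span {x, y}`. `hess_two` (Helper50/HS) gives
`g1, g2` in `JJ` with `D_g x = 0` and independent `x, y, D_g1 y, D_g2 y`. If some `R g0 ≠ 0`, `g0 ∈ S`: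
`pick_ne`, `g'' = R g0 • g - R g • g0`, `D_g'' x = 0`, coefficients: `nc_coef`, `rg`. If `R = 0` on `S`,
then `D_g x = 0` on `JJ`: `hlam` gives `ExpP` with `n - 1`; `pick_zero`, `g'' = G • g`. Then `four`.
-/

set_option autoImplicit false

namespace Pool.Agent.Helper10.CK

open scoped BigOperators
open MvPolynomial Pool.Agent.Helper10.CI
open Pool.Agent.Helper8.LG (Bdd form mon Ix)
open Pool.Agent.Helper49.LN (cP mo hf pl)
open Pool.Agent.Helper6.QS (dv ev lf dt Par RatP)

section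

variable {Ω : Type*} [Field Ω] [CharZero Ω] {N r n q : ℕ} {d : Fin r → ℕ}
  {D : Ix (Fin (N + 1)) d → Derivation ℤ Ω Ω} {a : Ix (Fin (N + 1)) d → Ω} {B : Subfield Ω}
  {x y w : Fin (N + 1) → Ω} {β : Fin (N + 1)}

/-- the motion of `y` modulo the line -/
noncomputable def Beta_M (D : Ix (Fin (N + 1)) d → Derivation ℤ Ω Ω) (x y : Fin (N + 1) → Ω) :
    (Fin r → MvPolynomial (Fin (N + 1)) Ω) →ₗ[Ω]
      ((Fin (N + 1) → Ω) ⧸ Submodule.span Ω {x, y}) where
  toFun g := Submodule.Quotient.mk fun l => Dg D g (y l)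
  map_add' g g' := by
    simp only [map_add, Derivation.add_apply]
    rfl
  map_smul' c g := by
    simp only [map_smul, Derivation.smul_apply]
    rfl

omit [CharZero Ω] in
theorem Beta_lift {V : Type*} [AddCommGroup V] [Module Ω V] (x y u v : V)
    (h1 : LinearIndependent Ω ![x, y])
    (h2 : LinearIndependent Ω ![(Submodule.Quotient.mk u : V ⧸ Submodule.span Ω {x, y}),
      Submodule.Quotient.mk v]) : LinearIndependent Ω ![x, y, u, v] := by
  rw [LinearIndependent.pair_iff] at h1 h2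
  rw [Fintype.linearIndependent_iff]
  intro g hg
  rw [Fin.sum_univ_four] at hg
  have hg' : g 0 • x + g 1 • y + g 2 • u + g 3 • v = 0 := hg
  have hx : (Submodule.Quotient.mk x : V ⧸ Submodule.span Ω {x, y}) = 0 :=
    (Submodule.Quotient.mk_eq_zero _).2 (Submodule.subset_span (by simp))
  have hy : (Submodule.Quotient.mk y : V ⧸ Submodule.span Ω {x, y}) = 0 :=
    (Submodule.Quotient.mk_eq_zero _).2 (Submodule.subset_span (by simp))
  have hq : g 2 • (Submodule.Quotient.mk u : V ⧸ Submodule.span Ω {x, y}) +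
      g 3 • Submodule.Quotient.mk v = 0 := by
    have h3 := congrArg (Submodule.Quotient.mk (p := Submodule.span Ω {x, y})) hg'
    simp only [Submodule.Quotient.mk_add, Submodule.Quotient.mk_smul, hx, hy, smul_zero, zero_add,
      Submodule.Quotient.mk_zero] at h3
    exact h3
  obtain ⟨g2, g3⟩ := h2 _ _ hq
  rw [g2, g3, zero_smul, zero_smul, add_zero, add_zero] at hg'
  obtain ⟨g0, g1⟩ := h1 _ _ hg'
  intro i
  fin_cases i
  · exact g0
  · exact g1
  · exact g2
  · exact g3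

omit [CharZero Ω] in
theorem Beta_smul {V : Type*} [AddCommGroup V] [Module Ω V] (G : Ω) (hG : G ≠ 0) (u v : V)
    (h : LinearIndependent Ω ![u, v]) : LinearIndependent Ω ![G • u, G • v] := by
  rw [LinearIndependent.pair_iff] at h ⊢
  intro s t hst
  rw [smul_smul, smul_smul] at hst
  obtain ⟨h1, h2⟩ := h _ _ hst
  exact ⟨(mul_eq_zero.mp h1).resolve_right hG, (mul_eq_zero.mp h2).resolve_right hG⟩

omit [CharZero Ω] in
theorem Beta_down {V : Type*} [AddCommGroup V] [Module Ω V] (x y u v : V)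
    (h : LinearIndependent Ω ![x, y, u, v]) :
    LinearIndependent Ω ![(Submodule.Quotient.mk u : V ⧸ Submodule.span Ω {x, y}),
      Submodule.Quotient.mk v] := by
  rw [Fintype.linearIndependent_iff] at h
  rw [LinearIndependent.pair_iff]
  intro s t hst
  rw [← Submodule.Quotient.mk_smul, ← Submodule.Quotient.mk_smul, ← Submodule.Quotient.mk_add,
    Submodule.Quotient.mk_eq_zero, Submodule.mem_span_pair] at hst
  obtain ⟨a, b, hab⟩ := hst
  have h1 := h ![-a, -b, s, t] (by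
    rw [Fin.sum_univ_four]
    change -a • x + -b • y + s • u + t • v = 0
    rw [neg_smul, neg_smul, add_assoc, ← hab]
    abel)
  exact ⟨h1 2, h1 3⟩

omit [CharZero Ω] in
theorem Beta_rank {V : Type*} [AddCommGroup V] [Module Ω V] [FiniteDimensional Ω V]
    (W : Submodule Ω (Ω × V)) (u v : V) (hli : LinearIndependent Ω ![u, v])
    (hu : ((0, u) : Ω × V) ∈ W) (hv : ((0, v) : Ω × V) ∈ W) :
    2 ≤ Module.finrank Ω W ∧ ∀ (c : Ω) (z : V), c ≠ 0 → ((c, z) : Ω × V) ∈ W →
      3 ≤ Module.finrank Ω W := by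
  rw [LinearIndependent.pair_iff] at hli
  constructor
  · have h1 : LinearIndependent Ω ![((0, u) : Ω × V), (0, v)] := by
      rw [LinearIndependent.pair_iff]
      intro s t hst
      have h2 := congrArg Prod.snd hst
      exact hli s t h2
    have h2 := finrank_span_eq_card h1
    rw [Fintype.card_fin] at h2
    refine le_trans (le_of_eq h2.symm) (Submodule.finrank_mono ?_)
    rw [Submodule.span_le]
    rintro _ ⟨i, rfl⟩
    fin_cases i
    · exact hu
    · exact hv
  · intro c z hc hz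
    have h1 : LinearIndependent Ω ![((c, z) : Ω × V), (0, u), (0, v)] := by
      rw [Fintype.linearIndependent_iff]
      intro g hg
      rw [Fin.sum_univ_three] at hg
      have hg' : g 0 • ((c, z) : Ω × V) + g 1 • ((0, u) : Ω × V) + g 2 • ((0, v) : Ω × V) = 0 := hg
      have h3 := congrArg Prod.fst hg'
      simp only [Prod.fst_add, Prod.smul_fst, smul_eq_mul, mul_zero, add_zero, Prod.fst_zero] at h3
      have g0 : g 0 = 0 := (mul_eq_zero.mp h3).resolve_right hc
      have h4 := congrArg Prod.snd hg'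
      simp only [Prod.snd_add, Prod.smul_snd, g0, zero_smul, zero_add, Prod.snd_zero] at h4
      obtain ⟨g1, g2⟩ := hli _ _ h4
      intro i
      fin_cases i
      · exact g0
      · exact g1
      · exact g2
    have h2 := finrank_span_eq_card h1
    rw [Fintype.card_fin] at h2
    refine le_trans (le_of_eq h2.symm) (Submodule.finrank_mono ?_)
    rw [Submodule.span_le]
    rintro _ ⟨i, rfl⟩
    fin_cases i
    · exact hz
    · exact hu
    · exact hv

theorem beta_case (hB : Frame D a B) (hn : n + r = N) (hn5 : 5 ≤ n) (hd : ∀ i, 1 ≤ d i)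
    (hnum : ∑ i, (d i + 1) + 1 = 2 * N) (h : LineW D a B x y w β) (hw : w ≠ 0)
    (w1 : Fin (N + 1) → Ω) (hw1 : ∀ i, Chain_ph x y β (pdF a w1 i) = 0)
    (hli : LinearIndependent Ω ![x, y, w1])
    (hlam : (∃ g ∈ JJ d x y β, dvC D x g ≠ 0) ∨ ExpP D B x y (n - 1)) :
    ∀ j l, pl x y j l ∈ B := by
  obtain ⟨R, κ, hκ, hR, hRb⟩ := rg (q := n - 1) hB (by omega) (by omega) hd hnum h hw
  have hx0 := h.x0
  have hy0 := h.y0
  have hyb := h.yb
  have hpl : pl x y 0 β = 1 := by
    unfold pl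
    rw [hx0, hy0, hyb]
    ring
  obtain ⟨S, hS⟩ : ∃ S : Set (Fin r → MvPolynomial (Fin (N + 1)) Ω),
      S = {g | ∃ (i : Fin r) (K : Multiset (Fin (N + 1)))
      (l : Fin (N + 1)), Multiset.card K + 1 = d i ∧ g = nc x y β i K l} := ⟨_, rfl⟩
  have hJS : JJ d x y β ≤ Submodule.span Ω S := by
    rw [hS]
    exact nice hd hx0 hy0 hyb
  have hSJ : ∀ g ∈ S, g ∈ JJ d x y β := by
    intro g hg
    rw [hS] at hg
    obtain ⟨i, K, l, hK, rfl⟩ := hg
    exact nc_mem hx0 hy0 hyb i K l hK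
  have hspan : Submodule.span Ω S = JJ d x y β :=
    le_antisymm (Submodule.span_le.mpr hSJ) hJS
  -- the motions
  have hβ0 : β ≠ 0 := by
    intro h1
    rw [h1, hy0] at hyb
    exact zero_ne_one hyb
  obtain ⟨f1, f2, ⟨f1h, f1p, f1x⟩, ⟨f2h, f2p, f2x⟩, hli4⟩ :=
    Pool.Agent.Helper50.HS.hess_two (n := n) hB.dual hd hn (by omega) hnum x y w w1 hx0 hy0 β hyb
      (fun i => (Pool.Agent.Helper50.HS.psi_zero_iff x y β hβ0 _).2 (hw1 i)) hli
      (fun g hg1 hg2 => jj_w h g fun i => ⟨hg1 i,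
        (Pool.Agent.Helper50.HS.psi_zero_iff x y β hβ0 _).1 (hg2 i)⟩)
  have hf : ∀ g : Fin r → MvPolynomial (Fin (N + 1)) Ω, (∀ i, (g i).IsHomogeneous (d i)) →
      (∀ i, psi x y β (g i) = 0) → dvC D x g = 0 →
      ((0, Submodule.Quotient.mk (dvC D y g)) :
        Ω × ((Fin (N + 1) → Ω) ⧸ Submodule.span Ω {x, y})) ∈
        (Submodule.span Ω S).map (R.prod (Beta_M D x y)) := by
    intro g h1 h2 h3
    have h4 : g ∈ Submodule.span Ω S := hJS fun i => ⟨h1 i,
      (Pool.Agent.Helper50.HS.psi_zero_iff x y β hβ0 _).1 (h2 i)⟩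
    refine ⟨g, h4, ?_⟩
    have h5 : R g = 0 := by
      rw [hR g 0 (by rw [h3, zero_smul]), zero_mul]
    refine Prod.ext h5 ?_
    change (Submodule.Quotient.mk fun l => Dg D g (y l)) = Submodule.Quotient.mk (dvC D y g)
    congr 1
    funext l
    exact (dvC_Dg g l).symm
  have hdown := Beta_down x y _ _ hli4
  obtain ⟨hrank2, hrank3⟩ := Beta_rank _ _ _ hdown (hf f1 f1h f1p f1x) (hf f2 f2h f2p f2x)
  have hxy : LinearIndependent Ω ![x, y] := by
    rw [LinearIndependent.pair_iff]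
    intro s t hst
    have h1 := congrFun hst 0
    simp only [Pi.add_apply, Pi.smul_apply, smul_eq_mul, hx0, hy0, mul_one, mul_zero, add_zero,
      Pi.zero_apply] at h1
    have h2 := congrFun hst β
    simp only [Pi.add_apply, Pi.smul_apply, smul_eq_mul, h1, hyb, mul_one, zero_mul, zero_add,
      Pi.zero_apply] at h2
    exact ⟨h1, h2⟩
  -- the coefficients
  have hco : ∀ g ∈ S, ∀ m b, x m ≠ 0 → pl x y m b ≠ 0 →
      ∀ i (J : Sym (Fin (N + 1)) (d i)), BdP D B x y m b
        (coeff (Multiset.toFinsupp (J : Multiset (Fin (N + 1)))) (g i) / pl x y m b) := by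
    intro g hg m b hm hP i J
    rw [hS] at hg
    obtain ⟨i', K, l, -, rfl⟩ := hg
    exact nc_coef hx0 hy0 hyb i' K l m b hm hP i J
  have hRb' : ∀ g ∈ S, ∀ m b, x m ≠ 0 → pl x y m b ≠ 0 →
      BdP D B x y m b (R g * pl x y m b ^ (n - 2) / x m) := by
    intro g hg m b hm hP
    rw [hS] at hg
    obtain ⟨i', K, l, hK, rfl⟩ := hg
    have h1 := hRb i' K l hK m b hm hP
    have h2 : n - 1 - 1 = n - 2 := by omega
    rwa [h2] at h1
  have hexp : ∀ z c P X : Ω, P ≠ 0 → z * P ^ (n - 2) / X * (c / P) = z * c * P ^ (n - 3) / X := by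
    intro z c P X hP
    have h1 : n - 2 = n - 3 + 1 := by omega
    rw [h1, pow_succ]
    field_simp
  by_cases hcase : ∃ g0 ∈ S, R g0 ≠ 0
  · obtain ⟨g0, hg0, hne⟩ := hcase
    obtain ⟨g₁, hg₁, g₂, hg₂, hli2⟩ := pick_ne S R (Beta_M D x y)
      (hrank3 (R g0) (Beta_M D x y g0) hne ⟨g0, Submodule.subset_span hg0, rfl⟩) g0 hg0 hne
    obtain ⟨c0, hc0⟩ := jj_w h g0 (hSJ g0 hg0)
    have hR0 := hR g0 c0 hc0
    have hzero : ∀ g ∈ S, dvC D x (R g0 • g - R g • g0) = 0 := by
      intro g hg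
      obtain ⟨c, hc⟩ := jj_w h g (hSJ g hg)
      have hRg := hR g c hc
      rw [map_sub, map_smul, map_smul, hc, hc0, hR0, hRg, smul_smul, smul_smul, ← sub_smul]
      have : c0 * κ * c - c * κ * c0 = 0 := by ring
      rw [this, zero_smul]
    have hbd : ∀ g ∈ S, ∀ m b, x m ≠ 0 → pl x y m b ≠ 0 → ∀ i (J : Sym (Fin (N + 1)) (d i)),
        BdP D B x y m b (coeff (Multiset.toFinsupp (J : Multiset (Fin (N + 1))))
          ((R g0 • g - R g • g0) i) * pl x y m b ^ (n - 3) / x m) := by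
      intro g hg m b hm hP i J
      have h1 := bdp_mul (hRb' g0 hg0 m b hm hP) (hco g hg m b hm hP i J)
      have h2 := bdp_mul (hRb' g hg m b hm hP) (hco g0 hg0 m b hm hP i J)
      rw [hexp _ _ _ _ hP] at h1 h2
      have h3 := bdp_sub h1 h2
      rw [Pi.sub_apply, Pi.smul_apply, Pi.smul_apply, coeff_sub, coeff_smul, coeff_smul,
        smul_eq_mul, smul_eq_mul, sub_mul, sub_div]
      exact h3
    exact four hB hn5 h _ _ (hzero g₁ hg₁) (hzero g₂ hg₂) (hbd g₁ hg₁) (hbd g₂ hg₂)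
      (Beta_lift x y _ _ hxy hli2)
  · push Not at hcase
    have hker : Submodule.span Ω S ≤ LinearMap.ker R := Submodule.span_le.mpr fun g hg => hcase g hg
    have hall : ∀ g ∈ JJ d x y β, dvC D x g = 0 := by
      intro g hg
      obtain ⟨c, hc⟩ := jj_w h g hg
      have h1 : R g = 0 := hker (hJS hg)
      rw [hR g c hc] at h1
      rw [hc, (mul_eq_zero.mp h1).resolve_right hκ, zero_smul]
    rcases hlam with ⟨g, hg, hne⟩ | hE
    · exact absurd (hall g hg) hne
    · obtain ⟨G, hG, hGb⟩ := expP_mono hpl (t' := n - 2) (by omega) hE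
      obtain ⟨g₁, hg₁, g₂, hg₂, hli2⟩ := pick_zero S R (Beta_M D x y) hrank2 hcase
      have hzero : ∀ g ∈ S, dvC D x (G • g) = 0 := by
        intro g hg
        rw [map_smul, hall g (hSJ g hg), smul_zero]
      have hbd : ∀ g ∈ S, ∀ m b, x m ≠ 0 → pl x y m b ≠ 0 → ∀ i (J : Sym (Fin (N + 1)) (d i)),
          BdP D B x y m b (coeff (Multiset.toFinsupp (J : Multiset (Fin (N + 1))))
            ((G • g) i) * pl x y m b ^ (n - 3) / x m) := by
        intro g hg m b hm hP i J
        have h1 := bdp_mul (hGb m b hm hP) (hco g hg m b hm hP i J)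
        rw [hexp _ _ _ _ hP] at h1
        rw [Pi.smul_apply, coeff_smul, smul_eq_mul]
        exact h1
      refine four hB hn5 h _ _ (hzero g₁ hg₁) (hzero g₂ hg₂) (hbd g₁ hg₁) (hbd g₂ hg₂)
        (Beta_lift x y _ _ hxy ?_)
      have h1 := Beta_smul G hG _ _ hli2
      rw [← map_smul, ← map_smul] at h1
      exact h1

end

end Pool.Agent.Helper10.CK
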