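import Pool.Agent.Helper10.CI.Chain
import Pool.Agent.Helper10.CI.Bd

/-!
# CK: generic complete intersections with `sum (d_i + 1) = 2 N - 1`, `n = N - r ≥ 5` (note 3342)

`Dg g = ∑ g_(i,J) D_(i,J)`; `Chain_ph x y β` is the restriction `X_l ↦ x_l X_0 + y_l X_β` to the line
through `x` and `y`; `pl x y j l = x_j y_l - x_l y_j`. `BdP .. m b z`: `z` is bounded (up to powers of
`Δ`) at the valuation rings where `x_m` is a maximal coordinate of `x` and `pl x y m b` is a maximal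
Pluecker coordinate. `WtP .. m b c v`: there `v / c` is bounded modulo `x`. `LineW`: the line and the
vector `w`: the derivatives `D_g x` of the point in the directions `g` which vanish on the line are
multiples of `w`.
-/

set_option autoImplicit false

namespace Pool.Agent.Helper10.CK

open scoped BigOperators
open MvPolynomial Pool.Agent.Helper10.CI
open Pool.Agent.Helper8.LG (Bdd form mon Ix)
open Pool.Agent.Helper49.LN (cP mo hf pl)
open Pool.Agent.Helper6.QS (dv ev lf dt Par RatP)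

section

variable {Ω : Type*} [Field Ω] {N r : ℕ} {d : Fin r → ℕ}

/-- the derivation in the direction of the tuple `g` -/
noncomputable def Dg (D : Ix (Fin (N + 1)) d → Derivation ℤ Ω Ω) :
    (Fin r → MvPolynomial (Fin (N + 1)) Ω) →ₗ[Ω] Derivation ℤ Ω Ω :=
  ∑ i, (cP fun J : Sym (Fin (N + 1)) (d i) => D ⟨i, J⟩).comp (LinearMap.proj i)

/-- bounded at the places where `x_m` and `pl x y m b` are maximal -/
def BdP (D : Ix (Fin (N + 1)) d → Derivation ℤ Ω Ω) (B : Subfield Ω) (x y : Fin (N + 1) → Ω)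
    (m b : Fin (N + 1)) (z : Ω) : Prop :=
  ∃ (s : Finset Ω) (M : ℕ), (∀ c ∈ s, c ∈ B) ∧
    ∀ (O : ValuationSubring Ω) (Δ : Ω), Bdd D Δ O → (∀ c ∈ s, Δ * c ∈ O) →
      x m ≠ 0 → (∀ l, x l / x m ∈ O) → pl x y m b ≠ 0 →
      (∀ j l, pl x y j l / pl x y m b ∈ O) → Δ ^ M * z ∈ O

/-- `v / c` is bounded modulo `x` at these places -/
def WtP (D : Ix (Fin (N + 1)) d → Derivation ℤ Ω Ω) (B : Subfield Ω) (x y : Fin (N + 1) → Ω)
    (m b : Fin (N + 1)) (c : Ω) (v : Fin (N + 1) → Ω) : Prop :=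
  ∃ (s : Finset Ω) (M : ℕ), (∀ c ∈ s, c ∈ B) ∧
    ∀ (O : ValuationSubring Ω) (Δ : Ω), Bdd D Δ O → (∀ c ∈ s, Δ * c ∈ O) →
      x m ≠ 0 → (∀ l, x l / x m ∈ O) → pl x y m b ≠ 0 →
      (∀ j l, pl x y j l / pl x y m b ∈ O) →
      ∃ (μ : Ω) (v' : Fin (N + 1) → Ω), v = c • v' + μ • x ∧ ∀ l, Δ ^ M * v' l ∈ O

/-- the line through `x` and `y`, the vector `w` -/
structure LineW (D : Ix (Fin (N + 1)) d → Derivation ℤ Ω Ω) (a : Ix (Fin (N + 1)) d → Ω)
    (B : Subfield Ω) (x y w : Fin (N + 1) → Ω) (β : Fin (N + 1)) : Prop where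
  x0 : x 0 = 1
  F0 : ∀ i, form (fun J => a ⟨i, J⟩) x = 0
  y0 : y 0 = 0
  yb : y β = 1
  w0 : w 0 = 0
  wT : w ∈ TT a x
  H : ∀ (l : Fin (N + 1)) (P : Fin r → MvPolynomial (Fin (N + 1)) Ω),
    Sv D x P l - y l • Sv D x P β ∈ Submodule.span Ω {x, w}
  E : ∀ u ζ : Fin (N + 1) → Ω,
    dvC D x (fun i => lf ζ * pdF a u i) + dt ζ x • u ∈ Submodule.span Ω {x, w}
  on : TT a x ≤ Submodule.span Ω (insert x (SS D B x))

/-- the tuples of forms of degrees `d i` which vanish on the line -/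
noncomputable def JJ (d : Fin r → ℕ) (x y : Fin (N + 1) → Ω) (β : Fin (N + 1)) :
    Submodule Ω (Fin r → MvPolynomial (Fin (N + 1)) Ω) where
  carrier := {g | ∀ i, (g i).IsHomogeneous (d i) ∧ Chain_ph x y β (g i) = 0}
  zero_mem' := fun i => ⟨isHomogeneous_zero _ _ _, by simp⟩
  add_mem' := fun {f g} hf hg i => ⟨(hf i).1.add (hg i).1, by
    rw [Pi.add_apply, map_add, (hf i).2, (hg i).2, add_zero]⟩
  smul_mem' := fun c g hg i => ⟨by
    rw [Pi.smul_apply, smul_eq_C_mul]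
    simpa using (isHomogeneous_C (Fin (N + 1)) c).mul (hg i).1, by
    rw [Pi.smul_apply, map_smul, (hg i).2, smul_zero]⟩

/-- the spanning elements `X^K (r_l - y_l r_β) e_i` of `JJ` -/
noncomputable def nc (x y : Fin (N + 1) → Ω) (β : Fin (N + 1)) (i : Fin r)
    (K : Multiset (Fin (N + 1))) (l : Fin (N + 1)) : Fin r → MvPolynomial (Fin (N + 1)) Ω :=
  sg i (mo Ω K * (rl x l - y l • rl x β))

end

end Pool.Agent.Helper10.CK
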