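import Pool.Agent.Helper10.CK.PBd
import Pool.Agent.Helper10.CI.Ev

/-!
# CK-DGB: the derivation `D_g`

`cP_apply`, `dvC_apply`. `dg_bd`: `z = pl j l / pl m b` is in `O`, so `Δ D_J z ∈ O`, and `D_g z / c` is the sum of
the `(coeff g_J / c) D_J z`; unite the finite sets.
-/

set_option autoImplicit false

namespace Pool.Agent.Helper10.CK

open scoped BigOperators
open MvPolynomial Pool.Agent.Helper10.CI
open Pool.Agent.Helper8.LG (Bdd form mon Ix)
open Pool.Agent.Helper49.LN (cP mo hf pl)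
open Pool.Agent.Helper6.QS (dv ev lf dt Par RatP)

section

variable {Ω : Type*} [Field Ω] [CharZero Ω] {N r n q : ℕ} {d : Fin r → ℕ}
  {D : Ix (Fin (N + 1)) d → Derivation ℤ Ω Ω} {a : Ix (Fin (N + 1)) d → Ω} {B : Subfield Ω}
  {x y w : Fin (N + 1) → Ω} {β : Fin (N + 1)}

theorem Dg_apply (g : Fin r → MvPolynomial (Fin (N + 1)) Ω) (z : Ω) :
    Dg D g z = ∑ i, ∑ J : Sym (Fin (N + 1)) (d i),
      coeff (Multiset.toFinsupp (J : Multiset (Fin (N + 1)))) (g i) * D ⟨i, J⟩ z := by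
  let φ : Derivation ℤ Ω Ω →+ Ω := AddMonoidHom.mk' (fun E => E z) (fun _ _ => rfl)
  have h : Dg D g = ∑ i, ∑ J : Sym (Fin (N + 1)) (d i),
      coeff (Multiset.toFinsupp (J : Multiset (Fin (N + 1)))) (g i) • D ⟨i, J⟩ := by
    unfold Dg
    rw [LinearMap.sum_apply]
    refine Finset.sum_congr rfl fun i _ => ?_
    exact Pool.Agent.Helper49.LN.cP_apply _ _
  change φ (Dg D g) = _
  rw [h, map_sum]
  refine Finset.sum_congr rfl fun i _ => ?_
  rw [map_sum]
  exact Finset.sum_congr rfl fun J _ => rfl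

theorem dvC_Dg (g : Fin r → MvPolynomial (Fin (N + 1)) Ω) (l : Fin (N + 1)) :
    dvC D x g l = Dg D g (x l) := by
  rw [dvC_apply, Finset.sum_apply, Dg_apply]
  refine Finset.sum_congr rfl fun i _ => ?_
  rw [dv, Pool.Agent.Helper49.LN.cP_apply, Finset.sum_apply]
  exact Finset.sum_congr rfl fun J _ => rfl

theorem Dg_a (hD : ∀ s t : Ix (Fin (N + 1)) d, D t (a s) = if s = t then 1 else 0)
    (g : Fin r → MvPolynomial (Fin (N + 1)) Ω) (i : Fin r) (J : Sym (Fin (N + 1)) (d i)) :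
    Dg D g (a ⟨i, J⟩) = coeff (Multiset.toFinsupp (J : Multiset (Fin (N + 1)))) (g i) := by
  rw [Dg_apply, Finset.sum_eq_single i]
  · rw [Finset.sum_eq_single J]
    · rw [hD, if_pos rfl, mul_one]
    · intro J' _ hJ
      rw [hD, if_neg, mul_zero]
      intro h
      exact hJ (by simpa using h.symm)
    · intro h
      exact absurd (Finset.mem_univ J) h
  · intro i' _ hi
    refine Finset.sum_eq_zero fun J' _ => ?_
    rw [hD, if_neg, mul_zero]
    intro h
    exact hi (congrArg Sigma.fst h).symm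
  · intro h
    exact absurd (Finset.mem_univ i) h

theorem DgB_D {m b : Fin (N + 1)} (s : Ix (Fin (N + 1)) d) (j l : Fin (N + 1)) :
    BdP D B x y m b (D s (pl x y j l / pl x y m b)) := by
  refine ⟨∅, 1, by simp, fun O Δ hΔ _ _ _ _ hmax => ?_⟩
  rw [pow_one]
  exact hΔ.2 s _ (hmax j l)

theorem dg_bd {m b : Fin (N + 1)} (c : Ω) (hc : c ≠ 0)
    (g : Fin r → MvPolynomial (Fin (N + 1)) Ω)
    (hg : ∀ i (J : Sym (Fin (N + 1)) (d i)), BdP D B x y m b
      (coeff (Multiset.toFinsupp (J : Multiset (Fin (N + 1)))) (g i) / c)) (j l : Fin (N + 1)) :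
    BdP D B x y m b (Dg D g (pl x y j l / pl x y m b) / c) := by
  have h : Dg D g (pl x y j l / pl x y m b) / c = ∑ i, ∑ J : Sym (Fin (N + 1)) (d i),
      coeff (Multiset.toFinsupp (J : Multiset (Fin (N + 1)))) (g i) / c *
        D ⟨i, J⟩ (pl x y j l / pl x y m b) := by
    rw [Dg_apply, Finset.sum_div]
    refine Finset.sum_congr rfl fun i _ => ?_
    rw [Finset.sum_div]
    refine Finset.sum_congr rfl fun J _ => ?_
    ring
  rw [h]
  exact bdp_sum _ _ fun i _ => bdp_sum _ _ fun J _ => bdp_mul (hg i J) (DgB_D _ j l)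

end

end Pool.Agent.Helper10.CK
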