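import Pool.Agent.Helper10.CK.Defs
import Pool.Agent.Helper64.CJ.Pl

/-!
# CK-EQVA: case A: equivariance modulo `w`

`w1a`: if not, `x, w, v` are independent and can be completed by `n - 2 ≥ 1` singles (`tan_ext`, `S = SS`): total
`1 + 1 + 2 (n - 2) = 2 n - 2`, with a single: `pl_one2`. `eqv_a`: as `Eqv_base`, `eqv` in `Helper10/CI/Eqv.lean`: the
vector `D_(X_j ∂_i F) x + x_j e_i` is tangent of weight 1, so in `span {x, w}`; linearity in `u` and `ζ`.
-/

set_option autoImplicit false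

namespace Pool.Agent.Helper10.CK

open scoped BigOperators
open MvPolynomial Pool.Agent.Helper10.CI
open Pool.Agent.Helper8.LG (Bdd form mon Ix)
open Pool.Agent.Helper49.LN (cP mo hf pl)
open Pool.Agent.Helper6.QS (dv ev lf dt Par RatP)

section

variable {Ω : Type*} [Field Ω] [CharZero Ω] {N r n q : ℕ} {d : Fin r → ℕ}
  {D : Ix (Fin (N + 1)) d → Derivation ℤ Ω Ω} {a : Ix (Fin (N + 1)) d → Ω} {B : Subfield Ω}
  {x y w : Fin (N + 1) → Ω} {β : Fin (N + 1)}

theorem w1a (hB : Frame D a B) (hn : n + r = N) (hn3 : 3 ≤ n) (hd : ∀ i, 1 ≤ d i)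
    (hnum : ∑ i, (d i + 1) + 1 = 2 * N) (x : Fin (N + 1) → Ω) (hx : x 0 = 1)
    (hF : ∀ i, form (fun J => a ⟨i, J⟩) x = 0)
    (ho : TT a x ≤ Submodule.span Ω (insert x (SS D B x)))
    (w : Fin (N + 1) → Ω) (hw : w ∈ TT a x) (hw1 : Wt D B x 1 w)
    (hli : LinearIndependent Ω (Fin.cons x ![w] : Fin (1 + 1) → Fin (N + 1) → Ω))
    (v : Fin (N + 1) → Ω) (hv : v ∈ TT a x) (hv1 : Wt D B x 1 v) :
    v ∈ Submodule.span Ω {x, w} ∨ ∀ l, x l ∈ B := by
  by_cases h : v ∈ Submodule.span Ω {x, w}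
  · exact Or.inl h
  right
  obtain ⟨m, rfl⟩ : ∃ m, n = m + 3 := ⟨n - 3, by omega⟩
  have hST : SS D B x ⊆ TT a x := by
    rintro _ ⟨l, P, -, rfl⟩
    exact sv_TT hB.dual x hx hF hd P l
  have hli2 : LinearIndependent Ω (Fin.cons x ![w, v] : Fin (2 + 1) → Fin (N + 1) → Ω) := by
    have h1 : (Fin.cons x ![w, v] : Fin (2 + 1) → Fin (N + 1) → Ω) =
        (Fin.snoc (Fin.cons x ![w] : Fin (1 + 1) → Fin (N + 1) → Ω) v :
          Fin (2 + 1) → Fin (N + 1) → Ω) := by
      funext i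
      fin_cases i <;> rfl
    rw [h1]
    refine linearIndependent_finSnoc.2 ⟨hli, ?_⟩
    have h2 : Set.range (Fin.cons x ![w] : Fin (1 + 1) → Fin (N + 1) → Ω) = {x, w} := by
      rw [Fin.range_cons, Matrix.range_cons, Matrix.range_empty, Set.union_empty]
    rw [h2]
    exact h
  obtain ⟨s, hs, hl⟩ := tan_ext (p := 2) (q := m + 1) hB.dual (by omega) x hx hF (SS D B x) hST ho
    ![w, v] (fun j => by
      fin_cases j
      · exact hw
      · exact hv) hli2
  have hsn : s = Fin.snoc (Fin.init s) (s (Fin.last m)) := (Fin.snoc_init_self s).symm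
  have hl2 : LinearIndependent Ω (Fin.cons x (Fin.snoc
      (Fin.append ![w, v] (Fin.init s) : Fin (2 + m) → Fin (N + 1) → Ω)
        (s (Fin.last m))) : Fin (2 + m + 1 + 1) → Fin (N + 1) → Ω) := by
    rw [hsn, Fin.append_snoc] at hl
    simpa using hl
  have hd2 : ∑ i, d i + r + 1 = 2 * N := by
    rw [← hnum, Finset.sum_add_distrib]
    simp
  refine Pool.Agent.Helper64.CJ.pl_one2 hB (by omega) hd hnum x hx hF
    (Fin.append ![w, v] (Fin.init s)) (Fin.append (fun _ : Fin 2 => 1) (fun _ => 2))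
    ?_ ?_ ?_ (s (Fin.last m)) (hs _) hl2
  · intro j
    refine Fin.addCases (fun i => ?_) (fun i => ?_) j
    · rw [Fin.append_left]
      fin_cases i
      · exact hw
      · exact hv
    · rw [Fin.append_right]
      exact hST (hs _)
  · intro j
    refine Fin.addCases (fun i => ?_) (fun i => ?_) j
    · rw [Fin.append_left, Fin.append_left]
      fin_cases i
      · exact hw1
      · exact hv1
    · rw [Fin.append_right, Fin.append_right]
      exact ss_wt x hx _ (hs _)
  · rw [Fin.sum_univ_add]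
    simp only [Fin.append_left, Fin.append_right, Finset.sum_const, Finset.card_univ,
      Fintype.card_fin, smul_eq_mul]
    omega

omit [CharZero Ω] in
private theorem EqvA_coeff (hB : Frame D a B) (i : Fin r) (m : Fin (N + 1) →₀ ℕ) :
    coeff m (Fp a i) ∈ B := by
  rw [Fp, coeff_sum]
  refine sum_mem fun J _ => ?_
  rw [coeff_smul, smul_eq_mul, Pool.Agent.Helper49.LN.mo_eq, coeff_monomial]
  split_ifs
  · rw [mul_one]
    exact hB.mem _
  · rw [mul_zero]
    exact B.zero_mem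

omit [CharZero Ω] in
private theorem EqvA_dt_add (n u v : Fin (N + 1) → Ω) : dt n (u + v) = dt n u + dt n v := by
  simp only [dt, Pi.add_apply, mul_add, Finset.sum_add_distrib]

omit [CharZero Ω] in
private theorem EqvA_dt_single (n : Fin (N + 1) → Ω) (c : Ω) (j : Fin (N + 1)) :
    dt n (c • (Pi.single j 1 : Fin (N + 1) → Ω)) = n j * c := by
  rw [dt, Finset.sum_eq_single j]
  · rw [Pi.smul_apply, Pi.single_eq_same, smul_eq_mul, mul_one]
  · intro k _ hk
    rw [Pi.smul_apply, Pi.single_eq_of_ne hk, smul_zero, mul_zero]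
  · intro h
    exact absurd (Finset.mem_univ j) h

omit [CharZero Ω] in
private theorem EqvA_base (hB : Frame D a B) (hd : ∀ i, 1 ≤ d i) (x : Fin (N + 1) → Ω)
    (hF : ∀ i, form (fun J => a ⟨i, J⟩) x = 0) (w : Fin (N + 1) → Ω)
    (hw1 : ∀ v ∈ TT a x, Wt D B x 1 v → v ∈ Submodule.span Ω {x, w}) (j l : Fin (N + 1)) :
    dvC D x (fun i => X l * pderiv j (Fp a i)) + x l • (Pi.single j 1 : Fin (N + 1) → Ω) ∈
      Submodule.span Ω {x, w} := by
  refine hw1 _ (fun i => ?_) (wt_add x 1 _ _ (wt_rat x _ ?_) (wt_xe x j l))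
  · rw [EqvA_dt_add, EqvA_dt_single, nu_dvC hB.dual x hF]
    have h2 : (X l * pderiv j (Fp a i)).IsHomogeneous (d i) := by
      have h3 := (isHomogeneous_X Ω l).mul ((Fp_hom a i).pderiv (i := j))
      have h4 : 1 + (d i - 1) = d i := by
        have := hd i
        omega
      rw [h4] at h3
      exact h3
    rw [Pool.Agent.Helper6.QS.ev_hom _ _ _ h2, map_mul, eval_X]
    simp only [nu]
    ring
  · intro i m
    rw [coeff_X_mul']
    split_ifs
    · rw [coeff_pderiv]
      refine B.mul_mem (EqvA_coeff hB i _) ?_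
      exact B.add_mem (natCast_mem B _) B.one_mem
    · exact B.zero_mem

theorem eqv_a (hB : Frame D a B) (hd : ∀ i, 1 ≤ d i) (x : Fin (N + 1) → Ω) (hx : x 0 = 1)
    (hF : ∀ i, form (fun J => a ⟨i, J⟩) x = 0) (w : Fin (N + 1) → Ω)
    (hw1 : ∀ v ∈ TT a x, Wt D B x 1 v → v ∈ Submodule.span Ω {x, w}) (u ζ : Fin (N + 1) → Ω) :
    dvC D x (fun i => lf ζ * pdF a u i) + dt ζ x • u ∈ Submodule.span Ω {x, w} := by
  have h1 : (fun i => lf ζ * pdF a u i) = ∑ l, ∑ j, (ζ l * u j) •
      (fun i : Fin r => (X l * pderiv j (Fp a i) : MvPolynomial (Fin (N + 1)) Ω)) := by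
    funext i
    rw [lf, pdF, Finset.sum_mul_sum, Finset.sum_apply]
    refine Finset.sum_congr rfl fun l _ => ?_
    rw [Finset.sum_apply]
    refine Finset.sum_congr rfl fun j _ => ?_
    rw [Pi.smul_apply, smul_mul_smul_comm]
  have h2 : u = ∑ j, u j • (Pi.single j 1 : Fin (N + 1) → Ω) := by
    funext k
    rw [Finset.sum_apply, Finset.sum_eq_single k]
    · rw [Pi.smul_apply, Pi.single_eq_same, smul_eq_mul, mul_one]
    · intro j _ hj
      rw [Pi.smul_apply, Pi.single_eq_of_ne (Ne.symm hj), smul_zero]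
    · intro h
      exact absurd (Finset.mem_univ k) h
  have h3 : dt ζ x • u = ∑ l, ∑ j, (ζ l * u j) •
      (x l • (Pi.single j 1 : Fin (N + 1) → Ω)) := by
    conv_lhs => rw [h2]
    rw [dt, Finset.sum_smul]
    refine Finset.sum_congr rfl fun l _ => ?_
    rw [Finset.smul_sum]
    refine Finset.sum_congr rfl fun j _ => ?_
    rw [smul_smul, smul_smul]
    congr 1
    ring
  rw [h1, map_sum, h3, ← Finset.sum_add_distrib]
  refine Submodule.sum_mem _ fun l _ => ?_
  rw [map_sum, ← Finset.sum_add_distrib]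
  refine Submodule.sum_mem _ fun j _ => ?_
  rw [map_smul, ← smul_add]
  exact Submodule.smul_mem _ _ (EqvA_base hB hd x hF w hw1 j l)

end

end Pool.Agent.Helper10.CK
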