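import Pool.Agent.Helper10.CK.PsiJ
import Pool.Agent.Helper10.CI.DimArg

/-!
# CK-KDDIM: the kernel of `u ↦ (∂_u F_i | l)` has dimension one, `w ≠ 0`

Step (5) of note 3342. `θ` the quotient map modulo `span {x, w}`, `Φ (A) = θ (Sv A β)`: by `on`, `sv_TT` and `H` its
range on tuples is `T / span {x, w}`, of dimension `n + 1 - dim span {x, w}` (`finrank_TT`). By `sv_ph` it factors
through `A ↦ (Chain_ph A_i)_i` and only the parts of degree `d_i - 1` matter (`t_hom`; the space of their images has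
dimension `≤ ∑ d_i`, compare `exists_w`, `DimArg_W` in `Helper10/CI/DimArg.lean`), and it kills `pdF a u` (`E` with
`ζ = r_β`-coefficients, `dt ζ x = 0`, as `ker_t`). So the image of `u ↦ (Chain_ph (pdF a u i))_i` has
dimension `≤ ∑ d_i - (n + 1 - dim span {x, w})`, `∑ d_i = 2 n + r - 1`, its kernel `≥ N + 1 - that`: `≥ 2` if `w = 0`
(then `span {x, w}` has dimension 1, contradiction to `kd_sub`), `≥ 1` if `w ≠ 0`.
-/

set_option autoImplicit false

namespace Pool.Agent.Helper10.CK

open scoped BigOperators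
open MvPolynomial Pool.Agent.Helper10.CI
open Pool.Agent.Helper8.LG (Bdd form mon Ix)
open Pool.Agent.Helper49.LN (cP mo hf pl)
open Pool.Agent.Helper6.QS (dv ev lf dt Par RatP)

section

variable {Ω : Type*} [Field Ω] [CharZero Ω] {N r n q : ℕ} {d : Fin r → ℕ}
  {D : Ix (Fin (N + 1)) d → Derivation ℤ Ω Ω} {a : Ix (Fin (N + 1)) d → Ω} {B : Subfield Ω}
  {x y w : Fin (N + 1) → Ω} {β : Fin (N + 1)}

omit [CharZero Ω] in
theorem KdDim_rl_hom (x : Fin (N + 1) → Ω) (β : Fin (N + 1)) : (rl x β).IsHomogeneous 1 := by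
  unfold rl
  refine (isHomogeneous_X Ω β).sub ?_
  rw [smul_eq_C_mul]
  simpa using (isHomogeneous_C (Fin (N + 1)) (x β)).mul (isHomogeneous_X Ω 0)

omit [CharZero Ω] in
/-- only the parts of degree `d i - 1` matter -/
theorem KdDim_sv_hom (hd : ∀ i, 1 ≤ d i) (x : Fin (N + 1) → Ω) (β : Fin (N + 1))
    (P : Fin r → MvPolynomial (Fin (N + 1)) Ω) :
    Sv D x P β = Sv D x (fun i => homogeneousComponent (d i - 1) (P i)) β := by
  unfold Sv
  rw [dvC_apply, dvC_apply]
  refine Finset.sum_congr rfl fun i _ => ?_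
  rw [mul_comm, mul_comm (rl x β)]
  exact Pool.Agent.Helper6.QS.dv_part _ x (d i - 1) 1 (by have := hd i; omega) (P i) _
    (KdDim_rl_hom x β)

/-- `A ↦ Sv A β` modulo `x, w` -/
noncomputable def KdDim_F (D : Ix (Fin (N + 1)) d → Derivation ℤ Ω Ω) (x w : Fin (N + 1) → Ω)
    (β : Fin (N + 1)) : (Fin r → MvPolynomial (Fin (N + 1)) Ω) →ₗ[Ω]
      ((Fin (N + 1) → Ω) ⧸ Submodule.span Ω {x, w}) where
  toFun A := (Submodule.span Ω {x, w}).mkQ (Sv D x A β)
  map_add' A A' := by
    have h1 : (fun i => rl x β * (A + A') i) = (fun i => rl x β * A i) + fun i => rl x β * A' i := by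
      funext i
      rw [Pi.add_apply, Pi.add_apply, mul_add]
    unfold Sv
    rw [h1, map_add, map_add]
  map_smul' c A := by
    have h1 : (fun i => rl x β * (c • A) i) = c • fun i => rl x β * A i := by
      funext i
      rw [Pi.smul_apply, Pi.smul_apply, mul_smul_comm]
    unfold Sv
    rw [h1, map_smul, map_smul, RingHom.id_apply]

omit [CharZero Ω] in
theorem KdDim_F_apply (x w : Fin (N + 1) → Ω) (β : Fin (N + 1))
    (A : Fin r → MvPolynomial (Fin (N + 1)) Ω) :
    KdDim_F D x w β A = (Submodule.span Ω {x, w}).mkQ (Sv D x A β) := rfl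

omit [CharZero Ω] in
theorem KdDim_F_zero (x w : Fin (N + 1) → Ω) (β : Fin (N + 1))
    (A : Fin r → MvPolynomial (Fin (N + 1)) Ω) :
    KdDim_F D x w β A = 0 ↔ Sv D x A β ∈ Submodule.span Ω {x, w} := by
  rw [KdDim_F_apply, Submodule.mkQ_apply, Submodule.Quotient.mk_eq_zero]

theorem KdDim_psi_ph (hy : y 0 = 0) (hβ : y β = 1) (f : MvPolynomial (Fin (N + 1)) Ω)
    (hf : psi x y β f = 0) : Chain_ph x y β f = 0 := by
  have hβ0 : β ≠ 0 := by
    rintro rfl
    rw [hy] at hβ
    exact zero_ne_one hβ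
  rw [← Chain_th_psi x y β hβ0, hf, map_zero]

omit [CharZero Ω] in
theorem KdDim_psi_psi (hx : x 0 = 1) (hy : y 0 = 0) (hβ : y β = 1)
    (f : MvPolynomial (Fin (N + 1)) Ω) : psi x y β (psi x y β f) = psi x y β f := by
  have h : (psi x y β).comp (psi x y β) = psi x y β := by
    refine MvPolynomial.algHom_ext fun l => ?_
    rw [AlgHom.comp_apply, Psi_X, map_add, map_smul, map_smul, psi_X0 x y hx hy,
      psi_rl x y hx hy β hβ]
  exact DFunLike.congr_fun h f

theorem KdDim_F_psi (h : LineW D a B x y w β) (A : Fin r → MvPolynomial (Fin (N + 1)) Ω) :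
    KdDim_F D x w β A = KdDim_F D x w β (fun i => psi x y β (A i)) := by
  rw [← sub_eq_zero, ← map_sub, KdDim_F_zero]
  refine sv_ph h _ fun i => KdDim_psi_ph h.y0 h.yb _ ?_
  rw [Pi.sub_apply, map_sub, KdDim_psi_psi h.x0 h.y0 h.yb, sub_self]

omit [CharZero Ω] in
theorem KdDim_pdF_add (a : Ix (Fin (N + 1)) d → Ω) (u v : Fin (N + 1) → Ω) (i : Fin r) :
    pdF a (u + v) i = pdF a u i + pdF a v i := by
  unfold pdF
  rw [← Finset.sum_add_distrib]
  exact Finset.sum_congr rfl fun k _ => by rw [Pi.add_apply, add_smul]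

omit [CharZero Ω] in
theorem KdDim_pdF_smul (a : Ix (Fin (N + 1)) d → Ω) (c : Ω) (u : Fin (N + 1) → Ω) (i : Fin r) :
    pdF a (c • u) i = c • pdF a u i := by
  unfold pdF
  rw [Finset.smul_sum]
  exact Finset.sum_congr rfl fun k _ => by rw [Pi.smul_apply, smul_eq_mul, mul_smul]

omit [CharZero Ω] in
/-- the vectors `(∂_u F_i)` are killed -/
theorem KdDim_F_pdF (h : LineW D a B x y w β) (u : Fin (N + 1) → Ω) :
    KdDim_F D x w β (pdF a u) = 0 := by
  rw [KdDim_F_zero]
  have h1 := h.E u (Pi.single β 1 + Pi.single 0 (-(x β)))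
  have h2 : lf (Pi.single β 1 + Pi.single 0 (-(x β)) : Fin (N + 1) → Ω) = rl x β := by
    rw [DimArg_lf_add, DimArg_lf_single, DimArg_lf_single, one_smul, neg_smul, rl, sub_eq_add_neg]
  have h3 : dt (Pi.single β 1 + Pi.single 0 (-(x β)) : Fin (N + 1) → Ω) x = 0 := by
    rw [DimArg_dt_add, DimArg_dt_single, DimArg_dt_single, h.x0]
    ring
  rw [h2, h3, zero_smul, add_zero] at h1
  exact h1

/-- the map `u ↦ (∂_u F_i | l)_i` -/
noncomputable def KdDim_L (hd : ∀ i, 1 ≤ d i) (a : Ix (Fin (N + 1)) d → Ω) (x y : Fin (N + 1) → Ω)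
    (β : Fin (N + 1)) : (Fin (N + 1) → Ω) →ₗ[Ω] DimArg_W d x β where
  toFun u := ⟨fun i => psi x y β (pdF a u i),
    DimArg_tuple_mem hd x β _ fun i => DimArg_psi_mem x y β _ _ (pdF_hom a u i)⟩
  map_add' u v := by
    apply Subtype.ext
    funext i
    show psi x y β (pdF a (u + v) i) = psi x y β (pdF a u i) + psi x y β (pdF a v i)
    rw [KdDim_pdF_add, map_add]
  map_smul' c u := by
    apply Subtype.ext
    funext i
    show psi x y β (pdF a (c • u) i) = c • psi x y β (pdF a u i)
    rw [KdDim_pdF_smul, map_smul]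

omit [CharZero Ω] in
/-- the dimension of the image of the tangent space modulo `x, w` -/
theorem KdDim_quot (T W : Submodule Ω (Fin (N + 1) → Ω)) :
    Module.finrank Ω T ≤ Module.finrank Ω (T.map W.mkQ) + Module.finrank Ω W := by
  have h1 := LinearMap.finrank_range_add_finrank_ker (W.mkQ.domRestrict T)
  have h2 : LinearMap.range (W.mkQ.domRestrict T) = T.map W.mkQ := LinearMap.range_domRestrict T W.mkQ
  have h3 : Module.finrank Ω (LinearMap.ker (W.mkQ.domRestrict T)) ≤ Module.finrank Ω W := by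
    let f : LinearMap.ker (W.mkQ.domRestrict T) →ₗ[Ω] W :=
      { toFun := fun v => ⟨v.1.1, by
          have h4 := v.2
          rw [LinearMap.mem_ker, LinearMap.domRestrict_apply, Submodule.mkQ_apply,
            Submodule.Quotient.mk_eq_zero] at h4
          exact h4⟩
        map_add' := fun u v => rfl
        map_smul' := fun c v => rfl }
    refine LinearMap.finrank_le_finrank_of_injective (f := f) ?_
    intro u v huv
    have h5 : ((f u : W) : Fin (N + 1) → Ω) = (f v : W) := by rw [huv]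
    apply Subtype.ext
    apply Subtype.ext
    exact h5
  rw [h2] at h1
  omega

/-- the dimension count -/
theorem KdDim_count (hD : ∀ s t : Ix (Fin (N + 1)) d, D t (a s) = if s = t then 1 else 0)
    (hn : n + r = N) (hd : ∀ i, 1 ≤ d i) (hnum : ∑ i, (d i + 1) + 1 = 2 * N)
    (h : LineW D a B x y w β) :
    3 ≤ Module.finrank Ω (LinearMap.ker (KdDim_L hd a x y β)) +
      Module.finrank Ω (Submodule.span Ω {x, w}) := by
  classical
  have hWle : Module.finrank Ω (DimArg_W d x β) ≤ ∑ i, d i := by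
    have h1 : (Set.range (DimArg_b d x β)).finrank Ω ≤
        Fintype.card (Σ i : Fin r, Fin (d i)) := finrank_range_le_card _
    rw [Fintype.card_sigma] at h1
    simp only [Fintype.card_fin] at h1
    exact h1
  have : FiniteDimensional Ω (DimArg_W d x β) :=
    FiniteDimensional.span_of_finite Ω (Set.finite_range _)
  have hsum : (∑ i, d i) + r + 1 = 2 * N := by
    rw [← hnum, Finset.sum_add_distrib]
    simp
  obtain ⟨tW, htW⟩ : ∃ tW : DimArg_W d x β →ₗ[Ω] ((Fin (N + 1) → Ω) ⧸ Submodule.span Ω {x, w}),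
      tW = (KdDim_F D x w β).domRestrict (DimArg_W d x β) := ⟨_, rfl⟩
  have hF : ∀ P, KdDim_F D x w β P ∈ LinearMap.range tW := by
    intro P
    have h1 : KdDim_F D x w β P = KdDim_F D x w β (fun i => homogeneousComponent (d i - 1) (P i)) := by
      rw [KdDim_F_apply, KdDim_F_apply, KdDim_sv_hom hd x β P]
    rw [h1, KdDim_F_psi h, htW]
    exact ⟨⟨_, DimArg_tuple_mem hd x β (fun i =>
      psi x y β (homogeneousComponent (d i - 1) (P i))) fun i =>
        DimArg_psi_mem x y β _ _ (homogeneousComponent_isHomogeneous _ _)⟩, rfl⟩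
  have hrange : (TT a x).map (Submodule.span Ω {x, w}).mkQ ≤ LinearMap.range tW := by
    rw [Submodule.map_le_iff_le_comap]
    refine h.on.trans ?_
    rw [Submodule.span_le]
    rintro v (hv | ⟨l, P, hP, rfl⟩)
    · rw [SetLike.mem_coe, Submodule.mem_comap, hv]
      have h1 : (Submodule.span Ω {x, w}).mkQ x = 0 := by
        rw [Submodule.mkQ_apply, Submodule.Quotient.mk_eq_zero]
        exact Submodule.subset_span (Set.mem_insert _ _)
      rw [h1]
      exact Submodule.zero_mem _
    · rw [SetLike.mem_coe, Submodule.mem_comap]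
      have h1 : (Submodule.span Ω {x, w}).mkQ (Sv D x P l) =
          y l • (Submodule.span Ω {x, w}).mkQ (Sv D x P β) := by
        rw [← map_smul, ← sub_eq_zero, ← map_sub, Submodule.mkQ_apply,
          Submodule.Quotient.mk_eq_zero]
        exact h.H l P
      rw [h1, ← KdDim_F_apply]
      exact Submodule.smul_mem _ _ (hF P)
  have hT := finrank_TT hD hn x h.x0 h.F0
  have h1 := KdDim_quot (TT a x) (Submodule.span Ω {x, w})
  have h2 : Module.finrank Ω ((TT a x).map (Submodule.span Ω {x, w}).mkQ) ≤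
      Module.finrank Ω (LinearMap.range tW) := Submodule.finrank_mono hrange
  have h3 := LinearMap.finrank_range_add_finrank_ker tW
  have h4 := LinearMap.finrank_range_add_finrank_ker (KdDim_L hd a x y β)
  have h5 : Module.finrank Ω (LinearMap.range (KdDim_L hd a x y β)) ≤
      Module.finrank Ω (LinearMap.ker tW) := by
    refine Submodule.finrank_mono ?_
    rintro _ ⟨u, rfl⟩
    rw [LinearMap.mem_ker, htW]
    show KdDim_F D x w β (fun i => psi x y β (pdF a u i)) = 0
    rw [← KdDim_F_psi h, KdDim_F_pdF h]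
  rw [Module.finrank_fin_fun] at h4
  omega

theorem kd_dim (hD : ∀ s t : Ix (Fin (N + 1)) d, D t (a s) = if s = t then 1 else 0)
    (hn : n + r = N) (hn2 : 2 ≤ n) (hd : ∀ i, 1 ≤ d i) (hnum : ∑ i, (d i + 1) + 1 = 2 * N)
    (h : LineW D a B x y w β) :
    w ≠ 0 ∧ ∃ u : Fin (N + 1) → Ω, u ≠ 0 ∧ ∀ i, Chain_ph x y β (pdF a u i) = 0 := by
  classical
  have hcount := KdDim_count hD hn hd hnum h
  have hker : LinearMap.ker (KdDim_L hd a x y β) ≤ Submodule.span Ω {x, w} := by
    intro u hu
    rw [LinearMap.mem_ker] at hu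
    refine kd_sub h u fun i => KdDim_psi_ph h.y0 h.yb _ ?_
    exact congrFun (congrArg Subtype.val hu) i
  have hle : Module.finrank Ω (LinearMap.ker (KdDim_L hd a x y β)) ≤
      Module.finrank Ω (Submodule.span Ω {x, w}) := Submodule.finrank_mono hker
  have h2 : Module.finrank Ω (Submodule.span Ω {x, w}) ≤ 2 := by
    have h1 := finrank_span_finset_le_card (R := Ω) ({x, w} : Finset (Fin (N + 1) → Ω))
    have h3 : (({x, w} : Finset (Fin (N + 1) → Ω)) : Set (Fin (N + 1) → Ω)) = {x, w} := by simp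
    rw [h3] at h1
    exact h1.trans Finset.card_le_two
  constructor
  · rintro rfl
    have h1 : Module.finrank Ω (Submodule.span Ω {x, (0 : Fin (N + 1) → Ω)}) ≤ 1 := by
      have h3 : Submodule.span Ω {x, (0 : Fin (N + 1) → Ω)} = Submodule.span Ω {x} := by
        rw [Set.pair_comm, Submodule.span_insert_zero]
      rw [h3]
      have h4 := finrank_span_finset_le_card (R := Ω) ({x} : Finset (Fin (N + 1) → Ω))
      rw [Finset.coe_singleton, Finset.card_singleton] at h4
      exact h4
    omega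
  · have h3 : LinearMap.ker (KdDim_L hd a x y β) ≠ ⊥ := by
      intro h0
      rw [h0, finrank_bot] at hcount
      omega
    obtain ⟨u, hu, hu0⟩ := Submodule.exists_mem_ne_zero_of_ne_bot h3
    refine ⟨u, hu0, fun i => KdDim_psi_ph h.y0 h.yb _ ?_⟩
    rw [LinearMap.mem_ker] at hu
    exact congrFun (congrArg Subtype.val hu) i

end

end Pool.Agent.Helper10.CK
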