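import Pool.Agent.Helper10.CK.Alpha
import Pool.Agent.Helper10.CK.Beta
import Pool.Agent.Helper10.CK.KdDim
import Pool.Agent.Helper64.CJ.Pl

/-!
# CK-FINW: assembly of the line case

`kd_dim`: `w ≠ 0`, `w1 ≠ 0` in the kernel, `w1 = c x + c' w` (`kd_sub`). `c' = 0`: `x` is in the kernel, `alpha_case`.
Otherwise `w1` is not a multiple of `x`; if `x, y, w1` are dependent: `w1 = e x + e' y`, `e' ≠ 0`: `in_line`, `no_line`.
Otherwise `beta_case`. Then `lin_mem2` (`pl x y 0 β = 1`).
-/

set_option autoImplicit false

namespace Pool.Agent.Helper10.CK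

open scoped BigOperators
open MvPolynomial Pool.Agent.Helper10.CI
open Pool.Agent.Helper8.LG (Bdd form mon Ix)
open Pool.Agent.Helper49.LN (cP mo hf pl)
open Pool.Agent.Helper6.QS (dv ev lf dt Par RatP)

section

variable {Ω : Type*} [Field Ω] [CharZero Ω] {N r n q : ℕ} {d : Fin r → ℕ}
  {D : Ix (Fin (N + 1)) d → Derivation ℤ Ω Ω} {a : Ix (Fin (N + 1)) d → Ω} {B : Subfield Ω}
  {x y w : Fin (N + 1) → Ω} {β : Fin (N + 1)}

theorem fin_w (hB : Frame D a B) (hn : n + r = N) (hn5 : 5 ≤ n) (hd : ∀ i, 1 ≤ d i)
    (hnum : ∑ i, (d i + 1) + 1 = 2 * N) (h : LineW D a B x y w β)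
    (hG : ExpP D B x y (n - 2))
    (hlam : (∃ g ∈ JJ d x y β, dvC D x g ≠ 0) ∨ ExpP D B x y (n - 1)) : ∀ l, x l ∈ B := by
  have h0 : pl x y 0 β = 1 := by
    unfold pl
    rw [h.x0, h.y0, h.yb, mul_one, mul_zero, sub_zero]
  have key : ∀ j l, pl x y j l ∈ B := by
    obtain ⟨hw, w1, hw1, hw1'⟩ := kd_dim hB.dual hn (by omega) hd hnum h
    have h1 := kd_sub h w1 hw1'
    rw [Submodule.mem_span_pair] at h1
    obtain ⟨c, c', hc⟩ := h1
    by_cases hc' : c' = 0
    · have hcx : w1 = c • x := by
        rw [← hc, hc', zero_smul, add_zero]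
      have hc0 : c ≠ 0 := by
        rintro rfl
        exact hw1 (by rw [hcx, zero_smul])
      refine alpha_case hB hn5 hd hnum h (fun i => ?_) hG
      have h2 := hw1' i
      have h3 : pdF a w1 i = c • pdF a x i := by
        unfold pdF
        rw [hcx, Finset.smul_sum]
        refine Finset.sum_congr rfl fun j _ => ?_
        rw [Pi.smul_apply, smul_eq_mul, mul_smul]
      rw [h3, map_smul, smul_eq_zero] at h2
      exact h2.resolve_left hc0
    · by_cases hli : LinearIndependent Ω ![x, y, w1]
      · exact beta_case hB hn hn5 hd hnum h hw w1 hw1' hli hlam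
      · exfalso
        have hxy : LinearIndependent Ω ![x, y] := by
          rw [LinearIndependent.pair_iff]
          intro s t hst
          have e0 := congrFun hst 0
          simp only [Pi.add_apply, Pi.smul_apply, smul_eq_mul, h.x0, h.y0, mul_one, mul_zero,
            add_zero, Pi.zero_apply] at e0
          have e1 := congrFun hst β
          simp only [Pi.add_apply, Pi.smul_apply, smul_eq_mul, e0, h.yb, mul_one, zero_mul,
            zero_add, Pi.zero_apply] at e1
          exact ⟨e0, e1⟩
        have hmem : w1 ∈ Submodule.span Ω (Set.range ![x, y]) := by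
          by_contra hcon
          apply hli
          have h3 : (![x, y, w1] : Fin 3 → Fin (N + 1) → Ω) =
              (Fin.snoc ![x, y] w1 : Fin 3 → Fin (N + 1) → Ω) := by
            funext i
            fin_cases i <;> rfl
          rw [h3, linearIndependent_finSnoc]
          exact ⟨hxy, hcon⟩
        have hr : Set.range ![x, y] = {x, y} := by
          ext v
          simp [eq_comm, or_comm]
        rw [hr, Submodule.mem_span_pair] at hmem
        obtain ⟨e, e', he⟩ := hmem
        have he' : e' ≠ 0 := by
          rintro rfl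
          rw [zero_smul, add_zero] at he
          have h4 : c' • w = (e - c) • x := by
            rw [sub_smul, he, ← hc, add_sub_cancel_left]
          have h5 := congrFun h4 0
          simp only [Pi.smul_apply, smul_eq_mul, h.w0, h.x0, mul_zero, mul_one] at h5
          rw [← h5, zero_smul, smul_eq_zero] at h4
          rcases h4 with h4 | h4
          · exact hc' h4
          · exact hw h4
        obtain ⟨i, hi⟩ := no_line hB.dual hnum h.x0 h.y0 h.yb
        refine hi (in_line h.F0 h.x0 h.y0 h.yb e e' he' i ?_)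
        rw [he]
        exact hw1' i
  exact Pool.Agent.Helper64.CJ.lin_mem2 hB hnum x h.x0 h.F0 y ⟨0, β, by
    rw [h0]; exact one_ne_zero⟩ key

end

end Pool.Agent.Helper10.CK
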