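import Pool.Agent.Helper10.CK.Defs
import Pool.Agent.Helper64.CJ.Struct

/-!
# CK-PLANES: case B: two block planes

Note 3335 (3), original form; referee note of helper84. For a block `(P, k, l)` (`P` rational, `x, Sv P k, Sv P l`
independent) let `U` be the span of the three vectors. `struct` (`p = 2`, `hbb`) gives `y_U`, `β` with
`Sv Q l' - y_U l' Sv Q β ∈ U` for all `Q, l'`. There is a second block plane `U' ≠ U`: by `ho` (`dim T = n + 1 > 3`)
some rational `Q, l'` has `Sv Q l' ∉ U`; take `P_c = P + c Q`, `c ∈ {0, 1, 2, 3}`: `Sv P_c l' ∈ U` for at most one `c`,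
`x, Sv P_c k, Sv P_c l` are dependent for at most two `c` (a 2 x 2 minor is quadratic in `c`, not zero at `c = 0`); for
the remaining `c` the plane of `(P_c, k, l)` is `≠ U`, or it is `U` and the plane of `(P_c, k, l')` is `≠ U`. If `y_U`
and `y_U'` (as points of `P(Ω^N)`, both with `y_0 = 0`) are different, then for every `Q` the vectors `Sv Q l'` all lie in
`U + U'` (for `Sv Q l' ≡ y_U l' s mod U`, `≡ y_U' l' s' mod U'`: modulo `U + U'` the function `l' ↦ Sv Q l'` is a
multiple of `y_U` and of `y_U'`), of dimension `≤ 5 < n + 1`: contradiction to `ho`. So they agree (normalise at the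
same `β`), and `Sv Q l' - y l' Sv Q β ∈ U ∩ U' = span {x, w}` (dimension `≤ 2`, it contains `x`; choose `w` with
`w_0 = 0`, possibly `w = 0`).
-/

set_option autoImplicit false

namespace Pool.Agent.Helper10.CK

open scoped BigOperators
open MvPolynomial Pool.Agent.Helper10.CI
open Pool.Agent.Helper8.LG (Bdd form mon Ix)
open Pool.Agent.Helper49.LN (cP mo hf pl)
open Pool.Agent.Helper6.QS (dv ev lf dt Par RatP)

section abstract

variable {Ω V : Type*} [Field Ω] [CharZero Ω] [AddCommGroup V] [Module Ω V]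

omit [CharZero Ω] in
theorem Planes_li {x a b : V} :
    LinearIndependent Ω (Fin.cons x ![a, b] : Fin (2 + 1) → V) ↔
      ∀ r s t : Ω, r • x + s • a + t • b = 0 → r = 0 ∧ s = 0 ∧ t = 0 := by
  rw [Fintype.linearIndependent_iff]
  constructor
  · intro h r s t hrst
    have h1 := h ![r, s, t] (by
      rw [Fin.sum_univ_three]
      exact hrst)
    exact ⟨h1 0, h1 1, h1 2⟩
  · intro h g hg i
    rw [Fin.sum_univ_three] at hg
    have h1 := h (g 0) (g 1) (g 2) hg
    fin_cases i
    · exact h1.1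
    · exact h1.2.1
    · exact h1.2.2

omit [CharZero Ω] in
/-- two functionals -/
theorem Planes_fun {x a b : V}
    (h : LinearIndependent Ω (Fin.cons x ![a, b] : Fin (2 + 1) → V)) :
    ∃ f g : V →ₗ[Ω] Ω, f x = 0 ∧ f a = 1 ∧ f b = 0 ∧ g x = 0 ∧ g a = 0 ∧ g b = 1 := by
  let L : (Fin 3 → Ω) →ₗ[Ω] V := Fintype.linearCombination Ω (Fin.cons x ![a, b] : Fin 3 → V)
  have hL : ∀ c : Fin 3 → Ω, L c = c 0 • x + c 1 • a + c 2 • b := by
    intro c
    show Fintype.linearCombination Ω (Fin.cons x ![a, b] : Fin 3 → V) c = _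
    rw [Fintype.linearCombination_apply, Fin.sum_univ_three]
    rfl
  have hker : LinearMap.ker L = ⊥ := by
    rw [LinearMap.ker_eq_bot']
    intro c hc
    rw [hL] at hc
    have h1 := Planes_li.1 h _ _ _ hc
    funext i
    fin_cases i
    · exact h1.1
    · exact h1.2.1
    · exact h1.2.2
  obtain ⟨G, hG⟩ := LinearMap.exists_leftInverse_of_injective L hker
  have hG' : ∀ c, G (L c) = c := fun c => by
    rw [← LinearMap.comp_apply, hG, LinearMap.id_apply]
  have ex : G x = ![1, 0, 0] := by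
    have := hG' ![1, 0, 0]
    rw [hL] at this
    simpa using this
  have ea : G a = ![0, 1, 0] := by
    have := hG' ![0, 1, 0]
    rw [hL] at this
    simpa using this
  have eb : G b = ![0, 0, 1] := by
    have := hG' ![0, 0, 1]
    rw [hL] at this
    simpa using this
  refine ⟨(LinearMap.proj 1).comp G, (LinearMap.proj 2).comp G, ?_, ?_, ?_, ?_, ?_, ?_⟩ <;>
    simp [ex, ea, eb]

theorem Planes_c {x a0 b0 a1 b1 e0 e1 : V} (hx : x ≠ 0)
    (h : LinearIndependent Ω (Fin.cons x ![a0, b0] : Fin (2 + 1) → V)) {U : Submodule Ω V}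
    (he : e1 ∉ U) :
    ∃ c : ℕ, LinearIndependent Ω
        (Fin.cons x ![a0 + (c : Ω) • a1, b0 + (c : Ω) • b1] : Fin (2 + 1) → V) ∧
      e0 + (c : Ω) • e1 ∉ U := by
  obtain ⟨f, g, fx, fa, fb, gx, ga, gb⟩ := Planes_fun h
  -- the minor
  let p : Polynomial Ω := (1 + Polynomial.C (f a1) * Polynomial.X) *
    (1 + Polynomial.C (g b1) * Polynomial.X) -
      Polynomial.C (f b1) * Polynomial.X * (Polynomial.C (g a1) * Polynomial.X)
  have hp0 : p ≠ 0 := by
    intro hp
    have h1 : p.eval 0 = 1 := by simp [p]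
    rw [hp] at h1
    simp at h1
  have hpe : ∀ c : Ω, p.eval c = (1 + f a1 * c) * (1 + g b1 * c) - f b1 * c * (g a1 * c) := by
    intro c
    simp [p]
  have hfin1 : {c : Ω | p.IsRoot c}.Finite := Polynomial.finite_setOfPred_isRoot hp0
  have hfin2 : {c : Ω | e0 + c • e1 ∈ U}.Finite := by
    refine Set.Subsingleton.finite ?_
    intro c hc c' hc'
    by_contra hne
    apply he
    have h1 : (c - c') • e1 ∈ U := by
      have := U.sub_mem hc hc'
      have h2 : e0 + c • e1 - (e0 + c' • e1) = (c - c') • e1 := by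
        rw [sub_smul]; abel
      rwa [h2] at this
    have h2 := U.smul_mem (c - c')⁻¹ h1
    rwa [smul_smul, inv_mul_cancel₀ (sub_ne_zero.2 hne), one_smul] at h2
  have hfin : ((fun n : ℕ => (n : Ω)) ⁻¹' ({c : Ω | p.IsRoot c} ∪ {c : Ω | e0 + c • e1 ∈ U})).Finite :=
    (hfin1.union hfin2).preimage Nat.cast_injective.injOn
  obtain ⟨c, hc⟩ := hfin.exists_notMem
  rw [Set.mem_preimage, Set.mem_union, not_or] at hc
  refine ⟨c, ?_, hc.2⟩
  have hm : (1 + f a1 * c) * (1 + g b1 * c) - f b1 * c * (g a1 * c) ≠ 0 := by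
    rw [← hpe]
    exact hc.1
  rw [Planes_li]
  intro r s t hrst
  have h1 := congrArg f hrst
  have h2 := congrArg g hrst
  simp only [map_add, map_smul, fx, gx, fa, fb, ga, gb, smul_eq_mul, mul_zero, zero_add, map_zero]
    at h1 h2
  have hs : s * ((1 + f a1 * c) * (1 + g b1 * c) - f b1 * c * (g a1 * c)) = 0 := by
    linear_combination (1 + g b1 * c) * h1 - (f b1 * c) * h2
  have ht : t * ((1 + f a1 * c) * (1 + g b1 * c) - f b1 * c * (g a1 * c)) = 0 := by
    linear_combination (1 + f a1 * c) * h2 - (g a1 * c) * h1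
  have hs0 : s = 0 := (mul_eq_zero.1 hs).resolve_right hm
  have ht0 : t = 0 := (mul_eq_zero.1 ht).resolve_right hm
  subst hs0 ht0
  rw [zero_smul, zero_smul, add_zero, add_zero] at hrst
  exact ⟨(smul_eq_zero.1 hrst).resolve_right hx, rfl, rfl⟩

end abstract

section

variable {Ω : Type*} [Field Ω] [CharZero Ω] {N r n q : ℕ} {d : Fin r → ℕ}
  {D : Ix (Fin (N + 1)) d → Derivation ℤ Ω Ω} {a : Ix (Fin (N + 1)) d → Ω} {B : Subfield Ω}
  {x y w : Fin (N + 1) → Ω} {β : Fin (N + 1)}

omit [CharZero Ω] in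
theorem Planes_add (x : Fin (N + 1) → Ω) (P Q : Fin r → MvPolynomial (Fin (N + 1)) Ω) (c : Ω)
    (l : Fin (N + 1)) : Sv D x (P + c • Q) l = Sv D x P l + c • Sv D x Q l := by
  unfold Sv
  rw [← map_smul, ← map_add]
  congr 1
  funext i
  simp only [Pi.add_apply, Pi.smul_apply, mul_add, mul_smul_comm]

omit [CharZero Ω] in
theorem Planes_rat {P Q : Fin r → MvPolynomial (Fin (N + 1)) Ω} (hP : RatT B P) (hQ : RatT B Q)
    (c : ℕ) : RatT B (P + (c : Ω) • Q) := by
  intro i m
  rw [Pi.add_apply, Pi.smul_apply, coeff_add, coeff_smul, smul_eq_mul]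
  exact B.add_mem (hP i m) (B.mul_mem (natCast_mem B c) (hQ i m))

omit [CharZero Ω] in
theorem Planes_rank {V : Type*} [AddCommGroup V] [Module Ω V] {x a b : V}
    (h : LinearIndependent Ω (Fin.cons x ![a, b] : Fin (2 + 1) → V)) :
    Module.finrank Ω (Submodule.span Ω (insert x (Set.range ![a, b]))) = 3 := by
  have h1 := finrank_span_eq_card h
  rw [Fin.range_cons] at h1
  simpa using h1

theorem planes (hB : Frame D a B) (hn : n + r = N) (hn5 : 5 ≤ n) (hd : ∀ i, 1 ≤ d i)
    (x : Fin (N + 1) → Ω) (hx : x 0 = 1) (hF : ∀ i, form (fun J => a ⟨i, J⟩) x = 0)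
    (ho : TT a x ≤ Submodule.span Ω (insert x (SS D B x)))
    (hbb : ∀ P Q : Fin r → MvPolynomial (Fin (N + 1)) Ω, RatT B P → RatT B Q → ∀ k l k' l',
      ¬ LinearIndependent Ω (Fin.cons x (Fin.append ![Sv D x P k, Sv D x P l]
        ![Sv D x Q k', Sv D x Q l']) : Fin (2 + 2 + 1) → Fin (N + 1) → Ω))
    (P : Fin r → MvPolynomial (Fin (N + 1)) Ω) (hP : RatT B P) (k l : Fin (N + 1))
    (hli : LinearIndependent Ω (Fin.cons x ![Sv D x P k, Sv D x P l] :
      Fin (2 + 1) → Fin (N + 1) → Ω)) :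
    ∃ (y w : Fin (N + 1) → Ω) (β : Fin (N + 1)), y 0 = 0 ∧ y β = 1 ∧ w 0 = 0 ∧ w ∈ TT a x ∧
      w ∈ Submodule.span Ω (insert x (Set.range ![Sv D x P k, Sv D x P l])) ∧
      ∀ (l' : Fin (N + 1)) (Q : Fin r → MvPolynomial (Fin (N + 1)) Ω),
        Sv D x Q l' - y l' • Sv D x Q β ∈ Submodule.span Ω {x, w} := by
  classical
  have hx0 : x ≠ 0 := by
    intro h
    rw [h] at hx
    simp at hx
  have hfr := finrank_TT hB.dual hn x hx hF
  -- a tangent space in a submodule
  have hbig : ∀ V : Submodule Ω (Fin (N + 1) → Ω), x ∈ V →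
      (∀ Q : Fin r → MvPolynomial (Fin (N + 1)) Ω, RatT B Q → ∀ l, Sv D x Q l ∈ V) →
      n + 1 ≤ Module.finrank Ω V := by
    intro V hxV hSV
    have h1 : TT a x ≤ V := by
      refine ho.trans (Submodule.span_le.2 ?_)
      rintro v (rfl | ⟨l, Q, hQ, rfl⟩)
      · exact hxV
      · exact hSV Q hQ l
    rw [← hfr]
    exact Submodule.finrank_mono h1
  -- the structure for a block plane
  have hstr : ∀ (P : Fin r → MvPolynomial (Fin (N + 1)) Ω) (k l : Fin (N + 1)), RatT B P →
      LinearIndependent Ω (Fin.cons x ![Sv D x P k, Sv D x P l] :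
        Fin (2 + 1) → Fin (N + 1) → Ω) →
      ∃ (y : Fin (N + 1) → Ω) (β : Fin (N + 1)), y 0 = 0 ∧ y β = 1 ∧
        ∀ (l' : Fin (N + 1)) (Q : Fin r → MvPolynomial (Fin (N + 1)) Ω),
          Sv D x Q l' - y l' • Sv D x Q β ∈
            Submodule.span Ω (insert x (Set.range ![Sv D x P k, Sv D x P l])) := by
    intro P k l hP hli
    exact Pool.Agent.Helper64.CJ.struct hB.dual hn (by omega) x hx hF ho
      ![Sv D x P k, Sv D x P l] hli (fun Q hQ k' l' => hbb P Q hP hQ k l k' l')
  set U := Submodule.span Ω (insert x (Set.range ![Sv D x P k, Sv D x P l])) with hU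
  have hUx : x ∈ U := Submodule.subset_span (Set.mem_insert _ _)
  have hUr : Module.finrank Ω U = 3 := Planes_rank hli
  -- the second plane
  obtain ⟨P', k', l'', hP', hli', hne⟩ : ∃ (P' : Fin r → MvPolynomial (Fin (N + 1)) Ω)
      (k' l'' : Fin (N + 1)), RatT B P' ∧
      LinearIndependent Ω (Fin.cons x ![Sv D x P' k', Sv D x P' l''] :
        Fin (2 + 1) → Fin (N + 1) → Ω) ∧
      Submodule.span Ω (insert x (Set.range ![Sv D x P' k', Sv D x P' l''])) ≠ U := by
    have h1 : ∃ (Q : Fin r → MvPolynomial (Fin (N + 1)) Ω) (l' : Fin (N + 1)), RatT B Q ∧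
        Sv D x Q l' ∉ U := by
      by_contra hcon
      push Not at hcon
      have := hbig U hUx (fun Q hQ l => hcon Q l hQ)
      omega
    obtain ⟨Q, l', hQ, hQU⟩ := h1
    obtain ⟨c, hc1, hc2⟩ := Planes_c (e0 := Sv D x P l') (a1 := Sv D x Q k) (b1 := Sv D x Q l)
      hx0 hli hQU
    rw [← Planes_add, ← Planes_add] at hc1
    rw [← Planes_add] at hc2
    have hPc := Planes_rat hP hQ c
    by_cases hcU : Submodule.span Ω (insert x (Set.range ![Sv D x (P + (c : Ω) • Q) k,
        Sv D x (P + (c : Ω) • Q) l])) = U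
    · refine ⟨P + (c : Ω) • Q, k, l', hPc, ?_, ?_⟩
      · have hk : Sv D x (P + (c : Ω) • Q) k ∈ U := by
          rw [← hcU]
          exact Submodule.subset_span (Set.mem_insert_of_mem _ ⟨0, rfl⟩)
        rw [Planes_li]
        intro r' s t hrst
        have ht : t = 0 := by
          by_contra ht
          apply hc2
          have h2 : t • Sv D x (P + (c : Ω) • Q) l' ∈ U := by
            have h3 : t • Sv D x (P + (c : Ω) • Q) l' =
                -(r' • x + s • Sv D x (P + (c : Ω) • Q) k) := by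
              rw [eq_neg_iff_add_eq_zero]
              exact (add_comm _ _).trans hrst
            rw [h3]
            exact U.neg_mem (U.add_mem (U.smul_mem _ hUx) (U.smul_mem _ hk))
          have h4 := U.smul_mem t⁻¹ h2
          rwa [smul_smul, inv_mul_cancel₀ ht, one_smul] at h4
        subst ht
        have h5 := Planes_li.1 hc1 r' s 0 (by rw [zero_smul] at hrst ⊢; exact hrst)
        exact ⟨h5.1, h5.2.1, rfl⟩
      · intro h
        apply hc2
        rw [← h]
        exact Submodule.subset_span (Set.mem_insert_of_mem _ ⟨1, rfl⟩)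
    · exact ⟨P + (c : Ω) • Q, k, l, hPc, hc1, hcU⟩
  obtain ⟨y, β, hy0, hyβ, hy⟩ := hstr P k l hP hli
  obtain ⟨y', β', hy0', hyβ', hy'⟩ := hstr P' k' l'' hP' hli'
  rw [← hU] at hy
  set U' := Submodule.span Ω (insert x (Set.range ![Sv D x P' k', Sv D x P' l''])) with hU'
  have hUx' : x ∈ U' := Submodule.subset_span (Set.mem_insert _ _)
  have hUr' : Module.finrank Ω U' = 3 := Planes_rank hli'
  -- the two points agree
  have hprop : ∀ l1 l2, y l1 * y' l2 = y l2 * y' l1 := by
    by_contra hcon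
    push Not at hcon
    obtain ⟨l1, l2, hne12⟩ := hcon
    set V := U ⊔ U' with hV
    have hUV : U ≤ V := le_sup_left
    have hUV' : U' ≤ V := le_sup_right
    have hΔ : y l2 * y' l1 - y l1 * y' l2 ≠ 0 := sub_ne_zero.2 hne12.symm
    have hall : ∀ Q : Fin r → MvPolynomial (Fin (N + 1)) Ω, RatT B Q → ∀ l, Sv D x Q l ∈ V := by
      intro Q _
      have e1 := hUV (hy l1 Q)
      have e2 := hUV (hy l2 Q)
      have f1 := hUV' (hy' l1 Q)
      have f2 := hUV' (hy' l2 Q)
      have g1 : y l2 • Sv D x Q l1 - y l1 • Sv D x Q l2 ∈ V := by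
        have := V.sub_mem (V.smul_mem (y l2) e1) (V.smul_mem (y l1) e2)
        have h3 : y l2 • (Sv D x Q l1 - y l1 • Sv D x Q β) -
            y l1 • (Sv D x Q l2 - y l2 • Sv D x Q β) =
            y l2 • Sv D x Q l1 - y l1 • Sv D x Q l2 := by
          module
        rwa [h3] at this
      have g2 : y' l2 • Sv D x Q l1 - y' l1 • Sv D x Q l2 ∈ V := by
        have := V.sub_mem (V.smul_mem (y' l2) f1) (V.smul_mem (y' l1) f2)
        have h3 : y' l2 • (Sv D x Q l1 - y' l1 • Sv D x Q β') -
            y' l1 • (Sv D x Q l2 - y' l2 • Sv D x Q β') =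
            y' l2 • Sv D x Q l1 - y' l1 • Sv D x Q l2 := by
          module
        rwa [h3] at this
      have hcancel : ∀ v : Fin (N + 1) → Ω, ∀ δ : Ω, δ ≠ 0 → δ • v ∈ V → v ∈ V := by
        intro v δ hδ hv
        have := V.smul_mem δ⁻¹ hv
        rwa [smul_smul, inv_mul_cancel₀ hδ, one_smul] at this
      have s1 : Sv D x Q l1 ∈ V := by
        refine hcancel _ _ hΔ ?_
        have := V.sub_mem (V.smul_mem (y' l1) g1) (V.smul_mem (y l1) g2)
        have h3 : y' l1 • (y l2 • Sv D x Q l1 - y l1 • Sv D x Q l2) -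
            y l1 • (y' l2 • Sv D x Q l1 - y' l1 • Sv D x Q l2) =
            (y l2 * y' l1 - y l1 * y' l2) • Sv D x Q l1 := by
          module
        rwa [h3] at this
      have s2 : Sv D x Q l2 ∈ V := by
        refine hcancel _ _ hΔ ?_
        have := V.sub_mem (V.smul_mem (y' l2) g1) (V.smul_mem (y l2) g2)
        have h3 : y' l2 • (y l2 • Sv D x Q l1 - y l1 • Sv D x Q l2) -
            y l2 • (y' l2 • Sv D x Q l1 - y' l1 • Sv D x Q l2) =
            (y l2 * y' l1 - y l1 * y' l2) • Sv D x Q l2 := by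
          module
        rwa [h3] at this
      have sβ : Sv D x Q β ∈ V := by
        by_cases h1 : y l1 = 0
        · have h2 : y l2 ≠ 0 := by
            intro h2
            apply hΔ
            rw [h1, h2]
            ring
          refine hcancel _ _ h2 ?_
          have := V.sub_mem s2 e2
          rwa [sub_sub_cancel] at this
        · refine hcancel _ _ h1 ?_
          have := V.sub_mem s1 e1
          rwa [sub_sub_cancel] at this
      intro l
      have := V.add_mem (hUV (hy l Q)) (V.smul_mem (y l) sβ)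
      rwa [sub_add_cancel] at this
    have h5 := hbig V (hUV hUx) hall
    have h6 := Submodule.finrank_sup_add_finrank_inf_eq U U'
    have h7 : 1 ≤ Module.finrank Ω (U ⊓ U' : Submodule Ω (Fin (N + 1) → Ω)) := by
      have h8 : Submodule.span Ω {x} ≤ U ⊓ U' := by
        rw [Submodule.span_singleton_le_iff_mem]
        exact ⟨hUx, hUx'⟩
      have h9 := Submodule.finrank_mono h8
      rwa [finrank_span_singleton hx0] at h9
    rw [← hV] at h6
    omega
  have hyy : ∀ l, y' l = y l * y' β := by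
    intro l
    rw [hprop l β, hyβ, one_mul]
  have hW : ∀ (l : Fin (N + 1)) (Q : Fin r → MvPolynomial (Fin (N + 1)) Ω),
      Sv D x Q l - y l • Sv D x Q β ∈ U ⊓ U' := by
    intro l Q
    refine ⟨hy l Q, ?_⟩
    have := U'.sub_mem (hy' l Q) (U'.smul_mem (y l) (hy' β Q))
    have h3 : Sv D x Q l - y' l • Sv D x Q β' - y l • (Sv D x Q β - y' β • Sv D x Q β') =
        Sv D x Q l - y l • Sv D x Q β := by
      rw [hyy l]
      module
    rwa [h3] at this
  -- the intersection
  have hlt : U ⊓ U' < U := by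
    refine lt_of_le_of_ne inf_le_left ?_
    intro h
    have h1 : U ≤ U' := by
      rw [← h]
      exact inf_le_right
    exact hne (Submodule.eq_of_le_of_finrank_eq h1 (by rw [hUr, hUr'])).symm
  have hr2 : Module.finrank Ω (U ⊓ U' : Submodule Ω (Fin (N + 1) → Ω)) ≤ 2 := by
    have := Submodule.finrank_lt_finrank_of_lt hlt
    omega
  have hUT : U ≤ TT a x := by
    rw [hU, Submodule.span_le]
    rintro v (rfl | ⟨i, rfl⟩)
    · exact fun i => nu_x _ hF i
    · fin_cases i
      · exact sv_TT hB.dual x hx hF hd P k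
      · exact sv_TT hB.dual x hx hF hd P l
  by_cases hx1 : U ⊓ U' ≤ Submodule.span Ω {x}
  · refine ⟨y, 0, β, hy0, hyβ, rfl, Submodule.zero_mem _, Submodule.zero_mem _, ?_⟩
    intro l' Q
    exact Submodule.span_mono (by simp) (hx1 (hW l' Q))
  · rw [SetLike.not_le_iff_exists] at hx1
    obtain ⟨w', hw', hwx⟩ := hx1
    have hw : w' - w' 0 • x ∈ U ⊓ U' :=
      (U ⊓ U').sub_mem hw' ((U ⊓ U').smul_mem _ ⟨hUx, hUx'⟩)
    have hli2 : LinearIndependent Ω ![x, w' - w' 0 • x] := by
      rw [LinearIndependent.pair_iff]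
      intro s t hst
      have ht : t = 0 := by
        by_contra ht
        apply hwx
        rw [Submodule.mem_span_singleton]
        refine ⟨w' 0 - t⁻¹ * s, ?_⟩
        have h1 : t⁻¹ • (s • x + t • (w' - w' 0 • x)) = 0 := by rw [hst, smul_zero]
        rw [smul_add, smul_smul, smul_smul, inv_mul_cancel₀ ht, one_smul] at h1
        rw [sub_smul, ← sub_eq_zero]
        have h2 : w' 0 • x - (t⁻¹ * s) • x - w' = -((t⁻¹ * s) • x + (w' - w' 0 • x)) := by
          module
        rw [h2, h1, neg_zero]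
      subst ht
      rw [zero_smul, add_zero] at hst
      exact ⟨(smul_eq_zero.1 hst).resolve_right hx0, rfl⟩
    have hspan : Submodule.span Ω {x, w' - w' 0 • x} = U ⊓ U' := by
      refine Submodule.eq_of_le_of_finrank_le ?_ ?_
      · rw [Submodule.span_le]
        rintro v (rfl | rfl)
        · exact ⟨hUx, hUx'⟩
        · exact hw
      · have h1 := finrank_span_eq_card hli2
        rw [Matrix.range_cons, Matrix.range_cons, Matrix.range_empty, Set.union_empty,
          Set.singleton_union, Fintype.card_fin] at h1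
        rw [h1]
        exact hr2
    refine ⟨y, w' - w' 0 • x, β, hy0, hyβ, ?_, hUT hw.1, hw.1, ?_⟩
    · rw [Pi.sub_apply, Pi.smul_apply, hx, smul_eq_mul, mul_one, sub_self]
    · intro l' Q
      rw [hspan]
      exact hW l' Q

end

end Pool.Agent.Helper10.CK
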