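import Pool.Agent.Helper10.CK.FinW
import Pool.Agent.Helper10.CK.EqvA
import Pool.Agent.Helper10.CK.Planes
import Pool.Agent.Helper64.CJ.Onto
import Pool.Agent.Helper64.CJ.CaseA
import Pool.Agent.Helper64.CJ.CaseB
import Pool.Agent.Helper64.CJ.CaseC
import Pool.Agent.Helper64.CJ.Struct
import Pool.Agent.Helper64.CJ.ExpA
import Pool.Agent.Helper64.CJ.ExpB

/-!
# CK-KEYASM: the key statement for `sum (d_i + 1) = 2 N - 1`, `n ≥ 5`

Case A: a tangent vector of weight one not parallel to `x`; case B: a rational block of rank two (two block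
planes); case C: neither (impossible).
-/

set_option autoImplicit false

namespace Pool.Agent.Helper10.CK

open scoped BigOperators
open MvPolynomial Pool.Agent.Helper10.CI
open Pool.Agent.Helper8.LG (Bdd form mon Ix)
open Pool.Agent.Helper49.LN (cP mo hf pl)
open Pool.Agent.Helper6.QS (dv ev lf dt Par RatP)
open Pool.Agent.Helper64.CJ (onto2 case_a case_b case_c struct exp_a exp_b)

section

variable {Ω : Type*} [Field Ω] [CharZero Ω] {N r n : ℕ} {d : Fin r → ℕ}
  {D : Ix (Fin (N + 1)) d → Derivation ℤ Ω Ω} {a : Ix (Fin (N + 1)) d → Ω} {B : Subfield Ω}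
  {x y w : Fin (N + 1) → Ω} {β : Fin (N + 1)}

omit [CharZero Ω] in
theorem key_pr (x v : Fin (N + 1) → Ω) : pr x v = v - v 0 • x := by
  funext l
  rfl

omit [CharZero Ω] in
theorem key_span (x w : Fin (N + 1) → Ω) :
    Submodule.span Ω {x, w} = Submodule.span Ω {x, pr x w} := by
  apply le_antisymm
  · rw [Submodule.span_le]
    rintro v (rfl | hv)
    · exact Submodule.subset_span (Or.inl rfl)
    · rw [Set.mem_singleton_iff] at hv
      have h1 : v = pr x w + w 0 • x := by
        rw [hv, key_pr, sub_add_cancel]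
      rw [h1]
      exact Submodule.add_mem _ (Submodule.subset_span (Or.inr rfl))
        (Submodule.smul_mem _ _ (Submodule.subset_span (Or.inl rfl)))
  · rw [Submodule.span_le]
    rintro v (rfl | hv)
    · exact Submodule.subset_span (Or.inl rfl)
    · rw [Set.mem_singleton_iff] at hv
      rw [hv, key_pr]
      exact Submodule.sub_mem _ (Submodule.subset_span (Or.inr rfl))
        (Submodule.smul_mem _ _ (Submodule.subset_span (Or.inl rfl)))

omit [Field Ω] [CharZero Ω] in
theorem key_range (x w : Fin (N + 1) → Ω) :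
    (insert x (Set.range ![w]) : Set (Fin (N + 1) → Ω)) = {x, w} := by
  congr 1
  ext v
  simp [eq_comm]

theorem key_zero (hd : ∀ i, 1 ≤ d i) (h : LineW D a B x y w β)
    (hE : ∀ u ζ : Fin (N + 1) → Ω, dvC D x (fun i => lf ζ * pdF a u i) + dt ζ x • u ∈
      Submodule.span Ω {x, (0 : Fin (N + 1) → Ω)})
    (hJ : ∀ g ∈ JJ d x y β, dvC D x g = 0) : LineW D a B x y 0 β := by
  have hL1 : ∀ l, (rl x l - y l • rl x β).IsHomogeneous 1 := by
    intro l
    have hX : ∀ (c : Ω) (l : Fin (N + 1)),
        (c • X l : MvPolynomial (Fin (N + 1)) Ω).IsHomogeneous 1 := by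
      intro c l
      rw [smul_eq_C_mul]
      simpa using (isHomogeneous_C (Fin (N + 1)) c).mul (isHomogeneous_X Ω l)
    have hr : ∀ l, (rl x l).IsHomogeneous 1 := fun l => (isHomogeneous_X Ω l).sub (hX (x l) 0)
    refine (hr l).sub ?_
    rw [smul_eq_C_mul]
    simpa using (isHomogeneous_C (Fin (N + 1)) (y l)).mul (hr β)
  have hph : ∀ l, Chain_ph x y β (rl x l) = y l • X β := by
    intro l
    unfold rl Chain_ph
    rw [map_sub, map_smul, aeval_X, aeval_X, h.x0, h.y0, one_smul, zero_smul, add_zero,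
      add_sub_cancel_left]
  have hL0 : ∀ l, Chain_ph x y β (rl x l - y l • rl x β) = 0 := by
    intro l
    rw [map_sub, map_smul, hph, hph, h.yb, one_smul, sub_self]
  have hH : ∀ (l : Fin (N + 1)) (P : Fin r → MvPolynomial (Fin (N + 1)) Ω),
      Sv D x P l - y l • Sv D x P β = 0 := by
    intro l P
    have h1 : Sv D x P l - y l • Sv D x P β =
        dvC D x (fun i => (rl x l - y l • rl x β) * P i) := by
      unfold Sv
      rw [← map_smul, ← map_sub]
      congr 1
      funext i
      rw [Pi.sub_apply, Pi.smul_apply, smul_eq_C_mul, smul_eq_C_mul]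
      ring
    have h2 : dvC D x (fun i => (rl x l - y l • rl x β) * P i) =
        dvC D x (fun i => (rl x l - y l • rl x β) * homogeneousComponent (d i - 1) (P i)) := by
      rw [dvC_apply, dvC_apply]
      refine Finset.sum_congr rfl fun i _ => ?_
      rw [mul_comm, mul_comm (rl x l - y l • rl x β)]
      exact Pool.Agent.Helper6.QS.dv_part _ x (d i - 1) 1 (by have := hd i; omega) (P i) _ (hL1 l)
    rw [h1, h2]
    refine hJ _ fun i => ⟨?_, ?_⟩
    · have h3 := (hL1 l).mul (homogeneousComponent_isHomogeneous (d i - 1) (P i))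
      have h4 : 1 + (d i - 1) = d i := by have := hd i; omega
      rwa [h4] at h3
    · rw [map_mul, hL0, zero_mul]
  refine ⟨h.x0, h.F0, h.y0, h.yb, rfl, Submodule.zero_mem _, fun l P => ?_, hE, h.on⟩
  rw [hH]
  exact Submodule.zero_mem _

omit [CharZero Ω] in
theorem key_pl (hx : x 0 = 1) (hy : y 0 = 0) (hβ : y β = 1) : pl x y 0 β = 1 := by
  unfold pl
  rw [hx, hy, hβ, mul_one, mul_zero, sub_zero]

end

universe u

/-- **The key statement, the last degree, in dimension at least five.** -/
theorem keyCK (N : ℕ) {r n : ℕ} (d : Fin r → ℕ) (hn : n + r = N) (hn5 : 5 ≤ n)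
    (hd : ∀ i, 1 ≤ d i) (hnum : ∑ i, (d i + 1) + 1 = 2 * N) : KeyC.{u} N d := by
  intro Ω _ _ D a B hB x hx hF
  have hxT : x ∈ TT a x := fun i => nu_x x hF i
  rcases onto2 hB hn (by omega) hd hnum x hx hF with h0 | ho
  · exact h0
  by_contra hcon
  -- case A
  have hw1 : ∀ v ∈ TT a x, Wt D B x 1 v → pr x v = 0 := by
    intro w hw hw1
    by_contra hpr
    have hu : LinearIndependent Ω (Fin.cons x ![w] : Fin (1 + 1) → Fin (N + 1) → Ω) := by
      have h1 := W1_li x w hx hpr
      convert h1 using 2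
      funext j
      fin_cases j
      rfl
    obtain ⟨y, β, hy, hβ, H⟩ := struct hB.dual hn (by omega) x hx hF ho ![w] hu
      (fun Q hQ k l hli => hcon (case_a hB hn (by omega) hd hnum x hx hF ho w hw hw1 Q hQ k l hli))
    obtain ⟨q, hq⟩ : ∃ q, n = 1 + q := ⟨n - 1, by omega⟩
    have hA := expP_of (exp_a hB (by omega) hd hnum x hx hF ho w hw hw1 hu y β H (q := q))
    have hq' : q = n - 1 := by omega
    rw [hq'] at hA
    have h0 : pl x y 0 β = 1 := key_pl hx hy hβ
    have hL : LineW D a B x y (pr x w) β := by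
      refine ⟨hx, hF, hy, hβ, ?_, ?_, fun l P => ?_, fun u ζ => ?_, ho⟩
      · show w 0 - w 0 * x 0 = 0
        rw [hx, mul_one, sub_self]
      · rw [key_pr]
        exact Submodule.sub_mem _ hw (Submodule.smul_mem _ _ hxT)
      · have h1 := H l P
        rw [key_range, key_span] at h1
        exact h1
      · rw [← key_span]
        exact eqv_a hB hd x hx hF w (fun v hv hv1 =>
          (w1a hB hn (by omega) hd hnum x hx hF ho w hw hw1 hu v hv hv1).resolve_right hcon) u ζ
    exact hcon (fin_w hB hn hn5 hd hnum hL (expP_mono h0 (by omega) hA) (Or.inr hA))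
  -- case B
  have hE : ∀ u ζ w : Fin (N + 1) → Ω, dvC D x (fun i => lf ζ * pdF a u i) + dt ζ x • u ∈
      Submodule.span Ω {x, w} := by
    intro u ζ w
    have h1 := eqv hB hd x hx hF hw1 u ζ
    have h2 : pr x (dvC D x (fun i => lf ζ * pdF a u i) + dt ζ x • u) = 0 := by
      have h3 : pr x (dvC D x (fun i => lf ζ * pdF a u i) + dt ζ x • u) =
          pr x (dvC D x (fun i => lf ζ * pdF a u i)) + dt ζ x • pr x u := by
        funext l
        simp only [pr, Pi.add_apply, Pi.smul_apply, smul_eq_mul]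
        ring
      rw [h3, h1, neg_smul, neg_add_cancel]
    obtain ⟨c, hc⟩ := (pr_zero_iff x hx _).1 h2
    rw [hc]
    exact Submodule.smul_mem _ _ (Submodule.subset_span (Or.inl rfl))
  have hrk : ∀ P : Fin r → MvPolynomial (Fin (N + 1)) Ω, RatT B P → ∀ k l,
      ¬ LinearIndependent Ω ![x, Sv D x P k, Sv D x P l] := by
    intro P hP k l hli
    have hu : LinearIndependent Ω (Fin.cons x ![Sv D x P k, Sv D x P l] :
        Fin (2 + 1) → Fin (N + 1) → Ω) := hli
    obtain ⟨y, w, β, hy, hβ, hw0, hwT, hwU, H⟩ := planes hB hn hn5 hd x hx hF ho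
      (fun P Q hP hQ k l k' l' hli' => hcon
        (case_b hB hn hn5 hd hnum x hx hF ho P hP k l Q hQ k' l' hli')) P hP k l hu
    obtain ⟨q, hq⟩ : ∃ q, n = 2 + q := ⟨n - 2, by omega⟩
    have hsub : Submodule.span Ω {x, w} ≤
        Submodule.span Ω (insert x (Set.range ![Sv D x P k, Sv D x P l])) := by
      rw [Submodule.span_le]
      rintro v (rfl | hv)
      · exact Submodule.subset_span (Or.inl rfl)
      · rw [Set.mem_singleton_iff] at hv
        rw [hv]
        exact hwU
    have hA := expP_of (exp_b hB (by omega) hd hnum x hx hF ho P hP k l hu y β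
      (fun l' Q => hsub (H l' Q)) (q := q))
    have hq' : q = n - 2 := by omega
    rw [hq'] at hA
    have hL : LineW D a B x y w β := ⟨hx, hF, hy, hβ, hw0, hwT, H, fun u ζ => hE u ζ w, ho⟩
    by_cases hJ : ∃ g ∈ JJ d x y β, dvC D x g ≠ 0
    · exact hcon (fin_w hB hn hn5 hd hnum hL hA (Or.inl hJ))
    · push Not at hJ
      have hL0 : LineW D a B x y 0 β := key_zero hd hL (fun u ζ => hE u ζ 0) hJ
      exact (kd_dim hB.dual hn (by omega) hd hnum hL0).1 rfl
  exact case_c hB hn (by omega) hd hnum x hx hF hw1 ho hrk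

end Pool.Agent.Helper10.CK
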