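import Pool.Agent.Helper10.CT.Main
import Pool.Agent.Helper10.CI.Main
import Pool.Agent.Helper10.CI.KeyAsm
import Pool.Agent.Helper10.CK.KeyAsm

/-!
# CK: GenericDivisors with the fourth case (generic complete intersections with
# `sum (d_i + 1) = 2 N` or `sum (d_i + 1) = 2 N - 1`)
-/

open AlgebraicGeometry CategoryTheory CategoryTheory.Limits MvPolynomial
open Pool.Agent.Helper8.LG hiding coeffField
open Pool.Agent.Helper8.LV
open Pool.Agent.Helper91.CO

namespace Pool.Agent.Helper10.CK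

universe u v

theorem main_5 (R : CommRingCat.{u}) (B : Scheme.{u}) [IsIntegral B] (s : B ⟶ Spec R)
    [LocallyOfFiniteType s] [CharZero B.functionField]
    (U : Scheme.{u}) (π : U ⟶ B) [IsSeparated π] [LocallyOfFiniteType π] [QuasiCompact π]
    {N r n : ℕ} (d q m : Fin r → ℕ) (b : Fin r → Fin n → ℕ) (hq : ∀ i, 0 < q i)
    (hb : ∀ i j, b i j + q i ≤ d i)
    (F : Fin r → MvPolynomial (Fin (N + 1)) B.functionField)
    (hF : ∀ i, (F i).IsHomogeneous (d i))
    (f : genFib π ⟶ PN N B.functionField) (hf : f ≫ PN.toSpec N _ = pullback.snd _ _)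
    [LocallyQuasiFinite f]
    (Z C : Finset (Fin r)) (hZC : Disjoint Z C) (hm : ∀ i ∈ C, m i ∣ d i)
    (hU : ∀ i ∉ Z, i ∉ C → ∀ z : genFib π, NonVanishing (f z) (F i))
    (k₀ : Subfield B.functionField)
    (hk₀ : ∀ r : R, (Spec.preimage (B.fromSpecStalk (genericPoint B) ≫ s)).hom r ∈ k₀)
    (M : Type v) [Field M] [Algebra B.functionField M]
    (hM : (⊤ : IntermediateField B.functionField M).FG) (g : GL (Fin (N + 1)) M)
    (F₀ : Fin r → MvPolynomial (Fin (N + 1) ⊕ Fin n) k₀)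
    (hF₀ : ∀ i, IsWeightedHomogeneous (wts N fun j => d i - b i j) (F₀ i) (d i))
    (H : Fin r → Fin n → MvPolynomial (Fin (N + 1)) M)
    (hH : ∀ i j, (H i j).IsHomogeneous (d i - b i j))
    (hFA : ∀ i, subst (g : Matrix _ _ M) (F i) = aeval (Sum.elim X (H i)) (F₀ i))
    (T : Finset (Fin r)) (hT : ∀ i ∈ T, ∀ y : Fin (N + 1) → AlgebraicClosure M,
      (∀ j, aeval y (mder (F₀ i) (H i) j) = 0) → y = 0)
    (w c : ℕ)
    (hcoef : ((∑ i, ∑ j, (N + (d i - b i j)).choose N : ℕ) : Cardinal) ≤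
      Algebra.trdeg k₀ (coeffField k₀ H) + c)
    (hnum : 2 * w + 2 + c + ∑ i ∈ C, d i / m i ≤
        ∑ i, (if i ∈ T then min (d i) (2 * q i + 1) else q i) + Z.card ∨
      (Z = Finset.univ ∧
        2 * w + 1 + c ≤ ∑ i, ((if i ∈ T then min (d i) (2 * q i + 1) else q i) + 1) ∧
        w + 2 ≤ ∑ i, (if i ∈ T then min (d i) (2 * q i) else q i) ∧
        2 * N + c ≤ ∑ i, ((if i ∈ T then min (d i) (2 * q i + 1) else q i) + 1) + 1) ∨
      (Algebra.FiniteType ℤ R ∧ C = ∅ ∧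
        2 * N + 1 + c ≤ ∑ i, (if i ∈ T then min (d i) (2 * q i + 1) else q i) + Z.card ∧
        N + 2 ≤ ∑ i, (if i ∈ T then min (d i) (2 * q i) else q i)) ∨
      (Z = Finset.univ ∧ (∀ i, q i = d i) ∧ (∀ i, 2 ≤ d i) ∧ c = 0 ∧
        (∑ i, (d i + 1) = 2 * N ∧ r + 1 < N ∧ (1 < r ∨ 3 < N) ∨
          ∑ i, (d i + 1) + 1 = 2 * N ∧ r + 4 < N))) :
    {σ : B ⟶ U | ∃ hσ : σ ≫ π = 𝟙 B, ∀ (t : Spec B.functionField)
      (x : Fin (N + 1) → B.functionField), IsCoord (f (genPt π σ hσ t)) x →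
      (∀ i, ∃ j, MvPolynomial.eval (pull g x) (mder (F₀ i) (H i) j) ≠ 0) ∧
      Algebra.trdeg k₀ (ratioField k₀ (pull g x)) ≤ w ∧
      (∀ i ∈ Z, MvPolynomial.eval x (F i) = 0) ∧
      ∀ i ∈ C, ∃ y : B.functionField, y ^ m i = MvPolynomial.eval x (F i)}.Finite := by
  rcases hnum with h | h | h | ⟨hZ, hqd, hd2, hc, hnum⟩
  · exact Pool.Agent.Helper10.CT.main_t R B s U π d q m b hq hb F hF f hf Z C hZC hm hU
      k₀ hk₀ M hM g F₀ hF₀ H hH hFA T hT w c hcoef (Or.inl h)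
  · exact Pool.Agent.Helper10.CT.main_t R B s U π d q m b hq hb F hF f hf Z C hZC hm hU
      k₀ hk₀ M hM g F₀ hF₀ H hH hFA T hT w c hcoef (Or.inr (Or.inl h))
  · exact Pool.Agent.Helper10.CT.main_t R B s U π d q m b hq hb F hF f hf Z C hZC hm hU
      k₀ hk₀ M hM g F₀ hF₀ H hH hFA T hT w c hcoef (Or.inr (Or.inr h))
  · have hK : Pool.Agent.Helper10.CI.KeyC.{v} N d := by
      rcases hnum with ⟨hnum, hr1, hr2⟩ | ⟨hnum, hr1⟩
      · refine Pool.Agent.Helper10.CI.keyC (n := N - r) N d (by omega) (by omega) hd2 hnum ?_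
        rcases hr2 with hr2 | hr2
        · exact Or.inl hr2
        · by_cases h1 : 1 < r
          · exact Or.inl h1
          · exact Or.inr (by omega)
      · exact keyCK (n := N - r) N d (by omega) (by omega)
          (fun i => le_trans (by norm_num) (hd2 i)) hnum
    have h := Pool.Agent.Helper10.CI.main_ci R B s U π d q m b hq hb F hF f hf Z C hm hU
      k₀ hk₀ M hM g F₀ hF₀ H hH hFA w c hcoef hc hZ (funext fun i => (hqd i).symm) hK
    exact h

end Pool.Agent.Helper10.CK
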