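import Pool.Agent.Helper10.CK.AAP
import Pool.Agent.Helper64.CJ.Idn

/-!
# CK-GP: one row and line singles

`idn` (`Helper64/CJ/Idn.lean`, a stub) with `u = ![c w]` if `c ≠ 0` (then `span {x, u} = span {x, w}`; both
sides are zero if `u = 0`): `AA (u, Sv Q_t β) pl(m,b)^q = AA (u, D_(hf x m b Q_t) x)`; `aap_at` with
`c_0 = c`, `c_t = x_m^2` (`wt_hf`). `∑ d_i = 1 + 2 q + r`.
-/

set_option autoImplicit false

namespace Pool.Agent.Helper10.CK

open scoped BigOperators
open MvPolynomial Pool.Agent.Helper10.CI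
open Pool.Agent.Helper8.LG (Bdd form mon Ix)
open Pool.Agent.Helper49.LN (cP mo hf pl)
open Pool.Agent.Helper6.QS (dv ev lf dt Par RatP)

section

variable {Ω : Type*} [Field Ω] [CharZero Ω] {N r n q : ℕ} {d : Fin r → ℕ}
  {D : Ix (Fin (N + 1)) d → Derivation ℤ Ω Ω} {a : Ix (Fin (N + 1)) d → Ω} {B : Subfield Ω}
  {x y w : Fin (N + 1) → Ω} {β : Fin (N + 1)}

theorem gp_one (hB : Frame D a B) (hn : 1 + q + r = N) (hd : ∀ i, 1 ≤ d i)
    (hnum : ∑ i, (d i + 1) + 1 = 2 * N) (h : LineW D a B x y w β) (e : Kx (1 + q) r ≃ Fin (N + 1))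
    (u : Fin (N + 1) → Ω) (huT : u ∈ TT a x) (hu : ∃ c : Ω, u = c • w)
    (Q : Fin q → Fin r → MvPolynomial (Fin (N + 1)) Ω) (hQ : ∀ t, RatT B (Q t))
    (m b : Fin (N + 1)) (hm : x m ≠ 0) (hP : pl x y m b ≠ 0) (c : Ω) (hc : c ≠ 0)
    (hw : WtP D B x y m b c u) :
    BdP D B x y m b
      (AA e D x (Fin.append ![u] (fun t => Sv D x (Q t) β)) * pl x y m b ^ q / c) := by
  by_cases hu0 : u = 0
  · -- a row is zero
    obtain ⟨A, hA, -⟩ := exists_alt (n := 1 + q) e x (tau D x)
    have h1 : AA e D x (Fin.append ![u] (fun t => Sv D x (Q t) β)) = 0 := by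
      have h2 : AA e D x (Fin.append ![u] (fun t => Sv D x (Q t) β)) =
          A (Fin.append ![u] (fun t => Sv D x (Q t) β)) := (hA _).symm
      rw [h2]
      refine A.map_coord_zero (Fin.castAdd q (0 : Fin 1)) ?_
      rw [Fin.append_left]
      exact hu0
    rw [h1, zero_mul, zero_div]
    refine ⟨∅, 0, by simp, fun O Δ _ _ _ _ _ _ => ?_⟩
    rw [mul_zero]
    exact O.zero_mem
  · obtain ⟨c0, hc0⟩ := hu
    have hc00 : c0 ≠ 0 := by
      rintro rfl
      rw [zero_smul] at hc0
      exact hu0 hc0
    have hwu : w = c0⁻¹ • u := by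
      rw [hc0, smul_smul, inv_mul_cancel₀ hc00, one_smul]
    have hspan : Submodule.span Ω {x, w} ≤
        Submodule.span Ω (insert x (Set.range (![u] : Fin 1 → Fin (N + 1) → Ω))) := by
      rw [Submodule.span_le]
      rintro v (rfl | hv)
      · exact Submodule.subset_span (Set.mem_insert _ _)
      · rw [Set.mem_singleton_iff] at hv
        rw [hv, hwu]
        exact Submodule.smul_mem _ _ (Submodule.subset_span
          (Set.mem_insert_of_mem _ ⟨0, rfl⟩))
    have hid := Pool.Agent.Helper64.CJ.idn e x h.x0 y β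
      (![u] : Fin 1 → Fin (N + 1) → Ω) (fun l P => hspan (h.H l P)) Q m b
    have haap := aap_at hB hn x y h.x0 h.F0 e
      (Fin.append ![u] (fun t => dvC D x (fun i => hf x m b * Q t i)))
      (fun j => Fin.addCases (motive := fun j => Fin.append ![u]
        (fun t => dvC D x (fun i => hf x m b * Q t i)) j ∈ TT a x)
        (fun i => by
          rw [Fin.append_left]
          have : i = 0 := Subsingleton.elim _ _
          rw [this]
          exact huT)
        (fun t => by
          rw [Fin.append_right]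
          exact hf_TT hB.dual x h.F0 hd (Q t) m b) j) m b hm hP
      (Fin.append (fun _ : Fin 1 => c) (fun _ : Fin q => x m ^ 2))
      (fun j => Fin.addCases (motive := fun j => (Fin.append (fun _ : Fin 1 => c)
        (fun _ : Fin q => x m ^ 2) : Fin (1 + q) → Ω) j ≠ 0)
        (fun i => by
          rw [Fin.append_left]
          exact hc)
        (fun t => by
          rw [Fin.append_right]
          exact pow_ne_zero _ hm) j)
      (fun j => Fin.addCases (motive := fun j => WtP D B x y m b
        ((Fin.append (fun _ : Fin 1 => c) (fun _ : Fin q => x m ^ 2) : Fin (1 + q) → Ω) j)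
        (Fin.append ![u] (fun t => dvC D x (fun i => hf x m b * Q t i)) j))
        (fun i => by
          rw [Fin.append_left, Fin.append_left]
          have : i = 0 := Subsingleton.elim _ _
          rw [this]
          exact hw)
        (fun t => by
          rw [Fin.append_right, Fin.append_right]
          obtain ⟨s, M, hs, hh⟩ := wt_hf (D := D) (B := B) x (Q t) (hQ t) m b
          exact ⟨s, M, hs, fun O Δ hΔ hsO hm' hmax _ _ => hh O Δ hΔ hsO m hm' hmax⟩) j)
    have hsum : ∑ i, d i = 1 + r + 2 * q := by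
      rw [Finset.sum_add_distrib] at hnum
      simp only [Finset.sum_const, Finset.card_univ, Fintype.card_fin, smul_eq_mul,
        mul_one] at hnum
      omega
    rw [Fin.prod_univ_add] at haap
    simp only [Fin.append_left, Fin.append_right, Finset.prod_const, Finset.card_univ,
      Fintype.card_fin, pow_one] at haap
    rw [← hid] at haap
    have hval : AA e D x (Fin.append ![u] (fun t => Sv D x (Q t) β)) * pl x y m b ^ q / c =
        AA e D x (Fin.append ![u] (fun t => Sv D x (Q t) β)) * pl x y m b ^ q *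
          x m ^ (∑ i, d i) / (x m ^ (1 + r) * (c * (x m ^ 2) ^ q)) := by
      rw [hsum, pow_add (x m) (1 + r) (2 * q), pow_mul (x m) 2 q]
      have h1 : x m ^ (1 + r) ≠ 0 := pow_ne_zero _ hm
      have h2 : (x m ^ 2) ^ q ≠ 0 := pow_ne_zero _ (pow_ne_zero _ hm)
      generalize x m ^ (1 + r) = X1 at h1 ⊢
      generalize (x m ^ 2) ^ q = X2 at h2 ⊢
      field_simp
    rw [hval]
    exact haap

end

end Pool.Agent.Helper10.CK
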