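import Pool.Agent.Helper10.CK.DgB

/-!
# CK-HESS: the derivative of `∂_w1 F | l = 0`

Step (8b) of note 3342. `Chain_rule` (`Helper10/CI/Chain.lean`) with `ph = Chain_ph x y β`, `E` the coefficientwise
derivation `Chain_D (Dg D g)`, applied to `pdF a w1 i = ∑_j w1_j ∂_j F_i`; `Chain_D (Dg D g) (Fp a i) = g i` for `g i`
homogeneous of degree `d i` (`Dg_a`). `ε (u, u')_i = ∑_l (u_l X_0 + u'_l X_β) Chain_ph (∂_l (pdF a w1 i))`.
For `u, u'` in `span {x, y}`: `∑_l x_l Chain_ph (∂_l G) = ∂_0 (Chain_ph G)` and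
`∑_l y_l Chain_ph (∂_l G) = ∂_β (Chain_ph G)` (chain rule for `pderiv`; `β ≠ 0`), zero for `G = pdF a w1 i`.
-/

set_option autoImplicit false

namespace Pool.Agent.Helper10.CK

open scoped BigOperators
open MvPolynomial Pool.Agent.Helper10.CI
open Pool.Agent.Helper8.LG (Bdd form mon Ix)
open Pool.Agent.Helper49.LN (cP mo hf pl)
open Pool.Agent.Helper6.QS (dv ev lf dt Par RatP)

section

variable {Ω : Type*} [Field Ω] [CharZero Ω] {N r n q : ℕ} {d : Fin r → ℕ}
  {D : Ix (Fin (N + 1)) d → Derivation ℤ Ω Ω} {a : Ix (Fin (N + 1)) d → Ω} {B : Subfield Ω}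
  {x y w : Fin (N + 1) → Ω} {β : Fin (N + 1)}

omit [CharZero Ω] in
private theorem Hess_smul (δ : Derivation ℤ Ω Ω) (c : Ω) (f : MvPolynomial (Fin (N + 1)) Ω) :
    Chain_D δ (c • f) = δ c • f + c • Chain_D δ f := by
  ext n
  rw [coeff_add, Chain_coeff, coeff_smul, coeff_smul, coeff_smul, Chain_coeff, smul_eq_mul,
    smul_eq_mul, smul_eq_mul, Derivation.leibniz, smul_eq_mul, smul_eq_mul]
  ring

omit [CharZero Ω] in
private theorem Hess_sum {ι : Type*} (s : Finset ι) (δ : Derivation ℤ Ω Ω)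
    (f : ι → MvPolynomial (Fin (N + 1)) Ω) :
    Chain_D δ (∑ i ∈ s, f i) = ∑ i ∈ s, Chain_D δ (f i) := by
  ext n
  rw [Chain_coeff, coeff_sum, coeff_sum, map_sum]
  exact Finset.sum_congr rfl fun i _ => (Chain_coeff δ (f i) n).symm

omit [CharZero Ω] in
private theorem Hess_pderiv (δ : Derivation ℤ Ω Ω) (j : Fin (N + 1))
    (f : MvPolynomial (Fin (N + 1)) Ω) : Chain_D δ (pderiv j f) = pderiv j (Chain_D δ f) := by
  ext n
  rw [Chain_coeff, coeff_pderiv, coeff_pderiv, Chain_coeff, Derivation.leibniz, smul_eq_mul,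
    smul_eq_mul, map_add, Derivation.map_natCast, Derivation.map_one_eq_zero]
  ring

omit [CharZero Ω] in
/-- a homogeneous polynomial as the sum over the symmetric power -/
private theorem Hess_form (k : ℕ) (f : MvPolynomial (Fin (N + 1)) Ω) (hf : f.IsHomogeneous k) :
    ∑ J : Sym (Fin (N + 1)) k, coeff (Multiset.toFinsupp (J : Multiset (Fin (N + 1)))) f •
      mo Ω (J : Multiset (Fin (N + 1))) = f := by
  classical
  ext n
  rw [coeff_sum]
  simp only [coeff_smul, smul_eq_mul, Pool.Agent.Helper49.LN.mo_eq, coeff_monomial]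
  by_cases h : Multiset.card (Finsupp.toMultiset n) = k
  · obtain ⟨J₀, hJ₀⟩ : ∃ J₀ : Sym (Fin (N + 1)) k,
        (J₀ : Multiset (Fin (N + 1))) = Finsupp.toMultiset n := ⟨Sym.mk _ h, rfl⟩
    refine (Finset.sum_eq_single J₀ (fun J _ hJ => ?_)
      (fun h2 => absurd (Finset.mem_univ _) h2)).trans ?_
    · rw [if_neg, mul_zero]
      intro h2
      apply hJ
      apply Sym.coe_injective
      rw [hJ₀, ← h2, Multiset.toFinsupp_toMultiset]
    · have h1 : Multiset.toFinsupp (J₀ : Multiset (Fin (N + 1))) = n := by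
        rw [hJ₀, Finsupp.toMultiset_toFinsupp]
      rw [h1, if_pos rfl, mul_one]
  · have h1 : coeff n f = 0 := by
      by_contra h2
      apply h
      rw [← Pool.Agent.Helper49.LN.toFinsupp_degree, Finsupp.toMultiset_toFinsupp]
      by_contra hne
      exact h2 (hf.coeff_eq_zero hne)
    rw [h1]
    refine Finset.sum_eq_zero fun J _ => ?_
    rw [if_neg, mul_zero]
    intro h2
    apply h
    rw [← h2, Multiset.toFinsupp_toMultiset]
    exact J.2

theorem hess (hD : ∀ s t : Ix (Fin (N + 1)) d, D t (a s) = if s = t then 1 else 0)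
    (hx : x 0 = 1) (hy : y 0 = 0) (hβ : y β = 1) (w1 : Fin (N + 1) → Ω)
    (hw1 : ∀ i, Chain_ph x y β (pdF a w1 i) = 0) :
    ∃ ε : ((Fin (N + 1) → Ω) × (Fin (N + 1) → Ω)) →ₗ[Ω] (Fin r → MvPolynomial (Fin (N + 1)) Ω),
      (∀ u u', u ∈ Submodule.span Ω {x, y} → u' ∈ Submodule.span Ω {x, y} → ε (u, u') = 0) ∧
      ∀ g : Fin r → MvPolynomial (Fin (N + 1)) Ω, (∀ i, (g i).IsHomogeneous (d i)) →
        (fun i => Chain_ph x y β (∑ j, w1 j • pderiv j (g i))) +
          (fun i => Chain_ph x y β (pdF a (fun l => Dg D g (w1 l)) i)) +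
          ε (fun l => Dg D g (x l), fun l => Dg D g (y l)) = 0 := by
  classical
  have hβ0 : β ≠ 0 := by
    rintro rfl
    rw [hy] at hβ
    exact zero_ne_one hβ
  -- the linear maps `u ↦ ∑ u_l (∂_l G | l)`
  obtain ⟨S, hS⟩ : ∃ S : Fin r → (Fin (N + 1) → Ω) →ₗ[Ω] MvPolynomial (Fin (N + 1)) Ω,
      ∀ i u, S i u = ∑ l, u l • Chain_ph x y β (pderiv l (pdF a w1 i)) := by
    refine ⟨fun i => Fintype.linearCombination Ω
      (fun l => Chain_ph x y β (pderiv l (pdF a w1 i))), fun i u => ?_⟩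
    rw [Fintype.linearCombination_apply]
  have hSx : ∀ i, S i x = 0 := by
    intro i
    have h2 : pderiv 0 (Chain_ph x y β (pdF a w1 i)) = 0 := by rw [hw1, map_zero]
    rw [Chain_rule (Chain_ph x y β) (fun f => pderiv 0 f) (fun _ => 0) (fun f g => map_add _ f g)
      (fun f g => by
        simp only [Derivation.leibniz, smul_eq_mul]
        ring) (fun f g => by simp) (fun f l => by simp)
      (fun c => by simp [Chain_ph])] at h2
    rw [map_zero, zero_add] at h2
    rw [hS]
    refine Eq.trans (Finset.sum_congr rfl fun l _ => ?_) h2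
    have h3 : pderiv 0 (Chain_ph x y β (X l)) = C (x l) := by
      rw [Chain_ph, aeval_X, map_add, smul_eq_C_mul, smul_eq_C_mul, pderiv_C_mul, pderiv_C_mul,
        pderiv_X_self, pderiv_X_of_ne hβ0, mul_one, mul_zero, add_zero]
    rw [h3, smul_eq_C_mul, mul_comm]
  have hSy : ∀ i, S i y = 0 := by
    intro i
    have h2 : pderiv β (Chain_ph x y β (pdF a w1 i)) = 0 := by rw [hw1, map_zero]
    rw [Chain_rule (Chain_ph x y β) (fun f => pderiv β f) (fun _ => 0) (fun f g => map_add _ f g)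
      (fun f g => by
        simp only [Derivation.leibniz, smul_eq_mul]
        ring) (fun f g => by simp) (fun f l => by simp)
      (fun c => by simp [Chain_ph])] at h2
    rw [map_zero, zero_add] at h2
    rw [hS]
    refine Eq.trans (Finset.sum_congr rfl fun l _ => ?_) h2
    have h3 : pderiv β (Chain_ph x y β (X l)) = C (y l) := by
      rw [Chain_ph, aeval_X, map_add, smul_eq_C_mul, smul_eq_C_mul, pderiv_C_mul, pderiv_C_mul,
        pderiv_X_self, pderiv_X_of_ne (Ne.symm hβ0), mul_one, mul_zero, zero_add]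
    rw [h3, smul_eq_C_mul, mul_comm]
  have hSxy : ∀ i, ∀ u ∈ Submodule.span Ω {x, y}, S i u = 0 := by
    intro i u hu
    have h1 : Submodule.span Ω {x, y} ≤ LinearMap.ker (S i) := by
      rw [Submodule.span_le]
      rintro v (rfl | rfl)
      · exact hSx i
      · exact hSy i
    exact h1 hu
  let ε : ((Fin (N + 1) → Ω) × (Fin (N + 1) → Ω)) →ₗ[Ω] (Fin r → MvPolynomial (Fin (N + 1)) Ω) :=
    { toFun := fun p i => S i p.1 * X 0 + S i p.2 * X β
      map_add' := by
        intro p q
        funext i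
        simp only [Prod.fst_add, Prod.snd_add, map_add, Pi.add_apply]
        ring
      map_smul' := by
        intro c p
        funext i
        simp only [Prod.smul_fst, Prod.smul_snd, map_smul, Pi.smul_apply, RingHom.id_apply,
          smul_add, smul_mul_assoc] }
  have hε : ∀ p i, ε p i = S i p.1 * X 0 + S i p.2 * X β := fun p i => rfl
  refine ⟨ε, fun u u' hu hu' => ?_, fun g hg => ?_⟩
  · funext i
    rw [hε, hSxy i u hu, hSxy i u' hu', zero_mul, zero_mul, add_zero]
    rfl
  · funext i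
    set δ : Derivation ℤ Ω Ω := Dg D g with hδ
    have hX : ∀ l, Chain_D δ (X l : MvPolynomial (Fin (N + 1)) Ω) = 0 := by
      intro l
      rw [X, Chain_monomial, Derivation.map_one_eq_zero, monomial_zero]
    have hF : Chain_D δ (Fp a i) = g i := by
      rw [Fp, Hess_sum, ← Hess_form (d i) (g i) (hg i)]
      refine Finset.sum_congr rfl fun J _ => ?_
      rw [Pool.Agent.Helper49.LN.mo_eq, smul_monomial, Chain_monomial, smul_monomial, smul_eq_mul,
        mul_one, smul_eq_mul, mul_one, hδ, Dg_a hD]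
    have hG : Chain_D δ (pdF a w1 i) = pdF a (fun l => δ (w1 l)) i +
        ∑ j, w1 j • pderiv j (g i) := by
      rw [pdF, Hess_sum, pdF, ← Finset.sum_add_distrib]
      refine Finset.sum_congr rfl fun j _ => ?_
      rw [Hess_smul, Hess_pderiv, hF]
    have h1 := Chain_rule (Chain_ph x y β) (Chain_D δ) (Chain_D δ) (Chain_add δ) (Chain_mul δ)
      (Chain_add δ) (fun f l => by rw [Chain_mul, hX, mul_zero, add_zero])
      (fun c => by
        have h2 : ∀ c : Ω, Chain_ph x y β (C c) = C c := fun c => by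
          rw [Chain_ph, aeval_C]
          rfl
        have h3 : Chain_D δ (C c : MvPolynomial (Fin (N + 1)) Ω) = C (δ c) :=
          Chain_monomial δ 0 c
        rw [h2, h3, h2]) (pdF a w1 i)
    have h0 : Chain_D δ (0 : MvPolynomial (Fin (N + 1)) Ω) = 0 := by
      ext n
      rw [Chain_coeff, coeff_zero, map_zero]
    rw [hw1, h0, hG, map_add] at h1
    have h4 : ∑ l, Chain_ph x y β (pderiv l (pdF a w1 i)) * Chain_D δ (Chain_ph x y β (X l)) =
        S i (fun l => δ (x l)) * X 0 + S i (fun l => δ (y l)) * X β := by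
      rw [hS, hS, Finset.sum_mul, Finset.sum_mul, ← Finset.sum_add_distrib]
      refine Finset.sum_congr rfl fun l _ => ?_
      rw [Chain_ph, aeval_X, Chain_add, Hess_smul, Hess_smul, hX, hX, smul_zero, smul_zero,
        add_zero, add_zero]
      simp only [smul_eq_C_mul]
      ring
    rw [h4] at h1
    rw [Pi.add_apply, Pi.add_apply, hε, Pi.zero_apply, h1]
    ring

end

end Pool.Agent.Helper10.CK
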