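import Pool.Agent.Helper10.CK.PBd

/-!
# CK-NCB: the weights of the `nc`

`r_l - y_l r_β = pl 0 β X_l - pl 0 l X_β + pl β l X_0` (`x_0 = 1`, `y_0 = 0`, `y_β = 1`): the coefficients are sums of
Pluecker coordinates (`bdp_pl`). `nc_wt`: `D_J x = x_m D_J (x / x_m) + (D_J x_m / x_m) x`.
-/

set_option autoImplicit false

namespace Pool.Agent.Helper10.CK

open scoped BigOperators
open MvPolynomial Pool.Agent.Helper10.CI
open Pool.Agent.Helper8.LG (Bdd form mon Ix)
open Pool.Agent.Helper49.LN (cP mo hf pl)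
open Pool.Agent.Helper6.QS (dv ev lf dt Par RatP)

section

variable {Ω : Type*} [Field Ω] [CharZero Ω] {N r n q : ℕ} {d : Fin r → ℕ}
  {D : Ix (Fin (N + 1)) d → Derivation ℤ Ω Ω} {a : Ix (Fin (N + 1)) d → Ω} {B : Subfield Ω}
  {x y w : Fin (N + 1) → Ω} {β : Fin (N + 1)}

omit [CharZero Ω] in
/-- the spanning elements in terms of the Pluecker coordinates -/
theorem NcB_form (hx : x 0 = 1) (hy : y 0 = 0) (hβ : y β = 1) (l : Fin (N + 1)) :
    rl x l - y l • rl x β =
      pl x y 0 β • X l - pl x y 0 l • X β + pl x y β l • (X 0 : MvPolynomial (Fin (N + 1)) Ω) := by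
  unfold rl pl
  rw [hx, hy, hβ]
  simp only [smul_eq_C_mul, map_sub, map_mul, map_one, map_zero]
  ring

omit [CharZero Ω] in
theorem NcB_mo (O : ValuationSubring Ω) (K : Multiset (Fin (N + 1))) (l : Fin (N + 1))
    (k : Fin (N + 1) →₀ ℕ) : coeff k (mo Ω K * X l) ∈ O := by
  classical
  have h1 : mo Ω K * X l = mo Ω (l ::ₘ K) := by
    unfold mo
    rw [Multiset.map_cons, Multiset.prod_cons, mul_comm]
  rw [h1, Pool.Agent.Helper49.LN.mo_eq, coeff_monomial]
  split_ifs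
  · exact O.one_mem
  · exact O.zero_mem

omit [CharZero Ω] in
theorem NcB_mem (hx : x 0 = 1) (hy : y 0 = 0) (hβ : y β = 1) (i : Fin r)
    (K : Multiset (Fin (N + 1))) (l m b : Fin (N + 1)) (O : ValuationSubring Ω)
    (hP : ∀ j l, pl x y j l / pl x y m b ∈ O) (i' : Fin r) (k : Fin (N + 1) →₀ ℕ) :
    coeff k (nc x y β i K l i') / pl x y m b ∈ O := by
  unfold nc sg
  by_cases hi : i' = i
  · subst hi
    rw [Pi.single_eq_same, NcB_form hx hy hβ]
    have h1 : coeff k (mo Ω K * (pl x y 0 β • X l - pl x y 0 l • X β +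
        pl x y β l • (X 0 : MvPolynomial (Fin (N + 1)) Ω))) / pl x y m b =
        pl x y 0 β / pl x y m b * coeff k (mo Ω K * X l) -
          pl x y 0 l / pl x y m b * coeff k (mo Ω K * X β) +
            pl x y β l / pl x y m b * coeff k (mo Ω K * X 0) := by
      rw [mul_add, mul_sub, mul_smul_comm, mul_smul_comm, mul_smul_comm, coeff_add, coeff_sub,
        coeff_smul, coeff_smul, coeff_smul]
      simp only [smul_eq_mul]
      ring
    rw [h1]
    exact O.add_mem _ _ (O.toSubring.sub_mem (O.mul_mem _ _ (hP _ _) (NcB_mo O K l k))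
      (O.mul_mem _ _ (hP _ _) (NcB_mo O K β k))) (O.mul_mem _ _ (hP _ _) (NcB_mo O K 0 k))
  · rw [Pi.single_eq_of_ne hi, coeff_zero, zero_div]
    exact O.zero_mem

theorem nc_coef (hx : x 0 = 1) (hy : y 0 = 0) (hβ : y β = 1) (i : Fin r)
    (K : Multiset (Fin (N + 1))) (l m b : Fin (N + 1)) (hm : x m ≠ 0) (hP : pl x y m b ≠ 0)
    (i' : Fin r) (J : Sym (Fin (N + 1)) (d i')) :
    BdP D B x y m b (coeff (Multiset.toFinsupp (J : Multiset (Fin (N + 1)))) (nc x y β i K l i') / pl x y m b) := by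
  refine ⟨∅, 0, fun c hc => absurd hc (Finset.notMem_empty c), fun O Δ _ _ _ _ _ hmax => ?_⟩
  rw [pow_zero, one_mul]
  exact NcB_mem hx hy hβ i K l m b O hmax i' _

theorem nc_wt (hx : x 0 = 1) (hy : y 0 = 0) (hβ : y β = 1) (i : Fin r)
    (K : Multiset (Fin (N + 1))) (l m b : Fin (N + 1)) (hm : x m ≠ 0) (hP : pl x y m b ≠ 0) :
    WtP D B x y m b (x m * pl x y m b) (dvC D x (nc x y β i K l)) := by
  refine ⟨∅, 1, fun c hc => absurd hc (Finset.notMem_empty c), fun O Δ hΔ _ _ hxm _ hmax => ?_⟩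
  obtain ⟨c, hc⟩ := dvC_scale (D := D) x m hm (nc x y β i K l)
  refine ⟨c, dvC D (fun l => x l / x m) ((pl x y m b)⁻¹ • nc x y β i K l), ?_, fun l' => ?_⟩
  · rw [map_smul, smul_smul, mul_assoc, mul_inv_cancel₀ hP, mul_one]
    exact hc
  · refine dvC_bdd _ O Δ hΔ hxm ((pl x y m b)⁻¹ • nc x y β i K l) 0 (fun i' k => ?_) l'
    rw [pow_zero, one_mul, Pi.smul_apply, coeff_smul, smul_eq_mul, mul_comm, ← div_eq_mul_inv]
    exact NcB_mem hx hy hβ i K l m b O hmax i' k

end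

end Pool.Agent.Helper10.CK
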