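import Pool.Agent.Helper10.CK.Defs

/-!
# CK-NICEJ: `JJ` is spanned by the `nc`

A homogeneous `g` of degree `k` with `Chain_ph g = 0` is in the span of the `X^K (r_l - y_l r_β)`, `|K| = k - 1`
(`g - psi g` is by induction on the monomials: replace `X_l = x_l X_0 + y_l r_β + (r_l - y_l r_β)` one factor at a
time; `psi g = 0` by `Chain_rh_ph`).
-/

set_option autoImplicit false

namespace Pool.Agent.Helper10.CK

open scoped BigOperators
open MvPolynomial Pool.Agent.Helper10.CI
open Pool.Agent.Helper8.LG (Bdd form mon Ix)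
open Pool.Agent.Helper49.LN (cP mo hf pl)
open Pool.Agent.Helper6.QS (dv ev lf dt Par RatP)

section

variable {Ω : Type*} [Field Ω] [CharZero Ω] {N r n q : ℕ} {d : Fin r → ℕ}
  {D : Ix (Fin (N + 1)) d → Derivation ℤ Ω Ω} {a : Ix (Fin (N + 1)) d → Ω} {B : Subfield Ω}
  {x y w : Fin (N + 1) → Ω} {β : Fin (N + 1)}

omit [CharZero Ω] in
theorem NiceJ_rl_hom (x : Fin (N + 1) → Ω) (l : Fin (N + 1)) : (rl x l).IsHomogeneous 1 := by
  refine (isHomogeneous_X Ω l).sub ?_
  rw [smul_eq_C_mul]
  simpa using (isHomogeneous_C (Fin (N + 1)) (x l)).mul (isHomogeneous_X Ω (0 : Fin (N + 1)))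

omit [CharZero Ω] in
theorem NiceJ_hom (x y : Fin (N + 1) → Ω) (β l : Fin (N + 1)) :
    (rl x l - y l • rl x β).IsHomogeneous 1 := by
  refine (NiceJ_rl_hom x l).sub ?_
  rw [smul_eq_C_mul]
  simpa using (isHomogeneous_C (Fin (N + 1)) (y l)).mul (NiceJ_rl_hom x β)

omit [CharZero Ω] in
theorem NiceJ_ph (hx : x 0 = 1) (hy : y 0 = 0) (hβ : y β = 1) (l : Fin (N + 1)) :
    Chain_ph x y β (rl x l - y l • rl x β) = 0 := by
  have h1 : ∀ l, Chain_ph x y β (rl x l) = y l • X β := by
    intro l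
    rw [rl, map_sub, map_smul, Chain_ph, aeval_X, aeval_X, hx, hy, one_smul, zero_smul, add_zero,
      add_sub_cancel_left]
  rw [map_sub, map_smul, h1, h1, hβ, one_smul, sub_self]

theorem nc_mem (hx : x 0 = 1) (hy : y 0 = 0) (hβ : y β = 1) (i : Fin r)
    (K : Multiset (Fin (N + 1))) (l : Fin (N + 1)) (hK : Multiset.card K + 1 = d i) :
    nc x y β i K l ∈ JJ d x y β := by
  intro j
  by_cases hj : j = i
  · subst hj
    unfold nc sg
    rw [Pi.single_eq_same]
    refine ⟨?_, ?_⟩
    · rw [← hK]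
      exact (Pool.Agent.Helper49.LN.mo_hom K).mul (NiceJ_hom x y β l)
    · rw [map_mul, NiceJ_ph hx hy hβ, mul_zero]
  · unfold nc sg
    rw [Pi.single_eq_of_ne hj]
    exact ⟨isHomogeneous_zero _ _ _, map_zero _⟩

/-- the span in one degree -/
noncomputable def NiceJ_W (x y : Fin (N + 1) → Ω) (β : Fin (N + 1)) (k : ℕ) :
    Submodule Ω (MvPolynomial (Fin (N + 1)) Ω) :=
  Submodule.span Ω {f | ∃ (K : Multiset (Fin (N + 1))) (l : Fin (N + 1)),
    Multiset.card K + 1 = k ∧ f = mo Ω K * (rl x l - y l • rl x β)}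

omit [CharZero Ω] in
theorem NiceJ_mo_cons (b : Fin (N + 1)) (K : Multiset (Fin (N + 1))) :
    mo Ω (b ::ₘ K) = X b * mo Ω K := by
  unfold mo
  rw [Multiset.map_cons, Multiset.prod_cons]

omit [CharZero Ω] in
theorem NiceJ_mul (x y : Fin (N + 1) → Ω) (β : Fin (N + 1)) (k : ℕ) (b : Fin (N + 1))
    (f : MvPolynomial (Fin (N + 1)) Ω) (hf : f ∈ NiceJ_W x y β k) :
    X b * f ∈ NiceJ_W x y β (k + 1) := by
  unfold NiceJ_W at hf
  induction hf using Submodule.span_induction with
  | mem f hf =>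
    obtain ⟨K, l, hK, rfl⟩ := hf
    refine Submodule.subset_span ⟨b ::ₘ K, l, by rw [Multiset.card_cons, hK], ?_⟩
    rw [NiceJ_mo_cons, mul_assoc]
  | zero =>
    rw [mul_zero]
    exact Submodule.zero_mem _
  | add f g _ _ hf hg =>
    rw [mul_add]
    exact Submodule.add_mem _ hf hg
  | smul c f _ hf =>
    rw [mul_smul_comm]
    exact Submodule.smul_mem _ _ hf

omit [CharZero Ω] in
theorem NiceJ_mo (x y : Fin (N + 1) → Ω) (β : Fin (N + 1)) (K : Multiset (Fin (N + 1))) :
    mo Ω K - psi x y β (mo Ω K) ∈ NiceJ_W x y β (Multiset.card K) := by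
  induction K using Multiset.induction_on with
  | empty =>
    have h1 : mo Ω (0 : Multiset (Fin (N + 1))) = 1 := by simp [mo]
    rw [h1, map_one, sub_self]
    exact Submodule.zero_mem _
  | cons b K ih =>
    rw [NiceJ_mo_cons, map_mul, Multiset.card_cons]
    have h1 : X b * mo Ω K - psi x y β (X b) * psi x y β (mo Ω K) =
        mo Ω K * (rl x b - y b • rl x β) + psi x y β (X b) * (mo Ω K - psi x y β (mo Ω K)) := by
      have h2 : (X b : MvPolynomial (Fin (N + 1)) Ω) =
          (rl x b - y b • rl x β) + psi x y β (X b) := by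
        rw [Psi_X, rl]
        abel
      linear_combination mo Ω K * h2
    rw [h1]
    refine Submodule.add_mem _ (Submodule.subset_span ⟨K, b, rfl, rfl⟩) ?_
    have h3 : psi x y β (X b) = (x b - y b * x β) • X 0 + y b • X β := by
      rw [Psi_X, rl]
      simp only [smul_eq_C_mul, map_sub, map_mul]
      ring
    rw [h3, add_mul, smul_mul_assoc, smul_mul_assoc]
    exact Submodule.add_mem _ (Submodule.smul_mem _ _ (NiceJ_mul x y β _ 0 _ ih))
      (Submodule.smul_mem _ _ (NiceJ_mul x y β _ β _ ih))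

omit [CharZero Ω] in
theorem NiceJ_one (hy : y 0 = 0) (hβ : y β = 1) (k : ℕ)
    (f : MvPolynomial (Fin (N + 1)) Ω) (hf : f.IsHomogeneous k) (h0 : Chain_ph x y β f = 0) :
    f ∈ NiceJ_W x y β k := by
  have hβ0 : β ≠ 0 := by
    intro h
    rw [h, hy] at hβ
    exact zero_ne_one hβ
  have hpsi : psi x y β f = 0 := by
    rw [← Chain_rh_ph x y β hβ0, h0, map_zero]
  have h1 : f = f - psi x y β f := by rw [hpsi, sub_zero]
  rw [h1]
  have h2 : f - psi x y β f = ∑ m ∈ f.support, coeff m f •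
      (monomial m (1 : Ω) - psi x y β (monomial m (1 : Ω))) := by
    conv_lhs => rw [f.as_sum]
    rw [map_sum, ← Finset.sum_sub_distrib]
    refine Finset.sum_congr rfl fun m _ => ?_
    have e : monomial m (coeff m f) = coeff m f • (monomial m (1 : Ω)) := by
      rw [smul_monomial, smul_eq_mul, mul_one]
    rw [e, map_smul, smul_sub]
  rw [h2]
  refine Submodule.sum_mem _ fun m hm => Submodule.smul_mem _ _ ?_
  have h3 : monomial m (1 : Ω) = mo Ω (Finsupp.toMultiset m) := by
    rw [Pool.Agent.Helper49.LN.mo_eq, Finsupp.toMultiset_toFinsupp]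
  have h4 : Multiset.card (Finsupp.toMultiset m) = k := by
    rw [← Pool.Agent.Helper49.LN.toFinsupp_degree, Finsupp.toMultiset_toFinsupp]
    have h5 := hf (mem_support_iff.1 hm)
    rw [Finsupp.degree_eq_weight_one]
    exact h5
  have h6 := NiceJ_mo x y β (Finsupp.toMultiset m)
  rw [h4] at h6
  rw [h3]
  exact h6

theorem nice (hd : ∀ i, 1 ≤ d i) (hx : x 0 = 1) (hy : y 0 = 0) (hβ : y β = 1) :
    JJ d x y β ≤ Submodule.span Ω {g | ∃ (i : Fin r) (K : Multiset (Fin (N + 1)))
      (l : Fin (N + 1)), Multiset.card K + 1 = d i ∧ g = nc x y β i K l} := by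
  intro g hg
  have h1 : g = ∑ i, sg i (g i) := by
    funext j
    rw [Finset.sum_apply, Finset.sum_eq_single j]
    · rw [sg, Pi.single_eq_same]
    · intro i _ hi
      rw [sg, Pi.single_eq_of_ne (Ne.symm hi)]
    · intro h
      exact absurd (Finset.mem_univ j) h
  rw [h1]
  refine Submodule.sum_mem _ fun i _ => ?_
  have h2 := NiceJ_one hy hβ (d i) (g i) (hg i).1 (hg i).2
  unfold NiceJ_W at h2
  generalize g i = f at h2 ⊢
  induction h2 using Submodule.span_induction with
  | mem f hf =>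
    obtain ⟨K, l, hK, rfl⟩ := hf
    exact Submodule.subset_span ⟨i, K, l, hK, rfl⟩
  | zero =>
    have h3 : sg i (0 : MvPolynomial (Fin (N + 1)) Ω) = 0 := by
      unfold sg
      exact Pi.single_zero i
    rw [h3]
    exact Submodule.zero_mem _
  | add f g _ _ hf hg =>
    have h3 : sg i (f + g) = sg i f + sg i g :=
      (LinearMap.single Ω (fun _ : Fin r => MvPolynomial (Fin (N + 1)) Ω) i).map_add f g
    rw [h3]
    exact Submodule.add_mem _ hf hg
  | smul c f _ hf =>
    have h3 : sg i (c • f) = c • sg i f :=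
      (LinearMap.single Ω (fun _ : Fin r => MvPolynomial (Fin (N + 1)) Ω) i).map_smul c f
    rw [h3]
    exact Submodule.smul_mem _ _ hf

end

end Pool.Agent.Helper10.CK
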