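import Pool.Agent.Helper10.CK.Defs
import Pool.Agent.Helper10.CI.Lin

/-!
# CK-NOL: no line lies in all the hypersurfaces

`no_line`: `Lin_gen` with `α = 0`, `u = x - x_β y`, `v = y`: `F_i (u + n v) ≠ 0` for some `i`, `n`, and this is a value
of `Chain_ph (Fp a i)` (at `X_0 = 1`, `X_β = n - x_β`, `Fp_eval`). `in_line`: `w1 = c x + c' y`, `c' ≠ 0`; with
`f = Chain_ph (Fp a i)`: `c ∂_0 f + c' ∂_β f = Chain_ph (pdF a w1 i) = 0` (chain rule for `pderiv`), `f` is
homogeneous of degree `d_i` in `X_0, X_β` only and its value at `X_0 = 1`, others `0`, is `F_i(x) = 0`, so `f = 0`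
(substitute `X_β = s + c' t`.., or: all coefficients by induction, characteristic zero). `x_pow`: if
`Chain_ph (pdF a x i) = ∂_0 f = 0`, then `f = c X_β^(d_i)`, `c = F_i(y)`.
-/

set_option autoImplicit false

namespace Pool.Agent.Helper10.CK

open scoped BigOperators
open MvPolynomial Pool.Agent.Helper10.CI
open Pool.Agent.Helper8.LG (Bdd form mon Ix)
open Pool.Agent.Helper49.LN (cP mo hf pl)
open Pool.Agent.Helper6.QS (dv ev lf dt Par RatP)

section

variable {Ω : Type*} [Field Ω] [CharZero Ω] {N r n q : ℕ} {d : Fin r → ℕ}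
  {D : Ix (Fin (N + 1)) d → Derivation ℤ Ω Ω} {a : Ix (Fin (N + 1)) d → Ω} {B : Subfield Ω}
  {x y w : Fin (N + 1) → Ω} {β : Fin (N + 1)}

theorem NoL_b0 (hy : y 0 = 0) (hβ : y β = 1) : β ≠ 0 := by
  rintro rfl
  rw [hy] at hβ
  exact zero_ne_one hβ

/-- the values of the restriction to the line -/
theorem NoL_eval (x y : Fin (N + 1) → Ω) (β : Fin (N + 1)) (f : MvPolynomial (Fin (N + 1)) Ω)
    (v : Fin (N + 1) → Ω) :
    eval v (Chain_ph x y β f) = eval (fun l => x l * v 0 + y l * v β) f := by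
  have h : ((aeval v : MvPolynomial (Fin (N + 1)) Ω →ₐ[Ω] Ω)).comp (Chain_ph x y β) =
      aeval (fun l => x l * v 0 + y l * v β) := by
    refine MvPolynomial.algHom_ext fun l => ?_
    rw [AlgHom.comp_apply, Chain_ph, aeval_X, map_add, map_smul, map_smul, aeval_X, aeval_X, aeval_X,
      smul_eq_mul, smul_eq_mul]
  have h1 := DFunLike.congr_fun h f
  rw [AlgHom.comp_apply, aeval_eq_eval, aeval_eq_eval] at h1
  exact h1

/-- the restriction is a power of `X_β` if its derivative with respect to `X_0` vanishes -/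
theorem NoL_pow (x y : Fin (N + 1) → Ω) (β : Fin (N + 1)) (hβ0 : β ≠ 0) (i : Fin r)
    (h : Chain_ph x y β (pdF a x i) = 0) :
    Chain_ph x y β (Fp a i) = (form (fun J => a ⟨i, J⟩) y) • X β ^ d i := by
  have h2 : pderiv 0 (Chain_ph x y β (Fp a i)) = 0 := by
    rw [Chain_rule (Chain_ph x y β) (fun f => pderiv 0 f) (fun _ => 0) (fun f g => map_add _ f g)
      (fun f g => by
        simp only [Derivation.leibniz, smul_eq_mul]
        ring) (fun f g => by simp) (fun f l => by simp)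
      (fun c => by simp [Chain_ph])]
    rw [map_zero, zero_add]
    rw [pdF, map_sum] at h
    refine Eq.trans (Finset.sum_congr rfl fun l _ => ?_) h
    have h3 : pderiv 0 (Chain_ph x y β (X l)) = C (x l) := by
      rw [Chain_ph, aeval_X, map_add, smul_eq_C_mul, smul_eq_C_mul, pderiv_C_mul, pderiv_C_mul,
        pderiv_X_self, pderiv_X_of_ne hβ0, mul_one, mul_zero, add_zero]
    rw [h3, map_smul, smul_eq_C_mul, mul_comm]
  have h4 := Chain_nox _ h2
  rw [← Fp_eval a y i, ← h4, ← Chain_hom_eval y (X β) (d i) _ (Fp_hom a i)]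
  have h6 : (aeval (fun l => if l = 0 then (0 : MvPolynomial (Fin (N + 1)) Ω) else X l)).comp
      (Chain_ph x y β) = aeval (fun l => y l • X β) := by
    refine MvPolynomial.algHom_ext fun l => ?_
    rw [AlgHom.comp_apply, Chain_ph, aeval_X, map_add, map_smul, map_smul, aeval_X, aeval_X,
      aeval_X, if_pos rfl, if_neg hβ0, smul_zero, zero_add]
  rw [← h6]
  rfl

theorem no_line (hD : ∀ s t : Ix (Fin (N + 1)) d, D t (a s) = if s = t then 1 else 0)
    (hnum : ∑ i, (d i + 1) + 1 = 2 * N) (hx : x 0 = 1) (hy : y 0 = 0) (hβ : y β = 1) :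
    ∃ i, Chain_ph x y β (Fp a i) ≠ 0 := by
  have hβ0 : β ≠ 0 := NoL_b0 hy hβ
  obtain ⟨i, n, hn⟩ := Lin_gen hD (by
    rw [Fintype.card_fin]
    omega) 0 β (Ne.symm hβ0) (fun l => x l - x β * y l) y (by rw [hx, hy]; ring)
    (by rw [hβ]; ring) hy hβ
  refine ⟨i, fun h => hn ?_⟩
  have h1 := NoL_eval x y β (Fp a i) (fun l => if l = β then (n : Ω) - x β else 1)
  rw [h, map_zero, if_pos rfl, if_neg (Ne.symm hβ0)] at h1
  rw [← Fp_eval]
  refine Eq.trans ?_ h1.symm
  congr 2
  funext l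
  ring

theorem in_line (hF : ∀ i, form (fun J => a ⟨i, J⟩) x = 0) (hx : x 0 = 1) (hy : y 0 = 0)
    (hβ : y β = 1) (c c' : Ω) (hc : c' ≠ 0) (i : Fin r)
    (h : Chain_ph x y β (pdF a (c • x + c' • y) i) = 0) : Chain_ph x y β (Fp a i) = 0 := by
  have hβ0 : β ≠ 0 := NoL_b0 hy hβ
  have h1 : (aeval (fun l : Fin (N + 1) => if l = 0 then c • X 0 + X β else if l = β then c' • X 0
      else (X l : MvPolynomial (Fin (N + 1)) Ω))).comp (Chain_ph x y β) =
      Chain_ph (c • x + c' • y) x β := by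
    refine MvPolynomial.algHom_ext fun l => ?_
    rw [AlgHom.comp_apply, Chain_ph, aeval_X, map_add, map_smul, map_smul, aeval_X, aeval_X,
      if_pos rfl, if_neg hβ0, if_pos rfl, Chain_ph, aeval_X, Pi.add_apply, Pi.smul_apply, Pi.smul_apply,
      smul_eq_mul, smul_eq_mul]
    module
  have h2 : (aeval (fun l : Fin (N + 1) => if l = 0 then c'⁻¹ • X β else if l = β then
      X 0 - (c * c'⁻¹) • X β else (X l : MvPolynomial (Fin (N + 1)) Ω))).comp
      (Chain_ph (c • x + c' • y) x β) = Chain_ph x y β := by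
    refine MvPolynomial.algHom_ext fun l => ?_
    rw [AlgHom.comp_apply, Chain_ph, aeval_X, map_add, map_smul, map_smul, aeval_X, aeval_X,
      if_pos rfl, if_neg hβ0, if_pos rfl, Chain_ph, aeval_X, Pi.add_apply, Pi.smul_apply, Pi.smul_apply,
      smul_eq_mul, smul_eq_mul, smul_smul, smul_sub, smul_smul]
    have h3 : (c * x l + c' * y l) * c'⁻¹ = x l * (c * c'⁻¹) + y l := by
      field_simp
    rw [h3]
    module
  have h3 : Chain_ph (c • x + c' • y) x β (pdF a (c • x + c' • y) i) = 0 := by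
    rw [← h1, AlgHom.comp_apply, h, map_zero]
  have h4 := NoL_pow (c • x + c' • y) x β hβ0 i h3
  rw [hF i, zero_smul] at h4
  rw [← h2, AlgHom.comp_apply, h4, map_zero]

theorem x_pow (hx : x 0 = 1) (hy : y 0 = 0) (hβ : y β = 1) (i : Fin r)
    (h : Chain_ph x y β (pdF a x i) = 0) :
    Chain_ph x y β (Fp a i) = (form (fun J => a ⟨i, J⟩) y) • X β ^ d i :=
  NoL_pow x y β (NoL_b0 hy hβ) i h

end

end Pool.Agent.Helper10.CK
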