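import Pool.Agent.Helper10.CK.Defs

/-!
# CK-PBD: calculus of `BdP`

As `Helper10/CI/Bd.lean`. `bdp_mem`: at a valuation ring `O` choose `m` with `x_m` maximal
(`rat_max` of `CI/Rat.lean`) and then `b` with `pl x y m b` maximal among the `pl x y m b'`; then
`pl x y m b` is maximal among all `pl x y j l`, because
`x_m pl j l = x_j pl m l - x_l pl m j`. `bdp_line`: `G * pl j l = (G * pl m b) * (pl j l / pl m b)` is in
`B` by `bdp_mem`, also for `j = 0`, `l = β`, so `G ∈ B`.
-/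

set_option autoImplicit false

namespace Pool.Agent.Helper10.CK

open scoped BigOperators
open MvPolynomial Pool.Agent.Helper10.CI
open Pool.Agent.Helper8.LG (Bdd form mon Ix)
open Pool.Agent.Helper49.LN (cP mo hf pl)
open Pool.Agent.Helper6.QS (dv ev lf dt Par RatP)

section

variable {Ω : Type*} [Field Ω] [CharZero Ω] {N r n q : ℕ} {d : Fin r → ℕ}
  {D : Ix (Fin (N + 1)) d → Derivation ℤ Ω Ω} {a : Ix (Fin (N + 1)) d → Ω} {B : Subfield Ω}
  {x y w : Fin (N + 1) → Ω} {β : Fin (N + 1)}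

variable {m b : Fin (N + 1)}

theorem bdp_const (c : Ω) (hc : c ∈ B) : BdP D B x y m b c := by
  refine ⟨{c}, 1, by simpa using hc, fun O Δ _ hsO _ _ _ _ => ?_⟩
  rw [pow_one]
  exact hsO c (Finset.mem_singleton_self c)

theorem bdp_of {z : Ω} (hz : BddAt D B x m z) : BdP D B x y m b z := by
  obtain ⟨s, M, hs, h⟩ := hz
  exact ⟨s, M, hs, fun O Δ hΔ hsO hm hmax _ _ => h O Δ hΔ hsO hm hmax⟩

theorem bdp_x (l : Fin (N + 1)) : BdP D B x y m b (x l / x m) := by
  refine ⟨∅, 0, by simp, fun O Δ _ _ _ hmax _ _ => ?_⟩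
  rw [pow_zero, one_mul]
  exact hmax l

theorem bdp_pl (j l : Fin (N + 1)) : BdP D B x y m b (pl x y j l / pl x y m b) := by
  refine ⟨∅, 0, by simp, fun O Δ _ _ _ _ _ hmax => ?_⟩
  rw [pow_zero, one_mul]
  exact hmax j l

theorem bdp_inv (h0 : pl x y 0 β = 1) : BdP D B x y m b (pl x y m b)⁻¹ := by
  have h1 : BdP D B x y m b (pl x y 0 β / pl x y m b) := bdp_pl 0 β
  rwa [h0, one_div] at h1

theorem bdp_add {z z' : Ω} (hz : BdP D B x y m b z) (hz' : BdP D B x y m b z') :
    BdP D B x y m b (z + z') := by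
  classical
  obtain ⟨s, M, hs, h⟩ := hz
  obtain ⟨s', M', hs', h'⟩ := hz'
  refine ⟨s ∪ s', M + M', ?_, fun O Δ hΔ hsO hm hmax hp hpm => ?_⟩
  · intro c hc
    rcases Finset.mem_union.1 hc with hc | hc
    · exact hs c hc
    · exact hs' c hc
  · have h1 := h O Δ hΔ (fun c hc => hsO c (Finset.mem_union_left _ hc)) hm hmax hp hpm
    have h2 := h' O Δ hΔ (fun c hc => hsO c (Finset.mem_union_right _ hc)) hm hmax hp hpm
    have h3 : Δ ^ (M + M') * (z + z') = Δ ^ M' * (Δ ^ M * z) + Δ ^ M * (Δ ^ M' * z') := by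
      ring
    rw [h3]
    exact O.add_mem _ _ (O.mul_mem _ _ (Bd_pow_mem hΔ _) h1) (O.mul_mem _ _ (Bd_pow_mem hΔ _) h2)

theorem bdp_neg {z : Ω} (hz : BdP D B x y m b z) : BdP D B x y m b (-z) := by
  obtain ⟨s, M, hs, h⟩ := hz
  refine ⟨s, M, hs, fun O Δ hΔ hsO hm hmax hp hpm => ?_⟩
  rw [mul_neg]
  exact O.neg_mem _ (h O Δ hΔ hsO hm hmax hp hpm)

theorem bdp_sub {z z' : Ω} (hz : BdP D B x y m b z) (hz' : BdP D B x y m b z') :
    BdP D B x y m b (z - z') := by
  rw [sub_eq_add_neg]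
  exact bdp_add hz (bdp_neg hz')

theorem bdp_mul {z z' : Ω} (hz : BdP D B x y m b z) (hz' : BdP D B x y m b z') :
    BdP D B x y m b (z * z') := by
  classical
  obtain ⟨s, M, hs, h⟩ := hz
  obtain ⟨s', M', hs', h'⟩ := hz'
  refine ⟨s ∪ s', M + M', ?_, fun O Δ hΔ hsO hm hmax hp hpm => ?_⟩
  · intro c hc
    rcases Finset.mem_union.1 hc with hc | hc
    · exact hs c hc
    · exact hs' c hc
  · have h1 := h O Δ hΔ (fun c hc => hsO c (Finset.mem_union_left _ hc)) hm hmax hp hpm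
    have h2 := h' O Δ hΔ (fun c hc => hsO c (Finset.mem_union_right _ hc)) hm hmax hp hpm
    have h3 : Δ ^ (M + M') * (z * z') = (Δ ^ M * z) * (Δ ^ M' * z') := by
      ring
    rw [h3]
    exact O.mul_mem _ _ h1 h2

theorem bdp_pow {z : Ω} (hz : BdP D B x y m b z) (k : ℕ) : BdP D B x y m b (z ^ k) := by
  induction k with
  | zero =>
    rw [pow_zero]
    exact bdp_const 1 B.one_mem
  | succ k ih =>
    rw [pow_succ]
    exact bdp_mul ih hz

theorem bdp_sum {ι : Type*} (s : Finset ι) (f : ι → Ω) (h : ∀ i ∈ s, BdP D B x y m b (f i)) :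
    BdP D B x y m b (∑ i ∈ s, f i) := by
  classical
  induction s using Finset.induction_on with
  | empty =>
    rw [Finset.sum_empty]
    exact bdp_const 0 B.zero_mem
  | insert i s hi ih =>
    rw [Finset.sum_insert hi]
    exact bdp_add (h i (Finset.mem_insert_self i s))
      (ih fun j hj => h j (Finset.mem_insert_of_mem hj))

theorem bdp_prod {ι : Type*} (s : Finset ι) (f : ι → Ω) (h : ∀ i ∈ s, BdP D B x y m b (f i)) :
    BdP D B x y m b (∏ i ∈ s, f i) := by
  classical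
  induction s using Finset.induction_on with
  | empty =>
    rw [Finset.prod_empty]
    exact bdp_const 1 B.one_mem
  | insert i s hi ih =>
    rw [Finset.prod_insert hi]
    exact bdp_mul (h i (Finset.mem_insert_self i s))
      (ih fun j hj => h j (Finset.mem_insert_of_mem hj))

theorem bdp_mem (hB : Frame D a B) (hx : x 0 = 1) (hy : ∃ j l, pl x y j l ≠ 0) (z : Ω)
    (h : ∀ m b, x m ≠ 0 → pl x y m b ≠ 0 → BdP D B x y m b z) : z ∈ B := by
  classical
  have h' : ∀ p : Fin (N + 1) × Fin (N + 1), ∃ (s : Finset Ω) (M : ℕ), (∀ c ∈ s, c ∈ B) ∧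
      ∀ (O : ValuationSubring Ω) (Δ : Ω), Bdd D Δ O → (∀ c ∈ s, Δ * c ∈ O) →
        x p.1 ≠ 0 → (∀ l, x l / x p.1 ∈ O) → pl x y p.1 p.2 ≠ 0 →
        (∀ j l, pl x y j l / pl x y p.1 p.2 ∈ O) → Δ ^ M * z ∈ O := by
    rintro ⟨m, b⟩
    by_cases hm : x m = 0
    · exact ⟨∅, 0, by simp, fun O Δ _ _ h0 _ _ _ => absurd hm h0⟩
    · by_cases hp : pl x y m b = 0
      · exact ⟨∅, 0, by simp, fun O Δ _ _ _ _ h0 _ => absurd hp h0⟩
      · exact h m b hm hp
  choose s M hs hM using h'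
  refine rat_max hB x 0 hx (Finset.univ.biUnion s) ?_ z (∑ p, M p) ?_
  · intro c hc
    obtain ⟨p, -, hp⟩ := Finset.mem_biUnion.1 hc
    exact hs p c hp
  · intro O Δ hΔ hsO m hm hmax
    have key : ∀ j l, x m * pl x y j l = x j * pl x y m l - x l * pl x y m j := by
      intro j l
      simp only [pl]
      ring
    obtain ⟨b0, hb0⟩ : ∃ b0, pl x y m b0 ≠ 0 := by
      by_contra hno
      push Not at hno
      obtain ⟨j, l, hjl⟩ := hy
      apply hjl
      have h1 := key j l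
      rw [hno l, hno j, mul_zero, mul_zero, sub_zero] at h1
      exact (mul_eq_zero.1 h1).resolve_left hm
    obtain ⟨b, hb, hbm⟩ := Pool.Agent.Helper74.LG.exists_max_coord O (fun l => pl x y m l) b0 hb0
    have hall : ∀ j l, pl x y j l / pl x y m b ∈ O := by
      intro j l
      have h1 : pl x y j l / pl x y m b = (x j / x m) * (pl x y m l / pl x y m b) -
          (x l / x m) * (pl x y m j / pl x y m b) := by
        have h2 := key j l
        have hb' : pl x y m b ≠ 0 := hb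
        field_simp
        linear_combination h2
      rw [h1]
      exact O.toSubring.sub_mem (O.mul_mem _ _ (hmax j) (hbm l)) (O.mul_mem _ _ (hmax l) (hbm j))
    have h1 := hM (m, b) O Δ hΔ
      (fun c hc => hsO c (Finset.mem_biUnion.2 ⟨(m, b), Finset.mem_univ _, hc⟩)) hm hmax hb hall
    have h2 : ∑ p, M p = (∑ p ∈ Finset.univ.erase (m, b), M p) + M (m, b) :=
      (Finset.sum_erase_add _ _ (Finset.mem_univ (m, b))).symm
    rw [h2, pow_add, mul_assoc]
    exact O.mul_mem _ _ (Bd_pow_mem hΔ _) h1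

theorem bdp_line (hB : Frame D a B) (hx : x 0 = 1) (h0 : pl x y 0 β = 1) (G : Ω) (hG : G ≠ 0)
    (h : ∀ m b, x m ≠ 0 → pl x y m b ≠ 0 → BdP D B x y m b (G * pl x y m b)) :
    ∀ j l, pl x y j l ∈ B := by
  have hy : ∃ j l, pl x y j l ≠ 0 := ⟨0, β, by rw [h0]; exact one_ne_zero⟩
  have key : ∀ j l, G * pl x y j l ∈ B := by
    intro j l
    refine bdp_mem hB hx hy _ fun m b hm hp => ?_
    have h1 : G * pl x y j l = (G * pl x y m b) * (pl x y j l / pl x y m b) := by
      field_simp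
    rw [h1]
    exact bdp_mul (h m b hm hp) (bdp_pl j l)
  have hGB : G ∈ B := by
    have h1 := key 0 β
    rwa [h0, mul_one] at h1
  intro j l
  have h1 : pl x y j l = G⁻¹ * (G * pl x y j l) := by
    rw [← mul_assoc, inv_mul_cancel₀ hG, one_mul]
  rw [h1]
  exact B.mul_mem (B.inv_mem hGB) (key j l)

end

end Pool.Agent.Helper10.CK
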