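import Pool.Agent.Helper10.CK.DgB
import Pool.Agent.Helper10.CI.Psi

/-!
# CK-PSIJ: forms which vanish on the line move `x` in the direction of `w`

`ph_w`: as `Psi_diff`, `Psi_eq` in `Helper10/CI/Psi.lean` with the quotient map modulo `span {x, w}` in place of
`pr x`: `θ (D_g x) = θ (D_(psi g) x)` for all `g`, and `psi g = 0` because `Chain_ph g = 0` (`Chain_rh_ph`).
`jj_w`: `D_g x_0 = D_g 1 = 0`, `w_0 = 0`, `x_0 = 1`. `kd_sub`: `E` with `ζ = e_0` (`lf ζ = X 0`, `dt ζ x = 1`) and
`ph_w`.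
-/

set_option autoImplicit false

namespace Pool.Agent.Helper10.CK

open scoped BigOperators
open MvPolynomial Pool.Agent.Helper10.CI
open Pool.Agent.Helper8.LG (Bdd form mon Ix)
open Pool.Agent.Helper49.LN (cP mo hf pl)
open Pool.Agent.Helper6.QS (dv ev lf dt Par RatP)

section

variable {Ω : Type*} [Field Ω] [CharZero Ω] {N r n q : ℕ} {d : Fin r → ℕ}
  {D : Ix (Fin (N + 1)) d → Derivation ℤ Ω Ω} {a : Ix (Fin (N + 1)) d → Ω} {B : Subfield Ω}
  {x y w : Fin (N + 1) → Ω} {β : Fin (N + 1)}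

/-- the derivative modulo `x`, `w` -/
noncomputable def PsiJ_L (D : Ix (Fin (N + 1)) d → Derivation ℤ Ω Ω) (x w : Fin (N + 1) → Ω) :
    (Fin r → MvPolynomial (Fin (N + 1)) Ω) →ₗ[Ω]
      ((Fin (N + 1) → Ω) ⧸ Submodule.span Ω ({x, w} : Set (Fin (N + 1) → Ω))) :=
  (Submodule.span Ω ({x, w} : Set (Fin (N + 1) → Ω))).mkQ.comp (dvC D x)

theorem PsiJ_zero (g : Fin r → MvPolynomial (Fin (N + 1)) Ω) :
    PsiJ_L D x w g = 0 ↔ dvC D x g ∈ Submodule.span Ω {x, w} := by
  rw [PsiJ_L, LinearMap.comp_apply, Submodule.mkQ_apply, Submodule.Quotient.mk_eq_zero]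

/-- the differences `f - psi f` times anything -/
theorem PsiJ_diff (h : LineW D a B x y w β) (f : MvPolynomial (Fin (N + 1)) Ω) :
    ∀ P : Fin r → MvPolynomial (Fin (N + 1)) Ω,
      PsiJ_L D x w (fun i => (f - psi x y β f) * P i) = 0 := by
  have hL : ∀ (l : Fin (N + 1)) (P : Fin r → MvPolynomial (Fin (N + 1)) Ω), PsiJ_L D x w (fun i => rl x l * P i) =
      y l • PsiJ_L D x w (fun i => rl x β * P i) := by
    intro l P
    rw [← sub_eq_zero, ← map_smul, ← map_sub, PsiJ_zero, map_sub, map_smul]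
    exact h.H l P
  induction f using MvPolynomial.induction_on with
  | C c =>
    intro P
    have h1 : psi x y β (C c) = C c := by
      unfold psi
      rw [aeval_C]
      rfl
    have h2 : (fun i => ((C c : MvPolynomial (Fin (N + 1)) Ω) - psi x y β (C c)) * P i) = 0 := by
      funext i
      rw [h1, sub_self, zero_mul]
      rfl
    rw [h2, map_zero]
  | add f g hf hg =>
    intro P
    have h1 : (fun i => (f + g - psi x y β (f + g)) * P i) =
        (fun i => (f - psi x y β f) * P i) + fun i => (g - psi x y β g) * P i := by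
      funext i
      rw [Pi.add_apply, map_add]
      ring
    rw [h1, map_add, hf P, hg P, add_zero]
  | mul_X f l hf =>
    intro P
    have h1 : (fun i => (f * X l - psi x y β (f * X l)) * P i) =
        (fun i => rl x l * (psi x y β f * P i)) - y l • (fun i => rl x β * (psi x y β f * P i)) +
          fun i => (f - psi x y β f) * (X l * P i) := by
      funext i
      rw [Pi.add_apply, Pi.sub_apply, Pi.smul_apply, map_mul, Psi_X]
      have h2 : (X l : MvPolynomial (Fin (N + 1)) Ω) = rl x l + x l • X 0 := by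
        rw [rl, sub_add_cancel]
      simp only [h2, smul_eq_C_mul]
      ring
    rw [h1, map_add, map_sub, map_smul, hL l, hf, sub_self, add_zero]

theorem PsiJ_eq (h : LineW D a B x y w β) (g : Fin r → MvPolynomial (Fin (N + 1)) Ω) :
    PsiJ_L D x w g = PsiJ_L D x w (fun i => psi x y β (g i)) := by
  have h1 : g - (fun i => psi x y β (g i)) =
      ∑ j, fun i => (g j - psi x y β (g j)) * (Pi.single j 1 : Fin r → MvPolynomial _ Ω) i := by
    funext i
    rw [Finset.sum_apply, Finset.sum_eq_single i]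
    · rw [Pi.single_eq_same, mul_one, Pi.sub_apply]
    · intro j _ hj
      rw [Pi.single_eq_of_ne (Ne.symm hj), mul_zero]
    · intro h
      exact absurd (Finset.mem_univ i) h
  rw [← sub_eq_zero, ← map_sub, h1, map_sum]
  exact Finset.sum_eq_zero fun j _ => PsiJ_diff h (g j) _

theorem PsiJ_beta (h : LineW D a B x y w β) : β ≠ 0 := by
  rintro rfl
  have h1 := h.yb
  rw [h.y0] at h1
  exact zero_ne_one h1

theorem ph_w (h : LineW D a B x y w β) (g : Fin r → MvPolynomial (Fin (N + 1)) Ω)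
    (hg : ∀ i, Chain_ph x y β (g i) = 0) : dvC D x g ∈ Submodule.span Ω {x, w} := by
  rw [← PsiJ_zero, PsiJ_eq h]
  have h1 : (fun i => psi x y β (g i)) = 0 := by
    funext i
    rw [← Chain_rh_ph x y β (PsiJ_beta h), hg i, map_zero]
    rfl
  rw [h1, map_zero]

theorem jj_w (h : LineW D a B x y w β) (g : Fin r → MvPolynomial (Fin (N + 1)) Ω)
    (hg : g ∈ JJ d x y β) : ∃ c : Ω, dvC D x g = c • w := by
  have h1 := ph_w h g fun i => (hg i).2
  obtain ⟨c₁, c₂, h2⟩ := Submodule.mem_span_pair.1 h1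
  have h3 : dvC D x g 0 = 0 := by
    rw [dvC_Dg, h.x0]
    exact Derivation.map_one_eq_zero _
  have h4 := congrFun h2 0
  rw [Pi.add_apply, Pi.smul_apply, Pi.smul_apply, h.x0, h.w0, h3, smul_eq_mul, smul_eq_mul, mul_one,
    mul_zero, add_zero] at h4
  refine ⟨c₂, ?_⟩
  rw [← h2, h4, zero_smul, zero_add]

theorem sv_ph (h : LineW D a B x y w β) (A : Fin r → MvPolynomial (Fin (N + 1)) Ω)
    (hA : ∀ i, Chain_ph x y β (A i) = 0) : Sv D x A β ∈ Submodule.span Ω {x, w} := by
  refine ph_w h _ fun i => ?_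
  rw [map_mul, hA i, mul_zero]

theorem kd_sub (h : LineW D a B x y w β) (u : Fin (N + 1) → Ω)
    (hu : ∀ i, Chain_ph x y β (pdF a u i) = 0) : u ∈ Submodule.span Ω {x, w} := by
  classical
  have h1 := h.E u (Pi.single 0 1)
  have h2 : dt (Pi.single 0 1) x = 1 := by
    rw [dt, Finset.sum_eq_single 0]
    · rw [Pi.single_eq_same, h.x0, mul_one]
    · intro j _ hj
      rw [Pi.single_eq_of_ne hj, zero_mul]
    · intro h
      exact absurd (Finset.mem_univ _) h
  have h3 : dvC D x (fun i => lf (Pi.single 0 1) * pdF a u i) ∈ Submodule.span Ω {x, w} := by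
    refine ph_w h _ fun i => ?_
    rw [map_mul, hu i, mul_zero]
  rw [h2, one_smul] at h1
  have h4 := Submodule.sub_mem _ h1 h3
  rwa [add_sub_cancel_left] at h4

end

end Pool.Agent.Helper10.CK
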