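import Pool.Agent.Helper10.CK.GP
import Pool.Agent.Helper10.CK.NcB
import Pool.Agent.Helper10.CK.NiceJ
import Pool.Agent.Helper10.CK.PsiJ
import Pool.Agent.Helper64.CJ.IdnEx

/-!
# CK-RG: the function `R`

`idn_ex` with `u = ![w]` (`span (insert x (range ![w])) = span {x, w}`; independent because `w ≠ 0`, `w_0 = 0`,
`x_0 = 1`) gives rational `Q_t`; `R g = AA (D_g x, Sv Q_t β)` (linear in the first row), `κ = AA (w, Sv Q_t β) ≠ 0`
(`tan_ne`). The bound: `gp_one` with `c = x_m pl(m,b)` (`nc_wt`; `u = D_g x = c w` by `jj_w`, tangent because `w` is).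
-/

set_option autoImplicit false

namespace Pool.Agent.Helper10.CK

open scoped BigOperators
open MvPolynomial Pool.Agent.Helper10.CI
open Pool.Agent.Helper8.LG (Bdd form mon Ix)
open Pool.Agent.Helper49.LN (cP mo hf pl)
open Pool.Agent.Helper6.QS (dv ev lf dt Par RatP)

section

variable {Ω : Type*} [Field Ω] [CharZero Ω] {N r n q : ℕ} {d : Fin r → ℕ}
  {D : Ix (Fin (N + 1)) d → Derivation ℤ Ω Ω} {a : Ix (Fin (N + 1)) d → Ω} {B : Subfield Ω}
  {x y w : Fin (N + 1) → Ω} {β : Fin (N + 1)}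

omit [Field Ω] [CharZero Ω] in
theorem RG_range : (insert x (Set.range ![w]) : Set (Fin (N + 1) → Ω)) = {x, w} := by
  have : Set.range ![w] = {w} := by
    simp
  rw [this]

omit [CharZero Ω] in
theorem RG_li (hx : x 0 = 1) (hw0 : w 0 = 0) (hw : w ≠ 0) :
    LinearIndependent Ω (Fin.cons x ![w] : Fin (1 + 1) → Fin (N + 1) → Ω) := by
  have h1 : (Fin.cons x ![w] : Fin (1 + 1) → Fin (N + 1) → Ω) = ![x, w] := rfl
  rw [h1, LinearIndependent.pair_iff]
  intro s t hst
  have h2 := congrFun hst 0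
  rw [Pi.add_apply, Pi.smul_apply, Pi.smul_apply, hx, hw0, smul_zero, add_zero, smul_eq_mul,
    mul_one, Pi.zero_apply] at h2
  refine ⟨h2, ?_⟩
  rw [h2, zero_smul, zero_add] at hst
  exact (smul_eq_zero.1 hst).resolve_right hw

omit [CharZero Ω] in
theorem RG_upd (s : Fin q → Fin (N + 1) → Ω) (u : Fin (N + 1) → Ω) :
    (Fin.append ![u] s : Fin (1 + q) → Fin (N + 1) → Ω) =
      Function.update (Fin.append ![(0 : Fin (N + 1) → Ω)] s) (Fin.castAdd q 0) u := by
  funext j
  refine Fin.addCases (fun i => ?_) (fun t => ?_) j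
  · have hi : i = 0 := Subsingleton.elim _ _
    subst hi
    rw [Fin.append_left, Function.update_self]
    rfl
  · rw [Fin.append_right, Function.update_of_ne, Fin.append_right]
    intro hc
    have h1 := congrArg Fin.val hc
    rw [Fin.val_natAdd, Fin.val_castAdd] at h1
    have h2 : ((0 : Fin 1) : ℕ) = 0 := rfl
    omega

theorem rg (hB : Frame D a B) (hn : 1 + q + r = N) (hq : 1 ≤ q) (hd : ∀ i, 1 ≤ d i)
    (hnum : ∑ i, (d i + 1) + 1 = 2 * N) (h : LineW D a B x y w β) (hw : w ≠ 0) :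
    ∃ (R : (Fin r → MvPolynomial (Fin (N + 1)) Ω) →ₗ[Ω] Ω) (κ : Ω), κ ≠ 0 ∧
      (∀ g c, dvC D x g = c • w → R g = c * κ) ∧
      ∀ i K l, Multiset.card K + 1 = d i → ∀ m b, x m ≠ 0 → pl x y m b ≠ 0 →
        BdP D B x y m b (R (nc x y β i K l) * pl x y m b ^ (q - 1) / x m) := by
  obtain ⟨e⟩ := Pl_e (n := 1 + q) (r := r) hn
  have hli0 := RG_li h.x0 h.w0 hw
  have hspan : Submodule.span Ω (insert x (Set.range ![w])) = Submodule.span Ω {x, w} := by
    rw [RG_range]
  obtain ⟨Q, hQ, hli⟩ := Pool.Agent.Helper64.CJ.idn_ex hB.dual hn hd x h.x0 h.F0 h.on ![w]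
    (fun j => by
      have hj : j = 0 := Subsingleton.elim _ _
      subst hj
      exact h.wT) hli0 y β (fun l P => by
      rw [hspan]
      exact h.H l P)
  obtain ⟨A, hA, -⟩ := exists_alt e x (tau D x)
  have hAA : ∀ v, AA e D x v = A v := fun v => (hA v).symm
  have hap : ∀ u : Fin (N + 1) → Ω,
      (Fin.append ![u] (fun t => Sv D x (Q t) β) : Fin (1 + q) → Fin (N + 1) → Ω) =
        Function.update (Fin.append ![(0 : Fin (N + 1) → Ω)] (fun t => Sv D x (Q t) β))
          (Fin.castAdd q 0) u := RG_upd _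
  let L : (Fin (N + 1) → Ω) →ₗ[Ω] Ω := A.toMultilinearMap.toLinearMap
    (Fin.append ![(0 : Fin (N + 1) → Ω)] (fun t => Sv D x (Q t) β)) (Fin.castAdd q 0)
  have hL : ∀ u, L u = AA e D x (Fin.append ![u] (fun t => Sv D x (Q t) β)) := by
    intro u
    rw [hAA, hap u]
    rfl
  refine ⟨L.comp (dvC D x), L w, ?_, ?_, ?_⟩
  · rw [hL, tan_ne hB.dual hn x h.x0 h.F0 e _ ?_]
    · exact hli
    · intro j
      refine Fin.addCases (fun i => ?_) (fun t => ?_) j
      · rw [Fin.append_left]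
        have hi : i = 0 := Subsingleton.elim _ _
        subst hi
        exact h.wT
      · rw [Fin.append_right]
        exact sv_TT hB.dual x h.x0 h.F0 hd (Q t) β
  · intro g c hg
    rw [LinearMap.comp_apply, hg, map_smul, smul_eq_mul]
  · intro i K l hK m b hm hP
    obtain ⟨c, hc⟩ := jj_w h _ (nc_mem h.x0 h.y0 h.yb i K l hK)
    have hT : dvC D x (nc x y β i K l) ∈ TT a x := by
      rw [hc]
      exact Submodule.smul_mem _ c h.wT
    have h1 := gp_one hB hn hd hnum h e (dvC D x (nc x y β i K l)) hT ⟨c, hc⟩ Q hQ m b hm hP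
      (x m * pl x y m b) (mul_ne_zero hm hP) (nc_wt h.x0 h.y0 h.yb i K l m b hm hP)
    rw [LinearMap.comp_apply, hL]
    have h2 : AA e D x (Fin.append ![dvC D x (nc x y β i K l)] (fun t => Sv D x (Q t) β)) *
        pl x y m b ^ (q - 1) / x m =
        AA e D x (Fin.append ![dvC D x (nc x y β i K l)] (fun t => Sv D x (Q t) β)) *
        pl x y m b ^ q / (x m * pl x y m b) := by
      obtain ⟨q', rfl⟩ : ∃ q', q = q' + 1 := ⟨q - 1, by omega⟩
      rw [Nat.add_sub_cancel, pow_succ, ← mul_assoc, mul_comm (x m) (pl x y m b), ← div_div,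
        mul_div_assoc _ (pl x y m b) (pl x y m b), div_self hP, mul_one]
    rw [h2]
    exact h1

end

end Pool.Agent.Helper10.CK
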